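import Pool.Agent.Lib.MP_17a322_nt.VE.Defs

/-!
Mean vanishing orders: weighted powers of ideals.
-/

namespace Pool.Agent.Lib.MP_17a322_nt.VE

section

variable {R : Type*} [CommRing R]

theorem wI_zero (l : List (Ideal R × ℕ)) : wI l 0 = ⊤ := by
  induction l with
  | nil => exact if_pos rfl
  | cons p l ih =>
    rw [eq_top_iff]
    refine le_trans (le_of_eq ?_) (le_iSup (fun i : ℕ => p.1 ^ i * wI l (0 - p.2 * i)) 0)
    rw [pow_zero, mul_zero, Nat.sub_zero, ih, Ideal.one_eq_top, Ideal.top_mul]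

theorem wI_anti (l : List (Ideal R × ℕ)) {x y : ℕ} (h : x ≤ y) : wI l y ≤ wI l x := by
  induction l generalizing x y with
  | nil =>
    unfold wI
    by_cases hy : y = 0
    · rw [if_pos hy, if_pos (by omega)]
    · rw [if_neg hy]
      exact bot_le
  | cons p l ih =>
    exact iSup_mono fun i => Ideal.mul_mono_right (ih (Nat.sub_le_sub_right h _))

theorem wI_cons (J : Ideal R) (w : ℕ) (l : List (Ideal R × ℕ)) (x : ℕ) :
    wI ((J, w) :: l) x = wI l x ⊔ J * wI ((J, w) :: l) (x - w) := by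
  have h1 : wI ((J, w) :: l) x = ⨆ i : ℕ, J ^ i * wI l (x - w * i) := rfl
  have h2 : wI ((J, w) :: l) (x - w) = ⨆ i : ℕ, J ^ i * wI l (x - w - w * i) := rfl
  rw [h1, h2, ← sup_iSup_nat_succ, Ideal.mul_iSup]
  congr 1
  · rw [pow_zero, Ideal.one_eq_top, Ideal.top_mul, mul_zero, Nat.sub_zero]
  · refine iSup_congr fun i => ?_
    rw [pow_succ', mul_assoc]
    have h3 : x - w * (i + 1) = x - w - w * i := by
      rw [Nat.sub_sub, mul_add, mul_one, add_comm]
    rw [h3]

theorem wI_le_cons (p : Ideal R × ℕ) (l : List (Ideal R × ℕ)) (x : ℕ) :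
    wI l x ≤ wI (p :: l) x := by
  refine le_trans (le_of_eq ?_) (le_iSup (fun i : ℕ => p.1 ^ i * wI l (x - p.2 * i)) 0)
  rw [pow_zero, Ideal.one_eq_top, Ideal.top_mul, mul_zero, Nat.sub_zero]

theorem wI_mul_pow (J : Ideal R) (w : ℕ) (l : List (Ideal R × ℕ)) (x m : ℕ) :
    wI l x * J ^ m ≤ wI ((J, w) :: l) (x + w * m) := by
  refine le_trans (le_of_eq ?_) (le_iSup (fun i : ℕ => J ^ i * wI l (x + w * m - w * i)) m)
  rw [Nat.add_sub_cancel, mul_comm]

theorem wI_map {R' : Type*} [CommRing R'] (f : R →+* R') (l : List (Ideal R × ℕ)) (x : ℕ) :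
    (wI l x).map f = wI (l.map fun p => (p.1.map f, p.2)) x := by
  induction l generalizing x with
  | nil =>
    unfold wI
    rw [List.map_nil]
    dsimp only
    split_ifs
    · exact Ideal.map_top f
    · exact Ideal.map_bot
  | cons p l ih =>
    rw [List.map_cons]
    have h1 : wI (p :: l) x = ⨆ i : ℕ, p.1 ^ i * wI l (x - p.2 * i) := rfl
    have h2 : wI ((p.1.map f, p.2) :: l.map fun p => (p.1.map f, p.2)) x =
        ⨆ i : ℕ, (p.1.map f) ^ i * wI (l.map fun p => (p.1.map f, p.2)) (x - p.2 * i) := rfl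
    rw [h1, h2, Ideal.map_iSup]
    refine iSup_congr fun i => ?_
    rw [Ideal.map_mul, Ideal.map_pow, ih]

theorem wI_top {l : List (Ideal R × ℕ)} {p : Ideal R × ℕ} (hp : p ∈ l) (hw : 0 < p.2)
    (h : p.1 = ⊤) (x : ℕ) : wI l x = ⊤ := by
  induction l with
  | nil => exact absurd hp List.not_mem_nil
  | cons q l ih =>
    rw [eq_top_iff]
    rcases List.mem_cons.1 hp with h1 | h1
    · subst h1
      refine le_trans (le_of_eq ?_) (le_iSup (fun i : ℕ => p.1 ^ i * wI l (x - p.2 * i)) x)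
      have h2 : x - p.2 * x = 0 := Nat.sub_eq_zero_of_le (Nat.le_mul_of_pos_left x hw)
      rw [h2, wI_zero, h, Ideal.top_pow, Ideal.top_mul]
    · exact le_trans (ih h1).ge (wI_le_cons q l x)

theorem wI_single (J : Ideal R) (m : ℕ) : wI [(J, 1)] m = J ^ m := by
  have h1 : wI [(J, 1)] m = ⨆ i : ℕ, J ^ i * (if m - 1 * i = 0 then ⊤ else ⊥) := rfl
  rw [h1]
  refine le_antisymm (iSup_le fun i => ?_) ?_
  · split_ifs with h2
    · rw [Ideal.mul_top]
      exact Ideal.pow_le_pow_right (by omega)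
    · rw [Ideal.mul_bot]
      exact bot_le
  · refine le_trans (le_of_eq ?_) (le_iSup (fun i : ℕ => J ^ i * (if m - 1 * i = 0 then ⊤ else ⊥)) m)
    rw [if_pos (by omega), Ideal.mul_top]

end

end Pool.Agent.Lib.MP_17a322_nt.VE
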