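import Pool.Agent.Lib.MP_17a322_nt.Mb

/-!
Mean vanishing orders: bases adapted to a chain of subspaces.
-/

namespace Pool.Agent.Lib.MP_17a322_nt.VE

section

variable {L : Type*} [Field L] {V : Type*} [AddCommGroup V] [Module L V]
  [FiniteDimensional L V]

/-- A set that is independent modulo `N` is extended to a basis of a larger subspace. -/
private theorem A10_ext (N W : Submodule L V) (R : Set V)
    (hR : W ≤ Submodule.span L (R ∩ W)) (T : Finset V)
    (hT : LinearIndepOn L N.mkQ (T : Set V)) (hTR : ∀ u ∈ T, u ∈ R ∧ u ∈ W) :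
    ∃ T' : Finset V, T ⊆ T' ∧ LinearIndepOn L N.mkQ (T' : Set V) ∧
      (∀ u ∈ T', u ∈ R ∧ u ∈ W) ∧ Submodule.span L (N.mkQ '' T') = W.map N.mkQ := by
  have hsub : (T : Set V) ⊆ R ∩ W := fun u hu => hTR u (Finset.mem_coe.1 hu)
  obtain ⟨b, hb1, hb2, hb3, hb4⟩ := exists_linearIndepOn_extension hT hsub
  have hfin : b.Finite := by
    have h1 : LinearIndependent L fun u : b => N.mkQ u := hb4
    have h2 : Finite b := LinearIndependent.finite h1
    exact Set.toFinite b
  refine ⟨hfin.toFinset, ?_, ?_, ?_, ?_⟩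
  · intro u hu
    rw [Set.Finite.mem_toFinset]
    exact hb2 (Finset.mem_coe.2 hu)
  · rw [Set.Finite.coe_toFinset]
    exact hb4
  · intro u hu
    exact hb1 ((Set.Finite.mem_toFinset _).1 hu)
  · rw [Set.Finite.coe_toFinset]
    refine le_antisymm ?_ ?_
    · rw [Submodule.span_le]
      rintro _ ⟨u, hu, rfl⟩
      exact Submodule.mem_map_of_mem (hb1 hu).2
    · refine (Submodule.map_mono hR).trans ?_
      rw [Submodule.map_span, Submodule.span_le]
      exact hb3

omit [FiniteDimensional L V] in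
private theorem A10_card (N W : Submodule L V) (T : Finset V)
    (hT : LinearIndepOn L N.mkQ (T : Set V))
    (h : Submodule.span L (N.mkQ '' T) = W.map N.mkQ) :
    Module.finrank L (W.map N.mkQ) = T.card := by
  have h1 : LinearIndependent L fun u : (T : Set V) => N.mkQ u := hT
  have h2 := finrank_span_eq_card h1
  have h3 : Set.range (fun u : (T : Set V) => N.mkQ u) = N.mkQ '' T := by
    rw [Set.image_eq_range]
  rw [h3, h] at h2
  rw [h2]
  simp

/-- The induction: `t` steps down from `Z`. -/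
private theorem A10_ind (N : Submodule L V) (W : ℕ → Submodule L V) (hW : Antitone W)
    (Z : ℕ) (R : Set V) (hR : ∀ z ≤ Z, W z ≤ Submodule.span L (R ∩ W z)) (t : ℕ) (ht : t ≤ Z) :
    ∃ (T : Finset V) (x : V → ℕ), LinearIndepOn L N.mkQ (T : Set V) ∧
      (∀ u ∈ T, u ∈ R ∧ u ∈ W (x u) ∧ Z - t ≤ x u) ∧
      Submodule.span L (N.mkQ '' T) = (W (Z - t)).map N.mkQ ∧
      ∑ z ∈ Finset.Ico (Z - t) Z, Module.finrank L ((W (z + 1)).map N.mkQ) +
        (Z - t) * T.card ≤ ∑ u ∈ T, x u := by
  classical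
  induction t with
  | zero =>
    obtain ⟨T, -, h1, h2, h3⟩ := A10_ext N (W Z) R (hR Z le_rfl) ∅ (by simp) (by simp)
    refine ⟨T, fun _ => Z, h1, fun u hu => ⟨(h2 u hu).1, (h2 u hu).2, Nat.sub_le _ _⟩, h3, ?_⟩
    rw [Nat.sub_zero, Finset.Ico_self, Finset.sum_empty, zero_add, Finset.sum_const,
      smul_eq_mul, mul_comm]
  | succ t ih =>
    obtain ⟨T, x, h1, h2, h3, h4⟩ := ih (by omega)
    have hz : Z - t = Z - (t + 1) + 1 := by omega
    obtain ⟨z, hz1⟩ : ∃ z, z = Z - (t + 1) := ⟨_, rfl⟩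
    rw [← hz1] at hz ⊢
    rw [hz] at h2 h3 h4
    obtain ⟨T', k1, k2, k3, k4⟩ := A10_ext N (W z) R (hR z (by omega)) T h1
      (fun u hu => ⟨(h2 u hu).1, hW (by have := (h2 u hu).2.2; omega) (h2 u hu).2.1⟩)
    refine ⟨T', fun u => if u ∈ T then x u else z, k2, fun u hu => ?_, k4, ?_⟩
    · refine ⟨(k3 u hu).1, ?_, ?_⟩
      · show u ∈ W (if u ∈ T then x u else z)
        by_cases huT : u ∈ T
        · rw [if_pos huT]
          exact (h2 u huT).2.1
        · rw [if_neg huT]
          exact (k3 u hu).2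
      · show z ≤ if u ∈ T then x u else z
        by_cases huT : u ∈ T
        · rw [if_pos huT]
          have := (h2 u huT).2.2
          omega
        · rw [if_neg huT]
    · have hc := A10_card N (W (z + 1)) T h1 h3
      have h5 : ∑ u ∈ T', (if u ∈ T then x u else z) = ∑ u ∈ T, x u + z * (T' \ T).card := by
        rw [← Finset.sum_sdiff k1, add_comm]
        congr 1
        · exact Finset.sum_congr rfl fun u hu => if_pos hu
        · rw [Finset.sum_congr rfl fun u hu => if_neg (Finset.mem_sdiff.1 hu).2,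
            Finset.sum_const, smul_eq_mul, mul_comm]
      have h6 : (T' \ T).card + T.card = T'.card := Finset.card_sdiff_add_card_eq_card k1
      have h7 : ∑ i ∈ Finset.Ico z Z, Module.finrank L ((W (i + 1)).map N.mkQ) =
          Module.finrank L ((W (z + 1)).map N.mkQ) +
            ∑ i ∈ Finset.Ico (z + 1) Z, Module.finrank L ((W (i + 1)).map N.mkQ) :=
        Finset.sum_eq_sum_Ico_succ_bot (by omega) _
      rw [h5, h7, hc, ← h6]
      nlinarith [h4]

end

theorem chain {L : Type*} [Field L] {V : Type*} [AddCommGroup V] [Module L V]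
    [FiniteDimensional L V] (N : Submodule L V) (W : ℕ → Submodule L V) (hW : Antitone W)
    (hW0 : W 0 = ⊤) (Z : ℕ) (hN : ∀ z ≤ Z, N ≤ W z) (R : Set V)
    (hR : ∀ z ≤ Z, W z ≤ Submodule.span L (R ∩ W z)) {r : ℕ}
    (hr : r = Module.finrank L (V ⧸ N)) :
    ∃ (v : Fin r → V) (x : Fin r → ℕ), (∀ i, v i ∈ R) ∧ (∀ i, v i ∈ W (x i)) ∧
      (∀ a : Fin r → L, ∑ i, a i • v i ∈ N → a = 0) ∧
      ∑ z ∈ Finset.range Z, Module.finrank L ((W (z + 1)).map N.mkQ) ≤ ∑ i, x i := by
  obtain ⟨T, x, h1, h2, h3, h4⟩ := A10_ind N W hW Z R hR Z le_rfl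
  rw [Nat.sub_self] at h3 h4
  have hc := A10_card N (W 0) T h1 h3
  have hTr : T.card = r := by
    rw [← hc, hr, hW0, Submodule.map_top, Submodule.range_mkQ, finrank_top]
  let e : Fin r ≃ T := (T.equivFinOfCardEq hTr).symm
  refine ⟨fun i => (e i : V), fun i => x (e i), fun i => (h2 _ (e i).2).1,
    fun i => (h2 _ (e i).2).2.1, fun a ha => ?_, ?_⟩
  · have h5 : LinearIndependent L fun i : Fin r => N.mkQ (e i : V) := by
      have h6 : LinearIndependent L fun u : T => N.mkQ (u : V) := h1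
      exact h6.comp e e.injective
    rw [Fintype.linearIndependent_iff] at h5
    have h7 : ∑ i, a i • N.mkQ (e i : V) = 0 := by
      have h8 : N.mkQ (∑ i, a i • (e i : V)) = 0 := by
        rw [Submodule.mkQ_apply, Submodule.Quotient.mk_eq_zero]
        exact ha
      rw [map_sum] at h8
      rw [← h8]
      exact Finset.sum_congr rfl fun i _ => (map_smul _ _ _).symm
    funext i
    exact h5 a h7 i
  · have h5 : ∑ i, x (e i : V) = ∑ u ∈ T, x u := by
      rw [Equiv.sum_comp e fun u : T => x (u : V), Finset.sum_coe_sort T x]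
    rw [h5, Finset.range_eq_Ico]
    omega

end Pool.Agent.Lib.MP_17a322_nt.VE
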