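import Pool.Agent.Lib.MP_17a322_nt.VE.DefsB
import Pool.Agent.Lib.MP_17a322_nt.VA.Mu

/-!
Mean vanishing orders: the ideal of the fibre is generated over the field of the point, and forms with
coefficients in the field of the point are proportional to values of bihomogeneous forms.
-/

universe u

namespace Pool.Agent.Lib.MP_17a322_nt.VE

open MvPolynomial Height
open Pool.Agent.Lib.MP_17a322_nt.VA
open Pool.Agent.Lib.MP_17a322_nt.SL
open Pool.Agent.Lib.MP_17a322_nt.EF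

section

variable {K : Type u} [Field K] {N : ℕ} (A : AV K N) {n m s w : ℕ}

/-- A polynomial with coefficients in a subfield. -/
private theorem A11_map {L : Type*} [Field L] {E : Type*} [Field E] [Algebra E L]
    (Q : MvPolynomial (Fin n) L) (h : ∀ μ, ∃ a : E, algebraMap E L a = coeff μ Q) :
    ∃ g₀ : MvPolynomial (Fin n) E, Q = MvPolynomial.map (algebraMap E L) g₀ := by
  classical
  choose a ha using h
  refine ⟨∑ μ ∈ Q.support, monomial μ (a μ), ?_⟩
  rw [map_sum]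
  conv_lhs => rw [← support_sum_monomial_coeff Q]
  refine Finset.sum_congr rfl fun μ _ => ?_
  rw [map_monomial, ha]

theorem Rat_fib (H : Fin m → MvPolynomial (Fin n) (MvPolynomial (Fin (N + 1)) K))
    (hH : ∀ i, ∃ a b : ℕ, BH a b (H i)) {L : Type u} [Field L] [Algebra K L] (P : A.Pts L) :
    Rat (KP A P) (fib A H P) := by
  classical
  obtain ⟨a, ha⟩ := A.exists_x_ne P
  choose D d hBH using hH
  have h1 : ∀ i, ∃ g₀ : MvPolynomial (Fin n) (KP A P),
      C ((A.x P a ^ D i)⁻¹) * sp A P (H i) = MvPolynomial.map (algebraMap (KP A P) L) g₀ := by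
    intro i
    refine A11_map _ fun μ => ?_
    have h2 := F_div_mem P ((hBH i).2 μ) a
    refine ⟨⟨_, h2⟩, ?_⟩
    change aeval (A.x P) (coeff μ (H i)) / A.x P a ^ D i = _
    rw [coeff_C_mul, sp, coeff_map, div_eq_mul_inv, mul_comm]
    rfl
  choose g₀ hg₀ using h1
  refine ⟨Set.range g₀, ?_⟩
  unfold fib
  have hu : ∀ i, (A.x P a ^ D i)⁻¹ ≠ 0 := fun i => inv_ne_zero (pow_ne_zero _ ha)
  refine le_antisymm (Ideal.span_le.2 ?_) (Ideal.span_le.2 ?_)
  · rintro - ⟨i, rfl⟩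
    have h2 : sp A P (H i) = C (A.x P a ^ D i) * (C ((A.x P a ^ D i)⁻¹) * sp A P (H i)) := by
      rw [← mul_assoc, ← C_mul, mul_inv_cancel₀ (pow_ne_zero _ ha), C_1, one_mul]
    have h3 : C ((A.x P a ^ D i)⁻¹) * sp A P (H i) ∈
        Ideal.span (MvPolynomial.map (algebraMap (KP A P) L) '' Set.range g₀) := by
      rw [hg₀ i]
      exact Ideal.subset_span ⟨_, ⟨i, rfl⟩, rfl⟩
    change sp A P (H i) ∈ _
    rw [h2]
    exact Ideal.mul_mem_left _ _ h3
  · rintro - ⟨-, ⟨i, rfl⟩, rfl⟩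
    rw [← hg₀ i]
    exact Ideal.mul_mem_left _ _ (Ideal.subset_span ⟨i, rfl⟩)

private theorem A11_one {L : Type u} [Field L] [Algebra K L] (P : A.Pts L) {k : ℕ}
    (g : MvPolynomial (Fin n) L) (hg : g.IsHomogeneous k)
    (hr : ∃ g₀ : MvPolynomial (Fin n) (KP A P), g = MvPolynomial.map (algebraMap (KP A P) L) g₀) :
    ∃ (δ : ℕ) (Φ : MvPolynomial (Fin n) (MvPolynomial (Fin (N + 1)) K)) (c : L),
      BH δ k Φ ∧ c ≠ 0 ∧ sp A P Φ = C c * g := by
  classical
  obtain ⟨g₀, hg₀⟩ := hr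
  have h0 : ∀ μ, coeff μ g ∈ IntermediateField.adjoin K (Set.range (rt (A.x P))) := by
    intro μ
    rw [hg₀, coeff_map]
    exact (coeff μ g₀).2
  choose D h f h1 h2 h3 h4 using fun μ => F_rep P (h0 μ)
  refine ⟨∑ ν ∈ g.support, D ν,
    ∑ μ ∈ g.support, monomial μ (h μ * ∏ ν ∈ g.support.erase μ, f ν),
    ∏ ν ∈ g.support, aeval (A.x P) (f ν), ⟨?_, fun ν => ?_⟩, ?_, ?_⟩
  · refine IsHomogeneous.sum _ _ _ fun μ hμ => ?_
    exact isHomogeneous_monomial _ (by
      have h5 := hg (mem_support_iff.1 hμ)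
      rw [← h5]
      simp [Finsupp.weight_apply, Finsupp.degree, Finsupp.sum])
  · rw [coeff_sum]
    refine IsHomogeneous.sum _ _ _ fun μ hμ => ?_
    rw [coeff_monomial]
    by_cases hνμ : μ = ν
    · rw [if_pos hνμ, ← Finset.add_sum_erase _ _ hμ]
      exact (h1 μ).mul (IsHomogeneous.prod _ _ _ fun ν _ => h2 ν)
    · rw [if_neg hνμ]
      exact isHomogeneous_zero _ _ _
  · exact Finset.prod_ne_zero_iff.2 fun ν _ => h3 ν
  · have h6 : C (∏ ν ∈ g.support, aeval (A.x P) (f ν)) * g =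
        C (∏ ν ∈ g.support, aeval (A.x P) (f ν)) * ∑ μ ∈ g.support, monomial μ (coeff μ g) := by
      rw [support_sum_monomial_coeff]
    rw [h6]
    unfold sp
    rw [map_sum, Finset.mul_sum]
    refine Finset.sum_congr rfl fun μ hμ => ?_
    rw [map_monomial, C_mul_monomial]
    congr 1
    change aeval (A.x P) (h μ * ∏ ν ∈ g.support.erase μ, f ν) = _
    rw [map_mul, map_prod, ← h4 μ, ← Finset.mul_prod_erase _ _ hμ]
    ring

theorem descent {L : Type u} [Field L] [Algebra K L] (P : A.Pts L) {r k : ℕ}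
    (g : Fin r → MvPolynomial (Fin n) L) (hg : ∀ i, (g i).IsHomogeneous k)
    (hr : ∀ i, ∃ g₀ : MvPolynomial (Fin n) (KP A P),
      g i = MvPolynomial.map (algebraMap (KP A P) L) g₀) :
    ∃ (δ : ℕ) (Φ : Fin r → MvPolynomial (Fin n) (MvPolynomial (Fin (N + 1)) K)) (c : Fin r → L),
      (∀ i, BH δ k (Φ i)) ∧ (∀ i, c i ≠ 0) ∧ ∀ i, sp A P (Φ i) = C (c i) * g i := by
  classical
  obtain ⟨a, ha⟩ := A.exists_x_ne P
  choose δ Φ c h1 h2 h3 using fun i => A11_one A P (g i) (hg i) (hr i)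
  have hδ : ∀ i, δ i ≤ ∑ i, δ i := fun i => Finset.single_le_sum (fun _ _ => Nat.zero_le _)
    (Finset.mem_univ i)
  refine ⟨∑ i, δ i, fun i => C (X a ^ (∑ i, δ i - δ i)) * Φ i,
    fun i => A.x P a ^ (∑ i, δ i - δ i) * c i, fun i => ⟨?_, fun μ => ?_⟩, fun i => ?_, fun i => ?_⟩
  · have h4 := (isHomogeneous_C (Fin n) (X a ^ (∑ i, δ i - δ i) : MvPolynomial (Fin (N + 1)) K)).mul
      (h1 i).1
    rw [zero_add] at h4
    exact h4
  · rw [coeff_C_mul]
    have h4 := ((isHomogeneous_X K a).pow (∑ i, δ i - δ i)).mul ((h1 i).2 μ)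
    have h5 : 1 * (∑ i, δ i - δ i) + δ i = ∑ i, δ i := by
      have := hδ i
      omega
    rw [h5] at h4
    exact h4
  · exact mul_ne_zero (pow_ne_zero _ ha) (h2 i)
  · unfold sp
    rw [map_mul, map_C]
    have h4 : MvPolynomial.map (aeval (A.x P)).toRingHom (Φ i) = sp A P (Φ i) := rfl
    rw [h4, h3 i]
    have h5 : (aeval (A.x P)).toRingHom (X a ^ (∑ i, δ i - δ i) : MvPolynomial (Fin (N + 1)) K) =
        A.x P a ^ (∑ i, δ i - δ i) := by
      change aeval (A.x P) (X a ^ (∑ i, δ i - δ i)) = _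
      rw [map_pow, aeval_X]
    rw [h5, C_mul]
    ring

end

end Pool.Agent.Lib.MP_17a322_nt.VE
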