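import Pool.Agent.Lib.MP_17a322_nt.VE.Defs

/-!
Mean vanishing orders: rational ideals.
-/

namespace Pool.Agent.Lib.MP_17a322_nt.VE

open MvPolynomial

section

variable {L : Type*} [Field L] {n : ℕ} (E : Type*) [Field E] [Algebra E L]

theorem Rat_bot : Rat E (⊥ : Ideal (MvPolynomial (Fin n) L)) :=
  ⟨∅, by rw [Set.image_empty, Ideal.span_empty]⟩

theorem Rat_top : Rat E (⊤ : Ideal (MvPolynomial (Fin n) L)) :=
  ⟨{1}, by rw [Set.image_singleton, map_one, Ideal.span_singleton_one]⟩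

theorem Rat_sup {I J : Ideal (MvPolynomial (Fin n) L)} (hI : Rat E I) (hJ : Rat E J) :
    Rat E (I ⊔ J) := by
  obtain ⟨S, rfl⟩ := hI
  obtain ⟨T, rfl⟩ := hJ
  exact ⟨S ∪ T, by rw [Set.image_union, Ideal.span_union]⟩

theorem Rat_mul {I J : Ideal (MvPolynomial (Fin n) L)} (hI : Rat E I) (hJ : Rat E J) :
    Rat E (I * J) := by
  obtain ⟨S, rfl⟩ := hI
  obtain ⟨T, rfl⟩ := hJ
  refine ⟨Set.image2 (fun a b => a * b) S T, ?_⟩
  rw [Ideal.span_mul_span']
  congr 1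
  ext z
  constructor
  · rintro ⟨x, ⟨a, ha, rfl⟩, y, ⟨b, hb, rfl⟩, rfl⟩
    exact ⟨a * b, ⟨a, ha, b, hb, rfl⟩, map_mul _ a b⟩
  · rintro ⟨x, ⟨a, ha, b, hb, rfl⟩, rfl⟩
    exact ⟨_, ⟨a, ha, rfl⟩, _, ⟨b, hb, rfl⟩, (map_mul _ a b).symm⟩

private theorem A9_iSup {ι : Type*} {I : ι → Ideal (MvPolynomial (Fin n) L)} (hI : ∀ i, Rat E (I i)) :
    Rat E (⨆ i, I i) := by
  choose S hS using hI
  refine ⟨⋃ i, S i, ?_⟩
  rw [Set.image_iUnion, Ideal.span_iUnion]
  exact iSup_congr hS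

private theorem A9_pow {I : Ideal (MvPolynomial (Fin n) L)} (hI : Rat E I) (m : ℕ) : Rat E (I ^ m) := by
  induction m with
  | zero =>
    rw [pow_zero, Ideal.one_eq_top]
    exact Rat_top E
  | succ m ih =>
    rw [pow_succ]
    exact Rat_mul E ih hI

theorem Rat_wI {l : List (Ideal (MvPolynomial (Fin n) L) × ℕ)} (hl : ∀ p ∈ l, Rat E p.1)
    (x : ℕ) : Rat E (wI l x) := by
  induction l generalizing x with
  | nil =>
    unfold wI
    split_ifs
    · exact Rat_top E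
    · exact Rat_bot E
  | cons p l ih =>
    exact A9_iSup E fun i => Rat_mul E (A9_pow E (hl p List.mem_cons_self) i)
      (ih (fun q hq => hl q (List.mem_cons_of_mem p hq)) _)

end

end Pool.Agent.Lib.MP_17a322_nt.VE
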