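import Pool.Agent.Lib.MP_17a322_nt.VE.Defs

/-!
Rational ideals (block A9b): the saturation of a rational ideal is rational, and the forms in a rational ideal
are combinations of rational forms.

An `E`-linear map `π : L → E` is applied to the coefficients of the polynomials (`A9b_pst π`). It maps
`h * map s` to `A9b_pst π h * s`, so it maps rational ideals into themselves (`A9b_mem`). Every polynomial is the
sum of the products of the elements `b i` of a basis of `L` over `E` with its images under the coordinate maps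
(`A9b_sum`).
-/

universe u v w

namespace Pool.Agent.Lib.MP_17a322_nt.VE

open MvPolynomial

section

variable {L : Type*} [Field L] {n : ℕ} (E : Type*) [Field E] [Algebra E L]

variable {E} in
/-- The linear map applied to the coefficients. -/
private noncomputable def A9b_pst (φ : L →ₗ[E] E) (f : MvPolynomial (Fin n) L) : MvPolynomial (Fin n) E :=
  ∑ m ∈ f.support, monomial m (φ (coeff m f))

variable {E} in
private theorem A9b_coeff (φ : L →ₗ[E] E) (f : MvPolynomial (Fin n) L) (m : Fin n →₀ ℕ) :
    coeff m (A9b_pst φ f) = φ (coeff m f) := by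
  unfold A9b_pst
  rw [coeff_sum]
  simp only [coeff_monomial]
  rw [Finset.sum_ite_eq' f.support m]
  split_ifs with h
  · rfl
  · rw [notMem_support_iff.1 h, map_zero]

variable {E} in
private theorem A9b_zero (φ : L →ₗ[E] E) : A9b_pst φ (0 : MvPolynomial (Fin n) L) = 0 := by
  ext m
  rw [A9b_coeff, coeff_zero, map_zero, coeff_zero]

variable {E} in
private theorem A9b_add (φ : L →ₗ[E] E) (f g : MvPolynomial (Fin n) L) :
    A9b_pst φ (f + g) = A9b_pst φ f + A9b_pst φ g := by
  ext m
  rw [A9b_coeff, coeff_add, map_add, coeff_add, A9b_coeff, A9b_coeff]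

variable {E} in
private theorem A9b_mul (φ : L →ₗ[E] E) (h : MvPolynomial (Fin n) L) (s : MvPolynomial (Fin n) E) :
    A9b_pst φ (h * MvPolynomial.map (algebraMap E L) s) = A9b_pst φ h * s := by
  classical
  ext m
  rw [A9b_coeff, coeff_mul, coeff_mul, map_sum]
  refine Finset.sum_congr rfl fun p _ => ?_
  rw [coeff_map, A9b_coeff, mul_comm, ← Algebra.smul_def, map_smul, smul_eq_mul, mul_comm]

variable {E} in
private theorem A9b_mem (φ : L →ₗ[E] E) {I : Ideal (MvPolynomial (Fin n) L)} (hI : Rat E I) {f : MvPolynomial (Fin n) L}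
    (hf : f ∈ I) : MvPolynomial.map (algebraMap E L) (A9b_pst φ f) ∈ I := by
  obtain ⟨S, hS⟩ := hI
  have h1 : ∀ x ∈ Ideal.span (MvPolynomial.map (algebraMap E L) '' S), ∀ h : MvPolynomial (Fin n) L,
      MvPolynomial.map (algebraMap E L) (A9b_pst φ (h * x)) ∈ I := by
    intro x hx
    induction hx using Submodule.span_induction with
    | mem x hx =>
      obtain ⟨s, hs, rfl⟩ := hx
      intro h
      rw [A9b_mul, map_mul, hS]
      exact Ideal.mul_mem_left _ _ (Ideal.subset_span ⟨s, hs, rfl⟩)
    | zero =>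
      intro h
      rw [mul_zero, A9b_zero, map_zero]
      exact I.zero_mem
    | add x y _ _ hx hy =>
      intro h
      rw [mul_add, A9b_add, map_add]
      exact I.add_mem (hx h) (hy h)
    | smul a x _ hx =>
      intro h
      rw [smul_eq_mul, ← mul_assoc]
      exact hx (h * a)
  rw [hS] at hf
  have h2 := h1 f hf 1
  rwa [one_mul] at h2

/-- Every polynomial is a combination of rational ones. -/
private theorem A9b_sum {L : Type v} [Field L] {n : ℕ} (E : Type w) [Field E] [Algebra E L] (f : MvPolynomial (Fin n) L) :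
    ∃ (ι : Type v) (T : Finset ι) (b : ι → L) (φ : ι → L →ₗ[E] E), f = ∑ i ∈ T, C (b i) * MvPolynomial.map (algebraMap E L) (A9b_pst (φ i) f) := by
  classical
  let b := Module.Basis.ofVectorSpace E L
  refine ⟨Module.Basis.ofVectorSpaceIndex E L, f.support.biUnion fun m => (b.repr (coeff m f)).support, b,
    fun i => b.coord i, ?_⟩
  ext m
  rw [coeff_sum]
  have h1 : ∀ i, coeff m (C (b i) * MvPolynomial.map (algebraMap E L) (A9b_pst (b.coord i) f)) =
      (b.repr (coeff m f) i) • b i := by
    intro i
    rw [coeff_C_mul, coeff_map, A9b_coeff, Module.Basis.coord_apply, Algebra.smul_def, mul_comm]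
  rw [Finset.sum_congr rfl fun i _ => h1 i]
  by_cases hm : m ∈ f.support
  · have h2 := b.linearCombination_repr (coeff m f)
    rw [Finsupp.linearCombination_apply] at h2
    rw [← Finsupp.sum_of_support_subset (b.repr (coeff m f))
      (Finset.subset_biUnion_of_mem (fun m => (b.repr (coeff m f)).support) hm) (fun i a => a • b i)
      (fun i _ => zero_smul E (b i)), h2]
  · rw [notMem_support_iff.1 hm]
    simp

theorem Rat_sat {I : Ideal (MvPolynomial (Fin n) L)} (hI : Rat E I) : Rat E (sat I) := by
  refine ⟨{g₀ | MvPolynomial.map (algebraMap E L) g₀ ∈ sat I}, le_antisymm ?_ ?_⟩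
  · intro f hf
    obtain ⟨ι, T, b, φ, h1⟩ := A9b_sum E f
    rw [h1]
    refine Ideal.sum_mem _ fun i _ => Ideal.mul_mem_left _ _ (Ideal.subset_span ⟨A9b_pst (φ i) f, ?_, rfl⟩)
    obtain ⟨M, hM⟩ := hf
    refine ⟨M, fun l => ?_⟩
    have h2 := A9b_mem (φ i) hI (hM l)
    have h3 : (X l : MvPolynomial (Fin n) L) ^ M * f = f * MvPolynomial.map (algebraMap E L) (X l ^ M) := by
      rw [map_pow, map_X, mul_comm]
    rw [h3, A9b_mul, map_mul, map_pow, map_X, mul_comm] at h2
    exact h2
  · rw [Ideal.span_le]
    rintro _ ⟨g₀, h, rfl⟩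
    exact h

/-- The forms of degree `k` in a rational ideal are combinations of rational ones. -/
theorem Rat_span {I : Ideal (MvPolynomial (Fin n) L)} (hI : Rat E I) (k : ℕ)
    {f : MvPolynomial (Fin n) L} (hf : f ∈ I) (hk : f.IsHomogeneous k) :
    f ∈ Submodule.span L {g : MvPolynomial (Fin n) L | g ∈ I ∧ g.IsHomogeneous k ∧
      ∃ g₀ : MvPolynomial (Fin n) E, g = MvPolynomial.map (algebraMap E L) g₀} := by
  obtain ⟨ι, T, b, φ, h1⟩ := A9b_sum E f
  have h2 : ∀ i, C (b i) * MvPolynomial.map (algebraMap E L) (A9b_pst (φ i) f) =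
      b i • MvPolynomial.map (algebraMap E L) (A9b_pst (φ i) f) := fun i => (smul_eq_C_mul _ _).symm
  rw [h1]
  refine Submodule.sum_mem _ fun i _ => ?_
  rw [h2 i]
  refine Submodule.smul_mem _ _ (Submodule.subset_span ⟨A9b_mem (φ i) hI hf, ?_, A9b_pst (φ i) f, rfl⟩)
  intro m hm
  apply hk
  intro h3
  apply hm
  rw [coeff_map, A9b_coeff, h3, map_zero, map_zero]

end

end Pool.Agent.Lib.MP_17a322_nt.VE
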