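import Pool.Agent.Lib.MP_17a322_nt.VE.A8
import Pool.Agent.Lib.MP_17a322_nt.VE.A9
import Pool.Agent.Lib.MP_17a322_nt.VE.A9b
import Pool.Agent.Lib.MP_17a322_nt.VE.A10
import Pool.Agent.Lib.MP_17a322_nt.VE.A11

/-!
Mean vanishing orders: rational bases adapted to the weighted powers of the ideals.
-/

universe u

namespace Pool.Agent.Lib.MP_17a322_nt.VE

open MvPolynomial Height
open Pool.Agent.Lib.MP_17a322_nt.VA
open Pool.Agent.Lib.MP_17a322_nt.SL
open Pool.Agent.Lib.MP_17a322_nt.EF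

section

variable {L : Type*} [Field L] {n : ℕ}

/-- The forms of degree `k` in `a`. -/
private noncomputable def A12_W (k : ℕ) (a : Ideal (MvPolynomial (Fin n) L)) :
    Submodule L (homogeneousSubmodule (Fin n) L k) :=
  (a.restrictScalars L).comap (homogeneousSubmodule (Fin n) L k).subtype

private theorem A12_fin (k : ℕ) : Module.Finite L (homogeneousSubmodule (Fin n) L k) :=
  Module.Finite.iff_fg.2 (homogeneousSubmodule_fg (Fin n) L k)

private noncomputable def A12_q (I : Ideal (MvPolynomial (Fin n) L)) (k : ℕ) :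
    homogeneousSubmodule (Fin n) L k →ₗ[L] (MvPolynomial (Fin n) L ⧸ I) :=
  (Ideal.Quotient.mkₐ L I).toLinearMap ∘ₗ (homogeneousSubmodule (Fin n) L k).subtype

private theorem A12_ker (I : Ideal (MvPolynomial (Fin n) L)) (k : ℕ) :
    LinearMap.ker (A12_q I k) = A12_W k I := by
  ext x
  exact Ideal.Quotient.eq_zero_iff_mem

private theorem A12_inj (I : Ideal (MvPolynomial (Fin n) L)) (k : ℕ)
    (h0 : A12_W k I ≤ LinearMap.ker (A12_q I k)) :
    Function.Injective ((A12_W k I).liftQ (A12_q I k) h0) := by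
  rw [← LinearMap.ker_eq_bot, Submodule.ker_liftQ_eq_bot]
  exact (A12_ker I k).le

private theorem A12_dm (I a : Ideal (MvPolynomial (Fin n) L)) (k : ℕ) :
    Module.finrank L ((A12_W k a).map (A12_W k I).mkQ) = dm I a k := by
  have h0 : A12_W k I ≤ LinearMap.ker (A12_q I k) := (A12_ker I k).ge
  have h1 := LinearEquiv.finrank_eq (Submodule.equivMapOfInjective _ (A12_inj I k h0)
    ((A12_W k a).map (A12_W k I).mkQ))
  have h2 : ((A12_W k a).map (A12_W k I).mkQ).map ((A12_W k I).liftQ (A12_q I k) h0) =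
      (homogeneousSubmodule (Fin n) L k ⊓ a.restrictScalars L).map
        (Ideal.Quotient.mkₐ L I).toLinearMap := by
    rw [← Submodule.map_comp, Submodule.liftQ_mkQ]
    ext y
    constructor
    · rintro ⟨x, hx, rfl⟩
      exact ⟨x, ⟨x.2, hx⟩, rfl⟩
    · rintro ⟨x, ⟨hx1, hx2⟩, rfl⟩
      exact ⟨⟨x, hx1⟩, hx2, rfl⟩
  rw [h1, h2]
  rfl

private theorem A12_rk (I : Ideal (MvPolynomial (Fin n) L)) (k : ℕ) :
    rk I k = Module.finrank L (homogeneousSubmodule (Fin n) L k ⧸ A12_W k I) := by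
  have h0 : A12_W k I ≤ LinearMap.ker (A12_q I k) := (A12_ker I k).ge
  have h2 : LinearMap.range ((A12_W k I).liftQ (A12_q I k) h0) =
      (homogeneousSubmodule (Fin n) L k).map (Ideal.Quotient.mkₐ L I).toLinearMap := by
    rw [Submodule.range_liftQ]
    unfold A12_q
    rw [LinearMap.range_comp, Submodule.range_subtype]
  rw [← LinearMap.finrank_range_of_inj (A12_inj I k h0), h2]
  rfl

private theorem A12_span {E : Type*} [Field E] [Algebra E L]
    {a : Ideal (MvPolynomial (Fin n) L)} (ha : Rat E a) (k : ℕ) :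
    A12_W k a ≤ Submodule.span L ({g : homogeneousSubmodule (Fin n) L k |
      ∃ g₀ : MvPolynomial (Fin n) E, (g : MvPolynomial (Fin n) L) =
        MvPolynomial.map (algebraMap E L) g₀} ∩ A12_W k a) := by
  intro g hg
  have h1 := Rat_span E ha k (f := (g : MvPolynomial (Fin n) L)) hg
    ((mem_homogeneousSubmodule k _).1 g.2)
  have h2 : ∀ y ∈ Submodule.span L {g : MvPolynomial (Fin n) L | g ∈ a ∧
      g.IsHomogeneous k ∧ ∃ g₀ : MvPolynomial (Fin n) E,
        g = MvPolynomial.map (algebraMap E L) g₀},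
      ∃ y' ∈ Submodule.span L ({g : homogeneousSubmodule (Fin n) L k |
        ∃ g₀ : MvPolynomial (Fin n) E, (g : MvPolynomial (Fin n) L) =
          MvPolynomial.map (algebraMap E L) g₀} ∩ A12_W k a),
        (y' : MvPolynomial (Fin n) L) = y := by
    intro y hy
    induction hy using Submodule.span_induction with
    | mem y hy =>
      obtain ⟨hy1, hy2, hy3⟩ := hy
      exact ⟨⟨y, (mem_homogeneousSubmodule k _).2 hy2⟩, Submodule.subset_span ⟨hy3, hy1⟩, rfl⟩
    | zero => exact ⟨0, Submodule.zero_mem _, rfl⟩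
    | add y y' _ _ h1 h2 =>
      obtain ⟨z1, hz1, rfl⟩ := h1
      obtain ⟨z2, hz2, rfl⟩ := h2
      exact ⟨z1 + z2, Submodule.add_mem _ hz1 hz2, rfl⟩
    | smul c y _ h1 =>
      obtain ⟨z1, hz1, rfl⟩ := h1
      exact ⟨c • z1, Submodule.smul_mem _ c hz1, rfl⟩
  obtain ⟨y', hy', he⟩ := h2 _ h1
  have h3 : y' = g := Subtype.ext he
  rw [← h3]
  exact hy'

private theorem A12_core (E : Type*) [Field E] [Algebra E L] (I : Ideal (MvPolynomial (Fin n) L))
    (a : ℕ → Ideal (MvPolynomial (Fin n) L)) (ha : Antitone a) (ha0 : a 0 = ⊤)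
    (hIa : ∀ z, I ≤ a z) (hrat : ∀ z, Rat E (a z)) (k Z : ℕ) {r : ℕ} (hr : r = rk I k) :
    ∃ (v : Fin r → MvPolynomial (Fin n) L) (x : Fin r → ℕ), (∀ i, (v i).IsHomogeneous k) ∧
      (∀ i, ∃ g₀ : MvPolynomial (Fin n) E, v i = MvPolynomial.map (algebraMap E L) g₀) ∧
      (∀ i, v i ∈ a (x i)) ∧ (∀ b : Fin r → L, ∑ i, C (b i) * v i ∈ I → b = 0) ∧
      ∑ z ∈ Finset.range Z, dm I (a (z + 1)) k ≤ ∑ i, x i := by
  have hfin := A12_fin (L := L) (n := n) k
  obtain ⟨v, x, hv, hvW, hind, hsum⟩ := chain (A12_W k I) (fun z => A12_W k (a z))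
    (fun y z hyz => Submodule.comap_mono (fun g hg => ha hyz hg))
    (by
      rw [eq_top_iff]
      rintro g -
      change (g : MvPolynomial (Fin n) L) ∈ a 0
      rw [ha0]
      trivial) Z (fun z _ => Submodule.comap_mono (fun g hg => hIa z hg))
    {g | ∃ g₀ : MvPolynomial (Fin n) E,
      (g : MvPolynomial (Fin n) L) = MvPolynomial.map (algebraMap E L) g₀}
    (fun z _ => A12_span (hrat z) k) (hr.trans (A12_rk I k))
  refine ⟨fun i => v i, x, fun i => (mem_homogeneousSubmodule k _).1 (v i).2, hv, hvW,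
    fun b hb => hind b ?_, ?_⟩
  · change ((∑ i, b i • v i : homogeneousSubmodule (Fin n) L k) : MvPolynomial (Fin n) L) ∈ I
    have h2 : ((∑ i, b i • v i : homogeneousSubmodule (Fin n) L k) : MvPolynomial (Fin n) L) =
        ∑ i, C (b i) * (v i : MvPolynomial (Fin n) L) := by
      rw [Submodule.coe_sum]
      refine Finset.sum_congr rfl fun i _ => ?_
      rw [Submodule.coe_smul, MvPolynomial.smul_eq_C_mul]
    rw [h2]
    exact hb
  · refine le_trans (le_of_eq (Finset.sum_congr rfl fun z _ => ?_)) hsum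
    exact (A12_dm I (a (z + 1)) k).symm

end

section

variable {K : Type u} [Field K] {N : ℕ} (A : AV K N) {n m s w : ℕ}

private theorem A12_core2 {L : Type u} [Field L] [Algebra K L] (P : A.Pts L)
    (I : Ideal (MvPolynomial (Fin n) L))
    (a : ℕ → Ideal (MvPolynomial (Fin n) L)) (ha : Antitone a) (ha0 : a 0 = ⊤)
    (hIa : ∀ z, I ≤ a z) (hrat : ∀ z, Rat (KP A P) (a z)) (k Z : ℕ) {r : ℕ} (hr : r = rk I k) :
    ∃ (v : Fin r → MvPolynomial (Fin n) L) (x : Fin r → ℕ), (∀ i, (v i).IsHomogeneous k) ∧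
      (∀ i, ∃ g₀ : MvPolynomial (Fin n) (KP A P),
        v i = MvPolynomial.map (algebraMap (KP A P) L) g₀) ∧
      (∀ i, v i ∈ a (x i)) ∧ (∀ b : Fin r → L, ∑ i, C (b i) * v i ∈ I → b = 0) ∧
      ∑ z ∈ Finset.range Z, dm I (a (z + 1)) k ≤ ∑ i, x i :=
  A12_core (KP A P) I a ha ha0 hIa hrat k Z hr

theorem data (H : Fin m → MvPolynomial (Fin n) (MvPolynomial (Fin (N + 1)) K))
    (hH : ∀ i, ∃ a b : ℕ, BH a b (H i))
    (f : Fin s → Fin w → MvPolynomial (Fin n) (MvPolynomial (Fin (N + 1)) K))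
    (hf : ∀ j l, ∃ a b : ℕ, BH a b (f j l)) {L : Type u} [Field L] [Algebra K L] (P : A.Pts L)
    (hI : (fib A H P).IsPrime) (hX : ∃ l, (X l : MvPolynomial (Fin n) L) ∉ fib A H P)
    {U : Finset (Fin s)} (h : Reg (fib A H P) (fun j => fib A (f j) P) U)
    (l : List (Fin s × ℕ)) (hl : (l.map Prod.fst).Nodup) (hw : ∀ p ∈ l, 0 < p.2)
    (hU : ∀ p ∈ l, p.1 ∈ U) (k M : ℕ) {r : ℕ} (hr : r = rk (fib A H P) k) :
    ∃ (δ : ℕ) (Φ : Fin r → MvPolynomial (Fin n) (MvPolynomial (Fin (N + 1)) K))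
      (x : Fin r → ℕ), (∀ i, BH δ k (Φ i)) ∧
      (∀ a : Fin r → L, ∑ i, C (a i) * sp A P (Φ i) ∈ fib A H P → a = 0) ∧
      (∀ i, sp A P (Φ i) ∈
        sat (fib A H P ⊔ wI (l.map fun p => (fib A (f p.1) P, p.2)) (x i))) ∧
      (l.map fun p => p.2 * ∑ m ∈ Finset.range M,
        dm (fib A H P) (sat (fib A H P ⊔ fib A (f p.1) P ^ (m + 1))) k).sum ≤ ∑ i, x i := by
  have htop : sat (⊤ : Ideal (MvPolynomial (Fin n) L)) = ⊤ := top_le_iff.1 (le_sat ⊤)
  have hrat : ∀ z, Rat (KP A P)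
      (sat (fib A H P ⊔ wI (l.map fun p => (fib A (f p.1) P, p.2)) z)) := by
    intro z
    refine Rat_sat _ (Rat_sup _ (Rat_fib A H hH P) (Rat_wI _ ?_ z))
    intro p hp
    obtain ⟨q, hq, rfl⟩ := List.mem_map.1 hp
    exact Rat_fib A (f q.1) (hf q.1) P
  obtain ⟨a, ha⟩ : ∃ a : ℕ → Ideal (MvPolynomial (Fin n) L), ∀ z, a z =
      sat (fib A H P ⊔ wI (l.map fun p => (fib A (f p.1) P, p.2)) z) := ⟨_, fun _ => rfl⟩
  obtain ⟨v, x, hvh, hv, hvW, hind, hsum⟩ := A12_core2 A P (fib A H P) a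
    (fun y z hyz => by
      rw [ha, ha]
      exact sat_mono (sup_le_sup_left (wI_anti _ hyz) _))
    (by rw [ha, wI_zero, sup_top_eq, htop])
    (fun z => by
      rw [ha]
      exact le_sup_left.trans (le_sat _))
    (fun z => by
      rw [ha]
      exact hrat z) k (l.map fun p => p.2 * M).sum hr
  simp only [ha] at hvW hsum
  obtain ⟨δ, Φ, c, hΦ, hc, hsp⟩ := descent A P v hvh hv
  refine ⟨δ, Φ, x, hΦ, fun b hb => ?_, fun i => ?_,
    (dims hI hX h l hl hw hU k M _ le_rfl).trans hsum⟩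
  · have h1 : ∑ i, C (b i * c i) * v i = ∑ i, C (b i) * sp A P (Φ i) := by
      refine Finset.sum_congr rfl fun i _ => ?_
      rw [hsp i, ← mul_assoc, ← C_mul]
    have h2 := hind (fun i => b i * c i) (by rw [h1]; exact hb)
    funext i
    have h3 := congrFun h2 i
    exact (mul_eq_zero.1 h3).resolve_right (hc i)
  · rw [hsp i]
    exact Ideal.mul_mem_left _ _ (hvW i)

end

end Pool.Agent.Lib.MP_17a322_nt.VE
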