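import Pool.Agent.Lib.MP_17a322_nt.VE.A1

/-!
Block A2: elements of a regular family are not zero divisors modulo weighted monomial ideals of others.
-/

namespace Pool.Agent.Lib.MP_17a322_nt.VE

private theorem A2_ins {R : Type*} [CommRing R] {ι : Type*} [DecidableEq ι] (φ : ι → R) (Z : Finset ι) (j : ι) :
    Ideal.span (φ '' ((insert j Z : Finset ι) : Set ι)) = Ideal.span {φ j} ⊔ Ideal.span (φ '' Z) := by
  rw [Finset.coe_insert, Set.image_insert_eq, Ideal.span_insert]

private theorem A2_step {R : Type*} [CommRing R] (y z : R) (A B C : Ideal R) (hAB : A ≤ B)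
    (hz : ∀ g, z * g ∈ A ⊔ (Ideal.span {y} ⊔ C) → g ∈ A ⊔ (Ideal.span {y} ⊔ C))
    (hy : ∀ g, y * g ∈ A ⊔ C → g ∈ A ⊔ C)
    (hB : ∀ g, z * g ∈ B ⊔ C → g ∈ B ⊔ C) (g : R) (hg : z * g ∈ (A ⊔ Ideal.span {y} * B) ⊔ C) :
    g ∈ (A ⊔ Ideal.span {y} * B) ⊔ C := by
  obtain ⟨u, hu, c, hc, huc⟩ := Submodule.mem_sup.1 hg
  obtain ⟨b', hb', w, hw, hbw⟩ := Submodule.mem_sup.1 hu
  obtain ⟨b, hb, rfl⟩ := Ideal.mem_span_singleton_mul.1 hw
  -- the product is in the ideal generated by the first ideal, the element and the third ideal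
  have h1 : z * g ∈ A ⊔ (Ideal.span {y} ⊔ C) := by
    rw [← huc, ← hbw, add_assoc]
    refine Submodule.add_mem_sup hb' (Submodule.add_mem_sup ?_ hc)
    exact Ideal.mul_mem_right _ _ (Ideal.mem_span_singleton_self y)
  obtain ⟨a', ha', t, ht, hat⟩ := Submodule.mem_sup.1 (hz g h1)
  obtain ⟨e, he, c', hc', hec⟩ := Submodule.mem_sup.1 ht
  obtain ⟨g', rfl⟩ := Ideal.mem_span_singleton'.1 he
  -- now `g = a' + g' * y + c'`
  have hgeq : g = a' + (g' * y + c') := by rw [hec, hat]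
  have h2 : y * (z * g' - b) ∈ A ⊔ C := by
    have h3 : y * (z * g' - b) = (b' - z * a') + (c - z * c') := by
      have h4 : b' + y * b + c = z * (a' + (g' * y + c')) := by
        rw [← hgeq, hbw, huc]
      linear_combination -h4
    rw [h3]
    exact Submodule.add_mem_sup (A.sub_mem hb' (A.mul_mem_left _ ha')) (C.sub_mem hc (C.mul_mem_left _ hc'))
  have h3 : z * g' ∈ B ⊔ C := by
    have h4 : z * g' = (z * g' - b) + b := by ring
    rw [h4]
    exact Ideal.add_mem _ (sup_le_sup_right hAB C (hy _ h2)) (Ideal.mem_sup_left hb)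
  obtain ⟨b2, hb2, c2, hc2, hbc2⟩ := Submodule.mem_sup.1 (hB _ h3)
  have h5 : g = (a' + y * b2) + (y * c2 + c') := by
    rw [hgeq, ← hbc2]
    ring
  rw [h5]
  refine Submodule.add_mem_sup (Submodule.add_mem_sup ha' ?_) (C.add_mem (C.mul_mem_left _ hc2) hc')
  exact Ideal.mem_span_singleton_mul.2 ⟨b2, hb2, rfl⟩

theorem A2_N {R : Type*} [CommRing R] {ι : Type*} {φ : ι → R} (h : SR φ) (l : List (ι × ℕ))
    (hl : (l.map Prod.fst).Nodup) (hw : ∀ p ∈ l, 0 < p.2) (Z : Finset ι)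
    (hZ : ∀ p ∈ l, p.1 ∉ Z) (i : ι) (hi : i ∉ Z) (hil : ∀ p ∈ l, p.1 ≠ i) (x : ℕ) (g : R)
    (hg : φ i * g ∈ wI (l.map fun p => (Ideal.span {φ p.1}, p.2)) x ⊔ Ideal.span (φ '' Z)) :
    g ∈ wI (l.map fun p => (Ideal.span {φ p.1}, p.2)) x ⊔ Ideal.span (φ '' Z) := by
  classical
  induction l generalizing Z i x g with
  | nil =>
    have h0 : wI (([] : List (ι × ℕ)).map fun p => ((Ideal.span {φ p.1} : Ideal R), p.2)) x = if x = 0 then (⊤ : Ideal R) else ⊥ := rfl
    rw [h0] at hg ⊢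
    split_ifs at hg ⊢ with hx
    · rw [top_sup_eq]
      exact Submodule.mem_top
    · rw [bot_sup_eq] at hg ⊢
      exact h Z i hi g hg
  | cons p l ih =>
    obtain ⟨j, w⟩ := p
    rw [List.map_cons, List.nodup_cons] at hl
    have hjl : ∀ p ∈ l, p.1 ≠ j := fun p hp hpj => hl.1 (List.mem_map.2 ⟨p, hp, hpj⟩)
    have hjZ : j ∉ Z := hZ (j, w) List.mem_cons_self
    have hji : j ≠ i := hil (j, w) List.mem_cons_self
    have hw0 : 0 < w := hw (j, w) List.mem_cons_self
    have hw' : ∀ p ∈ l, 0 < p.2 := fun p hp => hw p (List.mem_cons_of_mem _ hp)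
    have hZ' : ∀ p ∈ l, p.1 ∉ Z := fun p hp => hZ p (List.mem_cons_of_mem _ hp)
    have hil' : ∀ p ∈ l, p.1 ≠ i := fun p hp => hil p (List.mem_cons_of_mem _ hp)
    induction x using Nat.strong_induction_on generalizing g with
    | _ x ihx =>
      rcases Nat.eq_zero_or_pos x with hx | hx
      · rw [hx, wI_zero, top_sup_eq]
        exact Submodule.mem_top
      rw [List.map_cons, wI_cons] at hg ⊢
      refine A2_step (φ j) (φ i) _ _ _ ?_ ?_ ?_ ?_ g hg
      · exact (wI_le_cons _ _ _).trans (wI_anti _ (Nat.sub_le _ _))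
      · intro g' hg'
        rw [← A2_ins] at hg' ⊢
        refine ih hl.2 hw' (insert j Z) ?_ i ?_ hil' x g' hg'
        · intro p hp
          rw [Finset.mem_insert]
          rintro (h1 | h1)
          · exact hjl p hp h1
          · exact hZ' p hp h1
        · rw [Finset.mem_insert]
          rintro (h1 | h1)
          · exact hji h1.symm
          · exact hi h1
      · intro g' hg'
        exact ih hl.2 hw' Z hZ' j hjZ hjl x g' hg'
      · intro g' hg'
        exact ihx (x - w) (by omega) g' hg'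

end Pool.Agent.Lib.MP_17a322_nt.VE
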