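import Pool.Agent.Lib.MP_17a322_nt.VE.A2

/-!
Mean vanishing orders: the intersection of weighted monomial ideals of disjoint blocks is the product.
-/

universe u

namespace Pool.Agent.Lib.MP_17a322_nt.VE

section

variable {R : Type*} [CommRing R]

private theorem A2b_le {ι : Type*} {φ : ι → R} (h : SR φ) (l : List (ι × ℕ))
    (hl : (l.map Prod.fst).Nodup) (hw : ∀ p ∈ l, 0 < p.2) (x : ℕ) (l' : List ι) :
    ∀ (_ : l'.Nodup) (_ : ∀ p ∈ l, p.1 ∉ l') (Z : Finset ι) (_ : ∀ p ∈ l, p.1 ∉ Z)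
      (_ : ∀ i ∈ l', i ∉ Z) (m : ℕ) (g : R)
      (_ : g ∈ wI (l.map fun p => (Ideal.span {φ p.1}, p.2)) x ⊔ Ideal.span (φ '' Z))
      (_ : g ∈ wI (l'.map fun i => (Ideal.span {φ i}, 1)) m ⊔ Ideal.span (φ '' Z)),
      g ∈ wI (l.map fun p => (Ideal.span {φ p.1}, p.2)) x *
        wI (l'.map fun i => (Ideal.span {φ i}, 1)) m ⊔ Ideal.span (φ '' Z) := by
  classical
  set A : Ideal R := wI (l.map fun p => (Ideal.span {φ p.1}, p.2)) x with hA
  induction l' with
  | nil =>
    intro _ _ Z _ _ m g hg hg'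
    rcases Nat.eq_zero_or_pos m with hm | hm
    · subst hm
      rw [List.map_nil, wI_zero, Ideal.mul_top]
      exact hg
    · have h0 : wI ([] : List (Ideal R × ℕ)) m = ⊥ := if_neg hm.ne'
      rw [List.map_nil, h0] at hg'
      rw [List.map_nil, h0, Ideal.mul_bot]
      exact hg'
  | cons j l' ih =>
    intro hn hd Z hZ hZ' m
    rw [List.nodup_cons] at hn
    have hjZ : j ∉ Z := hZ' j List.mem_cons_self
    have hlj : ∀ p ∈ l, p.1 ≠ j := fun p hp e => hd p hp (e ▸ List.mem_cons_self)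
    have hdl : ∀ p ∈ l, p.1 ∉ l' := fun p hp e => hd p hp (List.mem_cons_of_mem _ e)
    have hsp : Ideal.span (φ '' ((insert j Z : Finset ι) : Set ι)) =
        Ideal.span {φ j} ⊔ Ideal.span (φ '' Z) := by
      rw [Finset.coe_insert, Set.image_insert_eq, Ideal.span_insert]
    have hmm : ((l'.map fun i => (i, 1)).map fun p : ι × ℕ => (Ideal.span {φ p.1}, p.2)) =
        l'.map fun i => (Ideal.span {φ i}, 1) := by
      rw [List.map_map]
      rfl
    rw [List.map_cons]
    set L' : List (Ideal R × ℕ) := l'.map fun i => (Ideal.span {φ i}, 1) with hL'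
    induction m with
    | zero =>
      intro g hg _
      rw [wI_zero, Ideal.mul_top]
      exact hg
    | succ m ihm =>
      intro g hg hg'
      have hb : wI ((Ideal.span {φ j}, 1) :: L') (m + 1) =
          wI L' (m + 1) ⊔ Ideal.span {φ j} * wI ((Ideal.span {φ j}, 1) :: L') m := by
        rw [wI_cons]
        rfl
      have hle1 : wI L' (m + 1) ≤ wI ((Ideal.span {φ j}, 1) :: L') (m + 1) := wI_le_cons _ _ _
      have hle2 : wI ((Ideal.span {φ j}, 1) :: L') (m + 1) ≤ wI ((Ideal.span {φ j}, 1) :: L') m :=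
        wI_anti _ (Nat.le_succ m)
      have h1 := ih hn.2 hdl (insert j Z)
        (fun p hp => by
          rw [Finset.mem_insert, not_or]
          exact ⟨hlj p hp, hZ p hp⟩)
        (fun i hi => by
          rw [Finset.mem_insert, not_or]
          exact ⟨fun e => hn.1 (e ▸ hi), hZ' i (List.mem_cons_of_mem _ hi)⟩) (m + 1) g
        (by
          rw [hsp]
          exact sup_le_sup_left le_sup_right A hg)
        (by
          rw [hsp]
          have h2 : wI ((Ideal.span {φ j}, 1) :: L') (m + 1) ⊔ Ideal.span (φ '' Z) ≤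
              wI L' (m + 1) ⊔ (Ideal.span {φ j} ⊔ Ideal.span (φ '' Z)) := by
            refine sup_le ?_ (le_sup_right.trans le_sup_right)
            rw [hb]
            exact sup_le le_sup_left (Ideal.mul_le_left.trans (le_sup_left.trans le_sup_right))
          exact h2 hg')
      rw [hsp] at h1
      obtain ⟨e, he, y, hy, rfl⟩ := Submodule.mem_sup.1 h1
      obtain ⟨t, ht, c, hc, rfl⟩ := Submodule.mem_sup.1 hy
      obtain ⟨g1, rfl⟩ := Ideal.mem_span_singleton'.1 ht
      have hcm : ∀ I : Ideal R, c ∈ I ⊔ Ideal.span (φ '' Z) := fun I => Ideal.mem_sup_right hc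
      -- `φ j * g1` lies in both ideals
      have h2 : φ j * g1 ∈ A ⊔ Ideal.span (φ '' Z) := by
        have h3 : φ j * g1 = (e + (g1 * φ j + c)) - e - c := by ring
        rw [h3]
        exact Ideal.sub_mem _ (Ideal.sub_mem _ hg (Ideal.mem_sup_left (Ideal.mul_le_left he)))
          (hcm A)
      have h4 : g1 ∈ A ⊔ Ideal.span (φ '' Z) := A2_N h l hl hw Z hZ j hjZ hlj x g1 h2
      have h5 : φ j * g1 ∈ wI ((Ideal.span {φ j}, 1) :: L') (m + 1) ⊔ Ideal.span (φ '' Z) := by
        have h3 : φ j * g1 = (e + (g1 * φ j + c)) - e - c := by ring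
        rw [h3]
        exact Ideal.sub_mem _ (Ideal.sub_mem _ hg'
          (Ideal.mem_sup_left (hle1 (Ideal.mul_le_right he)))) (hcm _)
      obtain ⟨y, hy, c', hc', hyc⟩ := Submodule.mem_sup.1 h5
      rw [hb] at hy
      obtain ⟨b', hb', z, hz, rfl⟩ := Submodule.mem_sup.1 hy
      obtain ⟨β, hβ, rfl⟩ := Ideal.mem_span_singleton_mul.1 hz
      have h6 : φ j * (g1 - β) ∈ wI L' (m + 1) ⊔ Ideal.span (φ '' Z) := by
        have h3 : φ j * (g1 - β) = b' + c' := by
          rw [mul_sub, ← hyc]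
          ring
        rw [h3]
        exact Submodule.add_mem_sup hb' hc'
      have h7 : g1 - β ∈ wI L' (m + 1) ⊔ Ideal.span (φ '' Z) := by
        rw [← hmm] at h6 ⊢
        refine A2_N h (l'.map fun i => (i, 1)) ?_ ?_ Z ?_ j hjZ ?_ (m + 1) _ h6
        · rw [List.map_map]
          exact (List.map_id l').symm ▸ hn.2
        · intro p hp
          obtain ⟨i, _, rfl⟩ := List.mem_map.1 hp
          exact Nat.one_pos
        · intro p hp
          obtain ⟨i, hi, rfl⟩ := List.mem_map.1 hp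
          exact hZ' i (List.mem_cons_of_mem _ hi)
        · intro p hp e
          obtain ⟨i, hi, rfl⟩ := List.mem_map.1 hp
          exact hn.1 (e ▸ hi)
      have h8 : g1 ∈ wI ((Ideal.span {φ j}, 1) :: L') m ⊔ Ideal.span (φ '' Z) := by
        have h9 := Ideal.add_mem _ (sup_le_sup_right (hle1.trans hle2) _ h7)
          (Ideal.mem_sup_left hβ)
        rwa [sub_add_cancel] at h9
      have h10 := ihm g1 h4 h8
      obtain ⟨u, hu, c2, hc2, hu2⟩ := Submodule.mem_sup.1 h10
      have h11 : e + (g1 * φ j + c) = (e + φ j * u) + (φ j * c2 + c) := by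
        rw [← hu2]
        ring
      rw [h11]
      refine Submodule.add_mem_sup (Ideal.add_mem _ (Ideal.mul_mono_right hle1 he) ?_)
        (Ideal.add_mem _ (Ideal.mul_mem_left _ _ hc2) hc)
      have h12 : φ j * u ∈ Ideal.span {φ j} * (A * wI ((Ideal.span {φ j}, 1) :: L') m) :=
        Ideal.mul_mem_mul (Ideal.mem_span_singleton_self _) hu
      rw [mul_left_comm] at h12
      refine Ideal.mul_mono_right ?_ h12
      rw [hb]
      exact le_sup_right

theorem A2_I {ι : Type*} {φ : ι → R} (h : SR φ) (l : List (ι × ℕ))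
    (hl : (l.map Prod.fst).Nodup) (hw : ∀ p ∈ l, 0 < p.2) (l' : List ι) (hl' : l'.Nodup)
    (hd : ∀ p ∈ l, p.1 ∉ l') (Z : Finset ι) (hZ : ∀ p ∈ l, p.1 ∉ Z) (hZ' : ∀ i ∈ l', i ∉ Z)
    (x m : ℕ) :
    (wI (l.map fun p => (Ideal.span {φ p.1}, p.2)) x ⊔ Ideal.span (φ '' Z)) ⊓
      (wI (l'.map fun i => (Ideal.span {φ i}, 1)) m ⊔ Ideal.span (φ '' Z)) ≤
      wI (l.map fun p => (Ideal.span {φ p.1}, p.2)) x *
        wI (l'.map fun i => (Ideal.span {φ i}, 1)) m ⊔ Ideal.span (φ '' Z) :=
  fun g hg => A2b_le h l hl hw x l' hl' hd Z hZ hZ' m g hg.1 hg.2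

end

end Pool.Agent.Lib.MP_17a322_nt.VE
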