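import Pool.Agent.Lib.MP_17a322_nt.VE.Defs

/-!
Mean vanishing orders: blocks of elements.
-/

universe u

namespace Pool.Agent.Lib.MP_17a322_nt.VE

section

variable {R : Type*} [CommRing R]

private theorem A3_single (J : Ideal R) (m : ℕ) : wI [(J, 1)] m = J ^ m := by
  refine le_antisymm (iSup_le fun i => ?_) ?_
  · change J ^ i * (if m - 1 * i = 0 then ⊤ else ⊥) ≤ _
    split
    · next h =>
      exact le_trans Ideal.mul_le_left (Ideal.pow_le_pow_right (show m ≤ i by omega))
    · rw [Ideal.mul_bot]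
      exact bot_le
  · refine le_trans ?_ (le_iSup (fun i => J ^ i * wI [] (m - 1 * i)) m)
    change _ ≤ J ^ m * (if m - 1 * m = 0 then ⊤ else ⊥)
    rw [if_pos (by omega), Ideal.mul_top]

private theorem A3_pow (J J' : Ideal R) (n : ℕ) (K M : Ideal R)
    (h : ∀ i j : ℕ, i + j = n → J ^ i * (J' ^ j * K) ≤ M) : (J ⊔ J') ^ n * K ≤ M := by
  induction n generalizing K with
  | zero =>
    have := h 0 0 rfl
    simpa using this
  | succ n ih =>
    rw [pow_succ, mul_assoc, Ideal.sup_mul, Ideal.mul_sup]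
    refine sup_le (ih _ fun i j hij => ?_) (ih _ fun i j hij => ?_)
    · have := h (i + 1) j (by omega)
      rw [pow_succ, mul_assoc] at this
      rwa [mul_left_comm (J' ^ j) J K]
    · have := h i (j + 1) (by omega)
      rwa [pow_succ, mul_assoc] at this

theorem wI_split (J J' : Ideal R) (w : ℕ) (l : List (Ideal R × ℕ)) (x : ℕ) :
    wI ((J ⊔ J', w) :: l) x = wI ((J, w) :: (J', w) :: l) x := by
  refine le_antisymm (iSup_le fun n => A3_pow J J' n _ _ fun i j hij => ?_) (iSup_le fun i => ?_)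
  · refine le_trans ?_ (le_iSup (fun i => J ^ i * wI ((J', w) :: l) (x - w * i)) i)
    refine Ideal.mul_mono_right (le_trans ?_
      (le_iSup (fun j => J' ^ j * wI l (x - w * i - w * j)) j))
    have : x - w * n = x - w * i - w * j := by
      rw [← hij, mul_add, Nat.sub_sub]
    change J' ^ j * wI l (x - w * n) ≤ _
    rw [this]
  · change J ^ i * (⨆ j : ℕ, J' ^ j * wI l (x - w * i - w * j)) ≤ _
    rw [Ideal.mul_iSup]
    refine iSup_le fun j => ?_
    refine le_trans ?_ (le_iSup (fun n => (J ⊔ J') ^ n * wI l (x - w * n)) (i + j))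
    have : x - w * (i + j) = x - w * i - w * j := by
      rw [mul_add, Nat.sub_sub]
    change _ ≤ (J ⊔ J') ^ (i + j) * wI l (x - w * (i + j))
    rw [this, ← mul_assoc, pow_add]
    exact Ideal.mul_mono_left (Ideal.mul_mono (Ideal.pow_right_mono le_sup_left i)
      (Ideal.pow_right_mono le_sup_right j))

private theorem A3_congr (p : Ideal R × ℕ) {l l' : List (Ideal R × ℕ)} (h : ∀ x, wI l x = wI l' x)
    (x : ℕ) : wI (p :: l) x = wI (p :: l') x := by
  change (⨆ i : ℕ, p.1 ^ i * wI l (x - p.2 * i)) = ⨆ i : ℕ, p.1 ^ i * wI l' (x - p.2 * i)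
  simp only [h]

private theorem A3_bot (w : ℕ) (l : List (Ideal R × ℕ)) (x : ℕ) : wI ((⊥, w) :: l) x = wI l x := by
  refine le_antisymm (iSup_le fun i => ?_) ?_
  · rcases Nat.eq_zero_or_pos i with h | h
    · subst h
      change (⊥ : Ideal R) ^ 0 * wI l (x - w * 0) ≤ _
      rw [pow_zero, one_mul, mul_zero, Nat.sub_zero]
    · change (⊥ : Ideal R) ^ i * wI l (x - w * i) ≤ _
      rw [Ideal.bot_pow h.ne', Ideal.bot_mul]
      exact bot_le
  · refine le_trans ?_ (le_iSup (fun i => (⊥ : Ideal R) ^ i * wI l (x - w * i)) 0)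
    change _ ≤ (⊥ : Ideal R) ^ 0 * wI l (x - w * 0)
    rw [pow_zero, one_mul, mul_zero, Nat.sub_zero]

private theorem A3_block (as : List R) (w : ℕ) (l : List (Ideal R × ℕ)) (x : ℕ) :
    wI ((Ideal.ofList as, w) :: l) x =
      wI ((as.map fun a => (Ideal.span {a}, w)) ++ l) x := by
  induction as generalizing x with
  | nil =>
    rw [Ideal.ofList_nil]
    exact A3_bot w l x
  | cons a as ih =>
    rw [Ideal.ofList_cons, wI_split]
    exact A3_congr _ ih x

theorem wI_blocks (bl : List (List R × ℕ)) (x : ℕ) :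
    wI (bl.map fun p => (Ideal.ofList p.1, p.2)) x =
      wI (bl.flatMap fun p => p.1.map fun a => (Ideal.span {a}, p.2)) x := by
  induction bl generalizing x with
  | nil => rfl
  | cons p bl ih =>
    rw [List.map_cons, List.flatMap_cons, A3_congr _ ih]
    exact A3_block p.1 p.2 _ x

theorem wI_pow_list (b : List R) (m : ℕ) :
    Ideal.ofList b ^ m = wI (b.map fun a => (Ideal.span {a}, 1)) m := by
  rw [← A3_single, A3_block, List.append_nil]

end

end Pool.Agent.Lib.MP_17a322_nt.VE
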