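import Pool.Agent.Lib.MP_17a322_nt.VE.Defs

/-!
A regular sequence in a noetherian local ring: every element is not a zero divisor modulo the others.
-/

universe u

namespace Pool.Agent.Lib.MP_17a322_nt.VE

theorem SR_of_regular {R : Type*} [CommRing R] [IsLocalRing R] [IsNoetherianRing R] (rs : List R)
    (h : RingTheory.Sequence.IsRegular R rs) : SR fun i : Fin rs.length => rs.get i := by
  classical
  intro W i hi x hx
  obtain ⟨l, hl⟩ : ∃ l : List (Fin rs.length), l = W.toList ++ i :: (Finset.univ \ insert i W).toList := ⟨_, rfl⟩
  have hperm : l.Perm (List.finRange rs.length) := by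
    rw [List.perm_ext_iff_of_nodup _ (List.nodup_finRange _)]
    · intro a
      rw [hl]
      simp only [List.mem_append, Finset.mem_toList, List.mem_cons, Finset.mem_sdiff, Finset.mem_univ, Finset.mem_insert,
        true_and, List.mem_finRange, iff_true]
      tauto
    · rw [hl, List.nodup_append]
      refine ⟨Finset.nodup_toList _, ?_, ?_⟩
      · rw [List.nodup_cons]
        exact ⟨by simp, Finset.nodup_toList _⟩
      · intro a ha b hb
        rw [Finset.mem_toList] at ha
        rw [List.mem_cons, Finset.mem_toList, Finset.mem_sdiff, Finset.mem_insert] at hb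
        rintro rfl
        rcases hb with rfl | hb
        · exact hi ha
        · exact hb.2 (Or.inr ha)
  have h2 : (l.map rs.get).Perm rs := by
    have h3 := hperm.map rs.get
    rwa [List.map_get_finRange] at h3
  have h3 := (IsLocalRing.isRegular_of_perm h h2.symm).toIsWeaklyRegular
  rw [hl, List.map_append, List.map_cons, RingTheory.Sequence.isWeaklyRegular_append_iff,
    RingTheory.Sequence.isWeaklyRegular_cons_iff] at h3
  have h4 := (isSMulRegular_quotient_iff_mem_of_smul_mem _ _).1 h3.2.1
  have h5 : (Ideal.ofList (W.toList.map rs.get) • (⊤ : Submodule R R)) =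
      Ideal.span ((fun i : Fin rs.length => rs.get i) '' (W : Set (Fin rs.length))) := by
    rw [smul_eq_mul, Ideal.mul_top, Ideal.ofList]
    congr 1
    ext y
    simp
  rw [h5] at h4
  exact h4 x hx

end Pool.Agent.Lib.MP_17a322_nt.VE
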