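import Pool.Agent.Lib.MP_17a322_nt.VE.A2b
import Pool.Agent.Lib.MP_17a322_nt.VE.A3
import Pool.Agent.Lib.MP_17a322_nt.VE.A4a

/-!
Mean vanishing orders: the local statement.
-/

namespace Pool.Agent.Lib.MP_17a322_nt.VE

variable {R : Type*} [CommRing R]

private theorem A4_ofFn_map {α β : Type*} (L : List α) (f : α → β) :
    List.ofFn (fun i : Fin L.length => f (L.get i)) = L.map f := by
  have h := List.map_ofFn (f := L.get) (g := f)
  rw [List.ofFn_get] at h
  exact h.symm

theorem keyLoc [IsLocalRing R] [IsNoetherianRing R] (bl : List (List R × ℕ))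
    (hw : ∀ p ∈ bl, 0 < p.2) (b : List R)
    (h : RingTheory.Sequence.IsRegular R (b ++ bl.flatMap Prod.fst)) (x m : ℕ) :
    wI (bl.map fun p => (Ideal.ofList p.1, p.2)) x ⊓ Ideal.ofList b ^ m ≤
      wI (bl.map fun p => (Ideal.ofList p.1, p.2)) x * Ideal.ofList b ^ m := by
  rw [wI_blocks, wI_pow_list]
  set L : List (R × ℕ) := bl.flatMap fun p => p.1.map fun a => (a, p.2) with hL
  have hLw : ∀ q ∈ L, 0 < q.2 := by
    intro q hq
    rw [hL, List.mem_flatMap] at hq
    obtain ⟨p, hp, hq⟩ := hq
    rw [List.mem_map] at hq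
    obtain ⟨a, -, rfl⟩ := hq
    exact hw p hp
  have h1 : (bl.flatMap fun p => p.1.map fun a => (Ideal.span {a}, p.2)) =
      L.map fun q => (Ideal.span {q.1}, q.2) := by
    rw [hL, List.map_flatMap]
    congr 1
    funext p
    rw [List.map_map]
    rfl
  have h2 : bl.flatMap Prod.fst = L.map Prod.fst := by
    rw [hL, List.map_flatMap]
    congr 1
    funext p
    rw [List.map_map]
    exact (List.map_id' p.1).symm
  rw [h2] at h
  rw [h1]
  set rs : List R := b ++ L.map Prod.fst with hrs
  have hlen : rs.length = b.length + L.length := by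
    rw [hrs, List.length_append, List.length_map]
  have hSR := SR_of_regular rs h
  set φ : Fin rs.length → R := fun i => rs.get i with hφ
  set e' : Fin b.length → Fin rs.length := fun i => ⟨i, by omega⟩ with he'
  set e : Fin L.length → Fin rs.length := fun i => ⟨b.length + i, by omega⟩ with he
  have h3 : ∀ i, φ (e' i) = b.get i := by
    intro i
    rw [hφ, he']
    simp only [List.get_eq_getElem]
    exact List.getElem_append_left i.2
  have h4 : ∀ i, φ (e i) = (L.get i).1 := by
    intro i
    rw [hφ, he]
    simp only [List.get_eq_getElem]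
    have h5 : rs[b.length + (i : ℕ)]'(by omega) = (L.map Prod.fst)[(i : ℕ)]'(by
        rw [List.length_map]; exact i.2) := by
      rw [List.getElem_append_right (by omega)]
      congr 1
      omega
    rw [h5, List.getElem_map]
  set l : List (Fin rs.length × ℕ) := List.ofFn fun i => (e i, (L.get i).2) with hl
  set l' : List (Fin rs.length) := List.ofFn e' with hl'
  have h6 : (l.map fun p => ((Ideal.span {φ p.1} : Ideal R), p.2)) =
      L.map fun q => (Ideal.span {q.1}, q.2) := by
    rw [hl, List.map_ofFn, ← A4_ofFn_map]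
    congr 1
    funext i
    simp only [Function.comp_apply, h4]
  have h7 : (l'.map fun i => ((Ideal.span {φ i} : Ideal R), 1)) = b.map fun a => (Ideal.span {a}, 1) := by
    rw [hl', List.map_ofFn, ← A4_ofFn_map]
    congr 1
    funext i
    simp only [Function.comp_apply, h3]
  have h8 := A2_I hSR l (by
      have h9 : l.map Prod.fst = List.ofFn e := by
        rw [hl, List.map_ofFn]
        rfl
      rw [h9, List.nodup_ofFn]
      intro i j hij
      rw [he] at hij
      simp only [Fin.mk.injEq] at hij
      apply Fin.ext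
      omega) (by
      intro p hp
      rw [hl, List.mem_ofFn] at hp
      obtain ⟨i, rfl⟩ := hp
      exact hLw _ (List.get_mem L i)) l' (by
      rw [hl', List.nodup_ofFn]
      intro i j hij
      rw [he'] at hij
      simp only [Fin.mk.injEq] at hij
      exact Fin.ext hij) (by
      intro p hp hp'
      rw [hl, List.mem_ofFn] at hp
      rw [hl', List.mem_ofFn] at hp'
      obtain ⟨i, rfl⟩ := hp
      obtain ⟨j, hj⟩ := hp'
      rw [he, he'] at hj
      simp only [Fin.mk.injEq] at hj
      have := j.2
      omega) ∅ (fun p _ => Finset.notMem_empty _) (fun i _ => Finset.notMem_empty _) x m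
  have h9 : Ideal.span (φ '' ((∅ : Finset (Fin rs.length)) : Set (Fin rs.length))) = ⊥ := by
    simp
  rw [h9, sup_bot_eq, sup_bot_eq, sup_bot_eq] at h8
  have h10 : ∀ i, (fun i : Fin rs.length => rs.get i) i = φ i := fun i => rfl
  rw [h6, h7] at h8
  exact h8

end Pool.Agent.Lib.MP_17a322_nt.VE
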