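import Pool.Agent.Lib.MP_17a322_nt.VE.Defs

/-!
Saturations: `f` is in the saturation of an ideal if and only if it is locally in the ideal at every
closed point of the projective space.
-/

namespace Pool.Agent.Lib.MP_17a322_nt.VE

open MvPolynomial

section

variable {L : Type*} [Field L] {n s : ℕ}

theorem le_sat (I : Ideal (MvPolynomial (Fin n) L)) : I ≤ sat I :=
  fun _ hf => ⟨0, fun _ => I.mul_mem_left _ hf⟩

theorem sat_mono {I J : Ideal (MvPolynomial (Fin n) L)} (h : I ≤ J) : sat I ≤ sat J :=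
  fun _ hf => by
    obtain ⟨M, hM⟩ := hf
    exact ⟨M, fun l => h (hM l)⟩

theorem mem_sat_iff (I : Ideal (MvPolynomial (Fin n) L)) (f : MvPolynomial (Fin n) L) :
    f ∈ sat I ↔ ∀ 𝔪 : Ideal (MvPolynomial (Fin n) L), 𝔪.IsMaximal →
      (∃ l, (X l : MvPolynomial (Fin n) L) ∉ 𝔪) → ∃ g ∉ 𝔪, g * f ∈ I := by
  constructor
  · rintro ⟨M, hM⟩ 𝔪 h𝔪 ⟨l, hl⟩
    exact ⟨X l ^ M, fun h => hl (h𝔪.isPrime.mem_of_pow_mem M h), hM l⟩
  · intro h
    let A : Ideal (MvPolynomial (Fin n) L) :=
      { carrier := {g | g * f ∈ I}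
        zero_mem' := by
          show 0 * f ∈ I
          rw [zero_mul]
          exact I.zero_mem
        add_mem' := by
          intro a b ha hb
          show (a + b) * f ∈ I
          rw [add_mul]
          exact I.add_mem ha hb
        smul_mem' := by
          intro c a ha
          show (c * a) * f ∈ I
          rw [mul_assoc]
          exact I.mul_mem_left _ ha }
    have hA : ∀ g, g ∈ A ↔ g * f ∈ I := fun g => Iff.rfl
    have hrad : A.radical = A.jacobson := Ideal.radical_eq_jacobson A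
    have hX : ∀ l, (X l : MvPolynomial (Fin n) L) ∈ A.radical := by
      intro l
      rw [hrad, Ideal.jacobson, Ideal.mem_sInf]
      rintro 𝔪 ⟨h1, h2⟩
      by_contra hc
      obtain ⟨g, hg, hgf⟩ := h 𝔪 h2 ⟨l, hc⟩
      exact hg (h1 hgf)
    choose M hM using hX
    refine ⟨∑ l, M l, fun l => ?_⟩
    have h1 : M l ≤ ∑ l, M l := Finset.single_le_sum (fun _ _ => Nat.zero_le _) (Finset.mem_univ l)
    have h2 : X l ^ (∑ l, M l) * f = X l ^ (∑ l, M l - M l) * (X l ^ M l * f) := by
      rw [← mul_assoc, ← pow_add, Nat.sub_add_cancel h1]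
    rw [h2]
    exact I.mul_mem_left _ (hM l)

theorem sat_eq_prime {I : Ideal (MvPolynomial (Fin n) L)} (hI : I.IsPrime)
    (hX : ∃ l, (X l : MvPolynomial (Fin n) L) ∉ I) : sat I = I := by
  apply le_antisymm _ (le_sat I)
  rintro f ⟨M, hM⟩
  obtain ⟨l, hl⟩ := hX
  rcases hI.mem_or_mem (hM l) with h | h
  · exact absurd (hI.mem_of_pow_mem M h) hl
  · exact h

end

end Pool.Agent.Lib.MP_17a322_nt.VE
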