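import Pool.Agent.Lib.MP_17a322_nt.VE.A1
import Pool.Agent.Lib.MP_17a322_nt.VE.A4
import Pool.Agent.Lib.MP_17a322_nt.VE.A5

/-!
Mean vanishing orders: intersections of saturations.
-/

namespace Pool.Agent.Lib.MP_17a322_nt.VE

open MvPolynomial

variable {L : Type*} [Field L] {n s : ℕ}

/-- The map to the local ring. -/
private noncomputable def A6_map {I : Ideal (MvPolynomial (Fin n) L)}
    (𝔪 : Ideal (MvPolynomial (Fin n) L ⧸ I)) [𝔪.IsPrime] :
    MvPolynomial (Fin n) L →+* Localization.AtPrime 𝔪 :=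
  (algebraMap (MvPolynomial (Fin n) L ⧸ I) (Localization.AtPrime 𝔪)).comp (Ideal.Quotient.mk I)

private theorem A6_map_map {I : Ideal (MvPolynomial (Fin n) L)}
    (𝔪 : Ideal (MvPolynomial (Fin n) L ⧸ I)) [𝔪.IsPrime] (A : Ideal (MvPolynomial (Fin n) L)) :
    A.map (A6_map 𝔪) =
      (A.map (Ideal.Quotient.mk I)).map (algebraMap _ (Localization.AtPrime 𝔪)) := by
  unfold A6_map
  rw [Ideal.map_map]

/-- Membership in the image of an ideal in the local ring. -/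
private theorem A6_mem {I : Ideal (MvPolynomial (Fin n) L)} (𝔪 : Ideal (MvPolynomial (Fin n) L ⧸ I))
    [𝔪.IsPrime] (A : Ideal (MvPolynomial (Fin n) L)) (f : MvPolynomial (Fin n) L) :
    A6_map 𝔪 f ∈ A.map (A6_map 𝔪) ↔ ∃ g, Ideal.Quotient.mk I g ∉ 𝔪 ∧ g * f ∈ I ⊔ A := by
  have h0 : A6_map 𝔪 f = algebraMap _ (Localization.AtPrime 𝔪) (Ideal.Quotient.mk I f) := rfl
  rw [A6_map_map, h0, IsLocalization.algebraMap_mem_map_algebraMap_iff 𝔪.primeCompl]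
  constructor
  · rintro ⟨t, ht, h⟩
    obtain ⟨g, rfl⟩ := Ideal.Quotient.mk_surjective t
    refine ⟨g, ht, ?_⟩
    rw [← map_mul] at h
    have h1 : g * f ∈ (A.map (Ideal.Quotient.mk I)).comap (Ideal.Quotient.mk I) := h
    rw [Ideal.comap_map_of_surjective _ Ideal.Quotient.mk_surjective, ← RingHom.ker_eq_comap_bot,
      Ideal.mk_ker, sup_comm] at h1
    exact h1
  · rintro ⟨g, hg, h⟩
    refine ⟨Ideal.Quotient.mk I g, hg, ?_⟩
    rw [← map_mul]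
    have h1 : g * f ∈ (A.map (Ideal.Quotient.mk I)).comap (Ideal.Quotient.mk I) := by
      rw [Ideal.comap_map_of_surjective _ Ideal.Quotient.mk_surjective, ← RingHom.ker_eq_comap_bot,
        Ideal.mk_ker, sup_comm]
      exact h
    exact h1

/-- An ideal that is not contained in the prime ideal generates the local ring. -/
private theorem A6_top {I : Ideal (MvPolynomial (Fin n) L)} (𝔪 : Ideal (MvPolynomial (Fin n) L ⧸ I))
    [𝔪.IsPrime] {A : Ideal (MvPolynomial (Fin n) L ⧸ I)} (h : ¬A ≤ 𝔪) :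
    A.map (algebraMap _ (Localization.AtPrime 𝔪)) = ⊤ := by
  obtain ⟨a, ha, ha'⟩ := SetLike.not_le_iff_exists.1 h
  have h1 : IsUnit (algebraMap _ (Localization.AtPrime 𝔪) a) :=
    IsLocalization.map_units (Localization.AtPrime 𝔪) (⟨a, ha'⟩ : 𝔪.primeCompl)
  exact Ideal.eq_top_of_isUnit_mem _ (Ideal.mem_map_of_mem _ ha) h1

/-- The statement in a local ring. -/
private theorem A6_loc {S : Type*} {O : Type*} [CommRing S] [CommRing O] [IsLocalRing O]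
    [IsNoetherianRing O] (α : S →+* O) (J : Fin s → Ideal S) (φ : Fin s → List O) (c : Fin s → Prop)
    (U : Finset (Fin s)) (h1 : ∀ i, ¬c i → (J i).map α = ⊤)
    (h2 : ∀ i ∈ U, c i → (J i).map α = Ideal.ofList (φ i))
    (h3 : ∀ l : List (Fin s), l.Nodup → (∀ i ∈ l, i ∈ U ∧ c i) →
      RingTheory.Sequence.IsRegular O (l.flatMap φ))
    (l : List (Fin s × ℕ)) (hl : (l.map Prod.fst).Nodup) (hw : ∀ p ∈ l, 0 < p.2)
    (hU : ∀ p ∈ l, p.1 ∈ U) (j : Fin s) (hj : j ∈ U) (hjl : ∀ p ∈ l, p.1 ≠ j) (x m : ℕ) :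
    (wI (l.map fun p => (J p.1, p.2)) x).map α ⊓ (J j ^ m).map α ≤
      (wI (l.map fun p => (J p.1, p.2)) x * J j ^ m).map α := by
  rw [Ideal.map_mul, Ideal.map_pow, wI_map, List.map_map]
  have h0 : ((fun p : Ideal S × ℕ => (p.1.map α, p.2)) ∘ fun p : Fin s × ℕ => (J p.1, p.2)) =
      fun p => ((J p.1).map α, p.2) := rfl
  rw [h0]
  by_cases hlm : ∀ p ∈ l, c p.1
  swap
  · push Not at hlm
    obtain ⟨p, hp, hp'⟩ := hlm
    have h4 : wI (l.map fun p => ((J p.1).map α, p.2)) x = ⊤ :=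
      wI_top (p := ((J p.1).map α, p.2)) (List.mem_map.2 ⟨p, hp, rfl⟩) (hw p hp) (h1 _ hp') x
    rw [h4, Ideal.top_mul]
    exact inf_le_right
  by_cases hjm : c j
  swap
  · have h4 : (J j).map α ^ m = ⊤ := by
      rw [h1 _ hjm, ← Ideal.one_eq_top, one_pow]
    rw [h4, Ideal.mul_top]
    exact inf_le_left
  have hreg := h3 (j :: l.map Prod.fst) (by
    rw [List.nodup_cons]
    refine ⟨fun hm => ?_, hl⟩
    obtain ⟨p, hp, hp'⟩ := List.mem_map.1 hm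
    exact hjl p hp hp') (by
    intro i hi
    rcases List.mem_cons.1 hi with rfl | hi
    · exact ⟨hj, hjm⟩
    · obtain ⟨p, hp, rfl⟩ := List.mem_map.1 hi
      exact ⟨hU p hp, hlm p hp⟩)
  rw [List.flatMap_cons] at hreg
  set bl : List (List O × ℕ) := l.map fun p => (φ p.1, p.2) with hbl
  have h4 : (l.map Prod.fst).flatMap φ = bl.flatMap Prod.fst := by
    rw [hbl, List.flatMap_map, List.flatMap_map]
  rw [h4] at hreg
  have h5 := keyLoc bl (by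
    intro p hp
    obtain ⟨p', hp', rfl⟩ := List.mem_map.1 hp
    exact hw p' hp') (φ j) hreg x m
  have h6 : (bl.map fun p => (Ideal.ofList p.1, p.2)) = l.map fun p => ((J p.1).map α, p.2) := by
    rw [hbl, List.map_map]
    refine List.map_congr_left fun p hp => ?_
    simp only [Function.comp_apply]
    rw [h2 _ (hU p hp) (hlm p hp)]
  rw [h6, ← h2 _ hj hjm] at h5
  exact h5

/-- The statement in a local ring if at most one ideal is proper. -/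
private theorem A6_loc₁ {S : Type*} {O : Type*} [CommRing S] [CommRing O] (α : S →+* O)
    (J : Fin s → Ideal S) (c : Fin s → Prop)
    (U : Finset (Fin s)) (h1 : ∀ i, ¬c i → (J i).map α = ⊤)
    (h2 : ∀ i ∈ U, ∀ j ∈ U, c i → c j → i = j)
    (l : List (Fin s × ℕ)) (hw : ∀ p ∈ l, 0 < p.2)
    (hU : ∀ p ∈ l, p.1 ∈ U) (j : Fin s) (hj : j ∈ U) (hjl : ∀ p ∈ l, p.1 ≠ j) (x m : ℕ) :
    (wI (l.map fun p => (J p.1, p.2)) x).map α ⊓ (J j ^ m).map α ≤
      (wI (l.map fun p => (J p.1, p.2)) x * J j ^ m).map α := by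
  rw [Ideal.map_mul, Ideal.map_pow, wI_map, List.map_map]
  have h0 : ((fun p : Ideal S × ℕ => (p.1.map α, p.2)) ∘ fun p : Fin s × ℕ => (J p.1, p.2)) =
      fun p => ((J p.1).map α, p.2) := rfl
  rw [h0]
  by_cases hjm : c j
  swap
  · have h4 : (J j).map α ^ m = ⊤ := by
      rw [h1 _ hjm, ← Ideal.one_eq_top, one_pow]
    rw [h4, Ideal.mul_top]
    exact inf_le_left
  rcases l with _ | ⟨p, l⟩
  · rw [List.map_nil]
    unfold wI
    split_ifs with hx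
    · rw [Ideal.top_mul]
      exact inf_le_right
    · rw [Ideal.bot_mul]
      exact inf_le_left
  · have hp := hU p List.mem_cons_self
    have h4 : wI ((p :: l).map fun p => ((J p.1).map α, p.2)) x = ⊤ :=
      wI_top (p := ((J p.1).map α, p.2)) (List.mem_map.2 ⟨p, List.mem_cons_self, rfl⟩)
        (hw p List.mem_cons_self) (h1 _ fun hc =>
          hjl p List.mem_cons_self (h2 _ hp _ hj hc hjm)) x
    rw [h4, Ideal.top_mul]
    exact inf_le_right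

/-- The statement at a point. -/
private theorem A6_point {I : Ideal (MvPolynomial (Fin n) L)}
    {J : Fin s → Ideal (MvPolynomial (Fin n) L)} {U : Finset (Fin s)}
    (𝔫 : Ideal (MvPolynomial (Fin n) L ⧸ I)) [𝔫.IsPrime]
    (hφ : (∀ i ∈ U, ∀ j ∈ U, (J i).map (Ideal.Quotient.mk I) ≤ 𝔫 →
        (J j).map (Ideal.Quotient.mk I) ≤ 𝔫 → i = j) ∨
      ∃ φ : Fin s → List (Localization.AtPrime 𝔫),
      (∀ j ∈ U, (J j).map (Ideal.Quotient.mk I) ≤ 𝔫 →
        ((J j).map (Ideal.Quotient.mk I)).map (algebraMap _ (Localization.AtPrime 𝔫)) =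
          Ideal.ofList (φ j)) ∧
      ∀ l : List (Fin s), l.Nodup →
        (∀ j ∈ l, j ∈ U ∧ (J j).map (Ideal.Quotient.mk I) ≤ 𝔫) →
        RingTheory.Sequence.IsRegular (Localization.AtPrime 𝔫) (l.flatMap φ))
    (l : List (Fin s × ℕ)) (hl : (l.map Prod.fst).Nodup) (hw : ∀ p ∈ l, 0 < p.2)
    (hU : ∀ p ∈ l, p.1 ∈ U) (j : Fin s) (hj : j ∈ U) (hjl : ∀ p ∈ l, p.1 ≠ j) (x m : ℕ)
    (f : MvPolynomial (Fin n) L)
    (h1 : ∃ g, Ideal.Quotient.mk I g ∉ 𝔫 ∧ g * f ∈ I ⊔ wI (l.map fun p => (J p.1, p.2)) x)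
    (h2 : ∃ g, Ideal.Quotient.mk I g ∉ 𝔫 ∧ g * f ∈ I ⊔ J j ^ m) :
    ∃ g, Ideal.Quotient.mk I g ∉ 𝔫 ∧
      g * f ∈ I ⊔ wI (l.map fun p => (J p.1, p.2)) x * J j ^ m := by
  have hNO : IsNoetherianRing (Localization.AtPrime 𝔫) :=
    IsLocalization.isNoetherianRing 𝔫.primeCompl (Localization.AtPrime 𝔫) inferInstance
  rw [← A6_mem] at h1 h2 ⊢
  rcases hφ with hφ | ⟨φ, hφ1, hφ2⟩
  · have h3 := A6_loc₁ (O := Localization.AtPrime 𝔫) (A6_map 𝔫) J (fun i => (J i).map (Ideal.Quotient.mk I) ≤ 𝔫) U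
      (fun i hi => by
        rw [A6_map_map]
        exact A6_top 𝔫 hi) hφ l hw hU j hj hjl x m
    exact h3 (Submodule.mem_inf.2 ⟨h1, h2⟩)
  have h3 := A6_loc (A6_map 𝔫) J φ (fun i => (J i).map (Ideal.Quotient.mk I) ≤ 𝔫) U
    (fun i hi => by
      rw [A6_map_map]
      exact A6_top 𝔫 hi)
    (fun i hi hi' => by
      rw [A6_map_map]
      exact hφ1 i hi hi') hφ2 l hl hw hU j hj hjl x m
  exact h3 (Submodule.mem_inf.2 ⟨h1, h2⟩)

theorem key {I : Ideal (MvPolynomial (Fin n) L)}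
    {J : Fin s → Ideal (MvPolynomial (Fin n) L)} {U : Finset (Fin s)} (h : Reg I J U)
    (l : List (Fin s × ℕ)) (hl : (l.map Prod.fst).Nodup) (hw : ∀ p ∈ l, 0 < p.2)
    (hU : ∀ p ∈ l, p.1 ∈ U) (j : Fin s) (hj : j ∈ U) (hjl : ∀ p ∈ l, p.1 ≠ j) (x m : ℕ) :
    sat (I ⊔ wI (l.map fun p => (J p.1, p.2)) x) ⊓ sat (I ⊔ J j ^ m) ≤
      sat (I ⊔ wI (l.map fun p => (J p.1, p.2)) x * J j ^ m) := by
  intro f hf
  have hf1 := (Submodule.mem_inf.1 hf).1
  have hf2 := (Submodule.mem_inf.1 hf).2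
  rw [mem_sat_iff] at hf1 hf2 ⊢
  intro 𝔪 h𝔪 hX
  by_cases hI : I ≤ 𝔪
  swap
  · obtain ⟨g, hg, hg'⟩ := SetLike.not_le_iff_exists.1 hI
    exact ⟨g, hg', Ideal.mem_sup_left (I.mul_mem_right f hg)⟩
  have hsurj : Function.Surjective (Ideal.Quotient.mk I) := Ideal.Quotient.mk_surjective
  have hcm : (𝔪.map (Ideal.Quotient.mk I)).comap (Ideal.Quotient.mk I) = 𝔪 := by
    rw [Ideal.comap_map_of_surjective _ hsurj, ← RingHom.ker_eq_comap_bot, Ideal.mk_ker]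
    exact sup_eq_left.2 hI
  have hmem : ∀ g, Ideal.Quotient.mk I g ∈ 𝔪.map (Ideal.Quotient.mk I) ↔ g ∈ 𝔪 := by
    intro g
    rw [← Ideal.mem_comap, hcm]
  have hmax : (𝔪.map (Ideal.Quotient.mk I)).IsMaximal := by
    refine (Ideal.map_eq_top_or_isMaximal_of_surjective _ hsurj h𝔪).resolve_left ?_
    intro h1
    apply h𝔪.ne_top
    rw [← hcm, h1, Ideal.comap_top]
  have hφ := h (𝔪.map (Ideal.Quotient.mk I)) (by
    obtain ⟨i, hi⟩ := hX
    exact ⟨i, fun h1 => hi ((hmem _).1 h1)⟩)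
  obtain ⟨g1, hg1, hg1'⟩ := hf1 𝔪 h𝔪 hX
  obtain ⟨g2, hg2, hg2'⟩ := hf2 𝔪 h𝔪 hX
  obtain ⟨g, hg, hg'⟩ := A6_point (𝔪.map (Ideal.Quotient.mk I)) hφ l hl hw hU j hj hjl x m f
    ⟨g1, fun h1 => hg1 ((hmem _).1 h1), hg1'⟩ ⟨g2, fun h1 => hg2 ((hmem _).1 h1), hg2'⟩
  exact ⟨g, fun h1 => hg ((hmem _).2 h1), hg'⟩

end Pool.Agent.Lib.MP_17a322_nt.VE
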