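import Pool.Agent.Lib.MP_17a322_nt.Mb

/-!
Mean vanishing orders, block A7: the dimension count for three filtrations.
-/

namespace Pool.Agent.Lib.MP_17a322_nt.VE

section

private theorem A7_sum (a b : ℕ → ℤ) (w x : ℕ) (ha : ∀ z, 0 ≤ a z)
    (hab : ∀ z y, z ≤ x + w * y → b y ≤ a z) (Y Z : ℕ) (hZ : x + w * Y ≤ Z) :
    x * b 0 + w * ∑ y ∈ Finset.range Y, b (y + 1) ≤ ∑ z ∈ Finset.range Z, a (z + 1) := by
  have h1 : ∀ Y : ℕ, x * b 0 + w * ∑ y ∈ Finset.range Y, b (y + 1) ≤
      ∑ z ∈ Finset.range (x + w * Y), a (z + 1) := by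
    intro Y
    induction Y with
    | zero =>
      rw [Finset.range_zero, Finset.sum_empty, mul_zero, add_zero, mul_zero, add_zero]
      calc (x : ℤ) * b 0 = ∑ _z ∈ Finset.range x, b 0 := by
            rw [Finset.sum_const, Finset.card_range, nsmul_eq_mul]
        _ ≤ ∑ z ∈ Finset.range x, a (z + 1) := by
            refine Finset.sum_le_sum fun z hz => hab _ _ ?_
            rw [Finset.mem_range] at hz
            omega
    | succ Y ih =>
      have h2 : x + w * (Y + 1) = (x + w * Y) + w := by ring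
      rw [h2, Finset.sum_range_add (fun z => a (z + 1)), Finset.sum_range_succ, mul_add, ← add_assoc]
      refine add_le_add ih ?_
      calc (w : ℤ) * b (Y + 1) = ∑ _t ∈ Finset.range w, b (Y + 1) := by
            rw [Finset.sum_const, Finset.card_range, nsmul_eq_mul]
        _ ≤ ∑ t ∈ Finset.range w, a (x + w * Y + t + 1) := by
            refine Finset.sum_le_sum fun t ht => hab _ _ ?_
            rw [Finset.mem_range] at ht
            rw [h2]
            omega
  refine (h1 Y).trans ?_
  refine Finset.sum_le_sum_of_subset_of_nonneg ?_ fun z _ _ => ha _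
  intro z hz
  rw [Finset.mem_range] at hz ⊢
  omega

variable {L : Type*} [Field L] {V : Type*} [AddCommGroup V] [Module L V] [FiniteDimensional L V]

private theorem A7_mono {A B : Submodule L V} (h : A ≤ B) :
    (Module.finrank L A : ℤ) ≤ Module.finrank L B := by
  exact_mod_cast Submodule.finrank_mono h

private theorem A7_four {A A' B C : Submodule L V} (hA : A' ≤ A) (h : A ⊓ B ≤ C) :
    (Module.finrank L (A ⊓ B : Submodule L V) : ℤ) - Module.finrank L (A' ⊓ B : Submodule L V) ≤
      Module.finrank L (A ⊓ C : Submodule L V) - Module.finrank L (A' ⊓ C : Submodule L V) := by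
  have h1 := Submodule.finrank_sup_add_finrank_inf_eq (A ⊓ B) (A' ⊓ C)
  have h2 : (A ⊓ B) ⊔ (A' ⊓ C) ≤ A ⊓ C :=
    sup_le (le_inf inf_le_left h) (inf_le_inf_right C hA)
  have h3 : (A ⊓ B) ⊓ (A' ⊓ C) ≤ A' ⊓ B :=
    le_inf (inf_le_right.trans inf_le_left) (inf_le_left.trans inf_le_right)
  have h4 := A7_mono h2
  have h5 := A7_mono h3
  have h6 : ((Module.finrank L ((A ⊓ B) ⊔ (A' ⊓ C) : Submodule L V) +
      Module.finrank L ((A ⊓ B) ⊓ (A' ⊓ C) : Submodule L V) : ℕ) : ℤ) =
      ((Module.finrank L (A ⊓ B : Submodule L V) + Module.finrank L (A' ⊓ C : Submodule L V) : ℕ) : ℤ) := by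
    rw [h1]
  push_cast at h6
  linarith

theorem conc {L : Type*} [Field L] {V : Type*} [AddCommGroup V] [Module L V]
    [FiniteDimensional L V] (F G H : ℕ → Submodule L V) (hF : Antitone F) (hG : Antitone G)
    (hH : Antitone H) (hF0 : F 0 = ⊤) (hG0 : G 0 = ⊤) (w : ℕ)
    (h : ∀ x y, F x ⊓ G y ≤ H (x + w * y)) (X Y Z : ℕ) (hZ : X + w * Y ≤ Z) :
    ∑ x ∈ Finset.range X, Module.finrank L (F (x + 1)) +
      w * ∑ y ∈ Finset.range Y, Module.finrank L (G (y + 1)) ≤
      ∑ z ∈ Finset.range Z, Module.finrank L (H (z + 1)) := by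
  have hz : ∀ x y z, z ≤ x + w * y → F x ⊓ G y ≤ H z := fun x y z hxy => (h x y).trans (hH hxy)
  have hGx : ∀ S : Submodule L V, Module.finrank L (S ⊓ G 0 : Submodule L V) = Module.finrank L S := fun S => by
    rw [hG0, inf_top_eq]
  have hFx : ∀ S : Submodule L V, Module.finrank L (F 0 ⊓ S : Submodule L V) = Module.finrank L S := fun S => by
    rw [hF0, top_inf_eq]
  -- the statement for `F x`, `x = X - d`
  have key : ∀ d x : ℕ, x + d = X →
      (x : ℤ) * Module.finrank L (F x) + ∑ i ∈ Finset.range d, (Module.finrank L (F (x + i + 1)) : ℤ) +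
        w * ∑ y ∈ Finset.range Y, (Module.finrank L (F x ⊓ G (y + 1) : Submodule L V) : ℤ) ≤
        ∑ z ∈ Finset.range Z, (Module.finrank L (F x ⊓ H (z + 1) : Submodule L V) : ℤ) := by
    intro d
    induction d with
    | zero =>
      intro x hx
      rw [add_zero] at hx
      subst hx
      have h1 := A7_sum (fun z => (Module.finrank L (F x ⊓ H z : Submodule L V) : ℤ))
        (fun y => (Module.finrank L (F x ⊓ G y : Submodule L V) : ℤ)) w x (fun z => Nat.cast_nonneg _)
        (fun z y hzy => A7_mono (le_inf inf_le_left (hz x y z hzy))) Y Z hZ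
      simp only [hGx] at h1
      rw [Finset.range_zero, Finset.sum_empty, add_zero]
      exact h1
    | succ d ih =>
      intro x hx
      have h0 := ih (x + 1) (by omega)
      have h1 := A7_sum (fun z => (Module.finrank L (F x ⊓ H z : Submodule L V) : ℤ) -
          Module.finrank L (F (x + 1) ⊓ H z : Submodule L V))
        (fun y => (Module.finrank L (F x ⊓ G y : Submodule L V) : ℤ) -
          Module.finrank L (F (x + 1) ⊓ G y : Submodule L V)) w x
        (fun z => sub_nonneg.2 (A7_mono (inf_le_inf_right _ (hF (Nat.le_succ x)))))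
        (fun z y hzy => A7_four (hF (Nat.le_succ x)) (hz x y z hzy)) Y Z
        (le_trans (Nat.add_le_add_right (by omega) _) hZ)
      simp only [hGx] at h1
      rw [Finset.sum_sub_distrib, Finset.sum_sub_distrib] at h1
      have h2 : ∑ i ∈ Finset.range (d + 1), (Module.finrank L (F (x + i + 1)) : ℤ) =
          ∑ i ∈ Finset.range d, (Module.finrank L (F (x + 1 + i + 1)) : ℤ) + Module.finrank L (F (x + 1)) := by
        rw [Finset.sum_range_succ']
        refine congrArg₂ (· + ·) (Finset.sum_congr rfl fun i _ => ?_) rfl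
        rw [show x + (i + 1) + 1 = x + 1 + i + 1 by omega]
      rw [h2]
      push_cast at h0 h1 ⊢
      nlinarith [h0, h1]
  have h0x : ∀ x, Module.finrank L (F (0 + x + 1)) = Module.finrank L (F (x + 1)) := fun x => by
    rw [Nat.zero_add]
  have h1 := key X 0 (Nat.zero_add X)
  simp only [hFx, h0x, Nat.cast_zero, zero_mul] at h1
  rw [zero_add] at h1
  exact_mod_cast h1

end

end Pool.Agent.Lib.MP_17a322_nt.VE
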