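import Pool.Agent.Lib.MP_17a322_nt.VE.A1
import Pool.Agent.Lib.MP_17a322_nt.VE.A5
import Pool.Agent.Lib.MP_17a322_nt.VE.A6
import Pool.Agent.Lib.MP_17a322_nt.VE.A7

/-!
Mean vanishing orders: the dimensions of the spaces of forms in weighted powers of ideals.
-/

universe u

namespace Pool.Agent.Lib.MP_17a322_nt.VE

open MvPolynomial

section

variable {L : Type*} [Field L] {n s : ℕ}

/-- The forms of degree `k` modulo `I`. -/
private noncomputable def A8_T (I : Ideal (MvPolynomial (Fin n) L)) (k : ℕ) :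
    Submodule L (MvPolynomial (Fin n) L ⧸ I) :=
  (homogeneousSubmodule (Fin n) L k).map (Ideal.Quotient.mkₐ L I).toLinearMap

/-- The forms of degree `k` in `a` modulo `I`. -/
private noncomputable def A8_g (I : Ideal (MvPolynomial (Fin n) L)) (k : ℕ)
    (a : Ideal (MvPolynomial (Fin n) L)) : Submodule L (A8_T I k) :=
  ((homogeneousSubmodule (Fin n) L k ⊓ a.restrictScalars L).map
    (Ideal.Quotient.mkₐ L I).toLinearMap).comap (A8_T I k).subtype

private theorem A8_fin (I : Ideal (MvPolynomial (Fin n) L)) (k : ℕ) :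
    Module.Finite L (A8_T I k) :=
  Module.Finite.iff_fg.2 ((homogeneousSubmodule_fg (Fin n) L k).map _)

private theorem A8_rank (I : Ideal (MvPolynomial (Fin n) L)) (k : ℕ)
    (a : Ideal (MvPolynomial (Fin n) L)) : Module.finrank L (A8_g I k a) = dm I a k :=
  LinearEquiv.finrank_eq (Submodule.comapSubtypeEquivOfLe (Submodule.map_mono inf_le_left))

private theorem A8_mono (I : Ideal (MvPolynomial (Fin n) L)) (k : ℕ)
    {a b : Ideal (MvPolynomial (Fin n) L)} (h : a ≤ b) : A8_g I k a ≤ A8_g I k b := by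
  refine Submodule.comap_mono (Submodule.map_mono (inf_le_inf_left _ ?_))
  intro x hx
  exact h hx

private theorem A8_top (I : Ideal (MvPolynomial (Fin n) L)) (k : ℕ) : A8_g I k ⊤ = ⊤ := by
  rw [eq_top_iff]
  rintro ⟨x, hx⟩ -
  obtain ⟨f, hf, rfl⟩ := hx
  exact ⟨f, ⟨hf, trivial⟩, rfl⟩

private theorem A8_inf (I : Ideal (MvPolynomial (Fin n) L)) (k : ℕ)
    {a b : Ideal (MvPolynomial (Fin n) L)} (h : I ≤ a) :
    A8_g I k a ⊓ A8_g I k b ≤ A8_g I k (a ⊓ b) := by
  rintro x ⟨⟨f, ⟨hf1, hf2⟩, hf3⟩, ⟨g, ⟨hg1, hg2⟩, hg3⟩⟩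
  refine ⟨g, ⟨hg1, ?_, hg2⟩, hg3⟩
  have h1 : Ideal.Quotient.mk I g = Ideal.Quotient.mk I f := hg3.trans hf3.symm
  have h2 : g - f ∈ I := Ideal.Quotient.eq.1 h1
  have h3 : g = f + (g - f) := by ring
  have h4 : f + (g - f) ∈ a := a.add_mem hf2 (h h2)
  rw [← h3] at h4
  exact h4

theorem dims {I : Ideal (MvPolynomial (Fin n) L)} (hI : I.IsPrime)
    (hX : ∃ l, (X l : MvPolynomial (Fin n) L) ∉ I)
    {J : Fin s → Ideal (MvPolynomial (Fin n) L)} {U : Finset (Fin s)} (h : Reg I J U)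
    (l : List (Fin s × ℕ)) (hl : (l.map Prod.fst).Nodup) (hw : ∀ p ∈ l, 0 < p.2)
    (hU : ∀ p ∈ l, p.1 ∈ U) (k M Z : ℕ) (hZ : (l.map fun p => p.2 * M).sum ≤ Z) :
    (l.map fun p => p.2 * ∑ m ∈ Finset.range M, dm I (sat (I ⊔ J p.1 ^ (m + 1))) k).sum ≤
      ∑ z ∈ Finset.range Z,
        dm I (sat (I ⊔ wI (l.map fun p => (J p.1, p.2)) (z + 1))) k := by
  induction l generalizing Z with
  | nil =>
    rw [List.map_nil, List.sum_nil]
    exact Nat.zero_le _
  | cons p l ih =>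
    have hfin := A8_fin I k
    rw [List.map_cons, List.nodup_cons] at hl
    have hjl : ∀ q ∈ l, q.1 ≠ p.1 := fun q hq he => hl.1 (List.mem_map.2 ⟨q, hq, he⟩)
    have ih' := ih hl.2 (fun q hq => hw q (List.mem_cons_of_mem _ hq))
      (fun q hq => hU q (List.mem_cons_of_mem _ hq)) (l.map fun p => p.2 * M).sum le_rfl
    rw [List.map_cons, List.sum_cons] at hZ
    rw [List.map_cons, List.sum_cons, List.map_cons]
    let F : ℕ → Submodule L (A8_T I k) := fun x =>
      A8_g I k (sat (I ⊔ wI (l.map fun p => (J p.1, p.2)) x))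
    let G : ℕ → Submodule L (A8_T I k) := fun y => A8_g I k (sat (I ⊔ J p.1 ^ y))
    let H : ℕ → Submodule L (A8_T I k) := fun z =>
      A8_g I k (sat (I ⊔ wI ((J p.1, p.2) :: l.map fun p => (J p.1, p.2)) z))
    have hF : Antitone F := fun x y hxy =>
      A8_mono I k (sat_mono (sup_le_sup_left (wI_anti _ hxy) _))
    have hG : Antitone G := fun x y hxy =>
      A8_mono I k (sat_mono (sup_le_sup_left (Ideal.pow_le_pow_right hxy) _))
    have hH : Antitone H := fun x y hxy =>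
      A8_mono I k (sat_mono (sup_le_sup_left (wI_anti _ hxy) _))
    have htop : sat (⊤ : Ideal (MvPolynomial (Fin n) L)) = ⊤ :=
      top_le_iff.1 (le_sat ⊤)
    have hF0 : F 0 = ⊤ := by
      change A8_g I k (sat (I ⊔ wI (l.map fun p => (J p.1, p.2)) 0)) = ⊤
      rw [wI_zero, sup_top_eq, htop, A8_top]
    have hG0 : G 0 = ⊤ := by
      change A8_g I k (sat (I ⊔ J p.1 ^ 0)) = ⊤
      rw [pow_zero, Ideal.one_eq_top, sup_top_eq, htop, A8_top]
    have hFGH : ∀ x y, F x ⊓ G y ≤ H (x + p.2 * y) := by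
      intro x y
      have h1 : I ≤ sat (I ⊔ wI (l.map fun p => (J p.1, p.2)) x) :=
        le_sup_left.trans (le_sat _)
      refine (A8_inf I k h1).trans (A8_mono I k ?_)
      refine (key h l hl.2 (fun q hq => hw q (List.mem_cons_of_mem _ hq))
        (fun q hq => hU q (List.mem_cons_of_mem _ hq)) p.1 (hU p List.mem_cons_self) hjl x y).trans
        (sat_mono (sup_le_sup_left (wI_mul_pow (J p.1) p.2 _ x y) _))
    have h2 := conc F G H hF hG hH hF0 hG0 p.2 hFGH (l.map fun p => p.2 * M).sum M Z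
      (by omega)
    simp only [F, G, H, A8_rank] at h2
    omega

end

end Pool.Agent.Lib.MP_17a322_nt.VE
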