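import Pool.Agent.Lib.MP_17a322_nt.VE.Defs
import Pool.Agent.Lib.MP_17a322_nt.EF.C4

/-!
Mean vanishing orders: the choice of the degree.
-/

universe u

namespace Pool.Agent.Lib.MP_17a322_nt.VE

open MvPolynomial
open Pool.Agent.Lib.MP_17a322_nt.EF

/-- The choice of the degree. -/
theorem choose_k {L : Type*} [Field L] {n s : ℕ} {I : Ideal (MvPolynomial (Fin n) L)}
    (hI : I.IsPrime) (hX : ∃ l, (X l : MvPolynomial (Fin n) L) ∉ I)
    (J : Fin s → Ideal (MvPolynomial (Fin n) L)) (β : Fin s → ℝ)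
    (hβ : ∀ j, MeanGe I (J j) (β j)) {δ : ℝ} (hδ : 0 < δ) :
    ∃ k₀ : ℕ, ∀ k ≥ k₀, ∃ M : ℕ, 0 < k ∧ 0 < rk I k ∧ ∀ j, (β j - δ) * (k * rk I k) ≤
      ∑ m ∈ Finset.range M, (dm I (sat (I ⊔ J j ^ (m + 1))) k : ℝ) := by
  classical
  choose k₀ hk₀ using fun j => hβ j δ hδ
  refine ⟨∑ j, k₀ j + 1, fun k hk => ?_⟩
  have h1 : ∀ j, k₀ j ≤ k := fun j => by
    have h2 := Finset.single_le_sum (f := k₀) (fun _ _ => Nat.zero_le _) (Finset.mem_univ j)
    omega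
  choose M hM using fun j => hk₀ j k (h1 j)
  refine ⟨∑ j, M j, by omega, C4_pos I hX (by omega), fun j => (hM j).trans ?_⟩
  refine Finset.sum_le_sum_of_subset_of_nonneg (Finset.range_mono ?_)
    fun _ _ _ => Nat.cast_nonneg _
  exact Finset.single_le_sum (f := M) (fun _ _ => Nat.zero_le _) (Finset.mem_univ j)

end Pool.Agent.Lib.MP_17a322_nt.VE
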