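import Pool.Agent.Lib.MP_17a322_nt.VE.DefsB
import Pool.Agent.Lib.MP_17a322_nt.EF.W1

/-!
Mean vanishing orders: the generators of `wI` at a point of `A` (block B2).
-/

universe u

namespace Pool.Agent.Lib.MP_17a322_nt.VE

open MvPolynomial Height
open Pool.Agent.Lib.MP_17a322_nt.VA
open Pool.Agent.Lib.MP_17a322_nt.SL
open Pool.Agent.Lib.MP_17a322_nt.EF

section

variable {K : Type u} [Field K] {N : ℕ} (A : AV K N) {n m s w : ℕ}

/-- The supremum of the absolute values of the coordinates of a nonzero vector is positive. -/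
private theorem B2_pos {ι : Type*} [Fintype ι] (v : AbsoluteValue K ℝ) {y : ι → K} (h : y ≠ 0) :
    0 < ⨆ i, v (y i) := by
  obtain ⟨i, hi⟩ := Function.ne_iff.1 h
  exact (v.pos hi).trans_le (le_ciSup (Set.finite_range fun i => v (y i)).bddAbove i)

private theorem B2_x_ne {L : Type u} [Field L] [Algebra K L] (P : A.Pts L) : A.x P ≠ 0 :=
  P.1.rep_nonzero

/-- The equations of `Y_j` are small if the local height is large. -/
private theorem B2_small {D d : ℕ}
    (f : Fin w → MvPolynomial (Fin n) (MvPolynomial (Fin (N + 1)) K)) (v : AbsoluteValue K ℝ)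
    (P : A.Pts K) (X : Fin n → K) (hX : X ≠ 0) (hf : ∃ i, eval X (sp A P (f i)) ≠ 0) {t : ℝ}
    (ht : t ≤ lamY A v D d f P X) (i : Fin w) :
    v (eval X (sp A P (f i))) ≤
      (⨆ i, v (A.x P i)) ^ D * (⨆ l, v (X l)) ^ d * Real.exp (-t) := by
  have h1 : 0 < ⨆ l, v (X l) := B2_pos v hX
  have h2 : 0 < ⨆ i, v (A.x P i) := B2_pos v (B2_x_ne A P)
  have h3 : 0 < ⨆ l, v (eval X (sp A P (f l))) :=
    B2_pos v (y := fun l => eval X (sp A P (f l))) (Function.ne_iff.2 hf)
  have h4 : v (eval X (sp A P (f i))) ≤ ⨆ l, v (eval X (sp A P (f l))) :=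
    le_ciSup (Set.finite_range fun l => v (eval X (sp A P (f l)))).bddAbove i
  refine h4.trans ?_
  rw [← Real.exp_log h3]
  have h5 : (⨆ i, v (A.x P i)) ^ D * (⨆ l, v (X l)) ^ d * Real.exp (-t) =
      Real.exp (D * Real.log (⨆ i, v (A.x P i)) + d * Real.log (⨆ l, v (X l)) + -t) := by
    rw [Real.exp_add, Real.exp_add, ← Real.log_pow, ← Real.log_pow, Real.exp_log (pow_pos h2 D),
      Real.exp_log (pow_pos h1 d)]
  rw [h5, Real.exp_le_exp]
  unfold lamY at ht
  linarith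

/-- A larger list of hypotheses. -/
private theorem B2_cons {D d : Fin s → ℕ}
    {f : Fin s → Fin w → MvPolynomial (Fin n) (MvPolynomial (Fin (N + 1)) K)}
    {l : List (Fin s × ℕ)} {x : ℕ} {Ψ : MvPolynomial (Fin n) (MvPolynomial (Fin (N + 1)) K)}
    {a b : ℕ} (p : Fin s × ℕ) (h : Sm A D d f l x Ψ a b) : Sm A D d f (p :: l) x Ψ a b := by
  refine ⟨h.1, fun v => ?_⟩
  obtain ⟨C, hC, h1⟩ := h.2 v
  exact ⟨C, hC, fun P X hX θ hθ hl => h1 P X hX θ hθ fun q hq => hl q (List.mem_cons_of_mem _ hq)⟩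

/-- A smaller weight. -/
private theorem B2_mono {D d : Fin s → ℕ}
    {f : Fin s → Fin w → MvPolynomial (Fin n) (MvPolynomial (Fin (N + 1)) K)}
    {l : List (Fin s × ℕ)} {x x' : ℕ} (hx : x' ≤ x)
    {Ψ : MvPolynomial (Fin n) (MvPolynomial (Fin (N + 1)) K)}
    {a b : ℕ} (h : Sm A D d f l x Ψ a b) : Sm A D d f l x' Ψ a b := by
  refine ⟨h.1, fun v => ?_⟩
  obtain ⟨C, hC, h1⟩ := h.2 v
  refine ⟨C, hC, fun P X hX θ hθ hl => (h1 P X hX θ hθ hl).trans ?_⟩
  have h2 : 0 < ⨆ l, v (X l) := B2_pos v hX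
  have h3 : 0 < ⨆ i, v (A.x P i) := B2_pos v (B2_x_ne A P)
  have h4 : (x' : ℝ) * θ ≤ x * θ := mul_le_mul_of_nonneg_right (by exact_mod_cast hx) hθ
  apply mul_le_mul_of_nonneg_left _ (by positivity)
  rw [Real.exp_le_exp]
  linarith

/-- The product with an equation of a member of the list. -/
private theorem B2_mul {D d : Fin s → ℕ}
    {f : Fin s → Fin w → MvPolynomial (Fin n) (MvPolynomial (Fin (N + 1)) K)}
    (hf : ∀ j i, BH (D j) (d j) (f j i))
    {l : List (Fin s × ℕ)} {x : ℕ} {Ψ : MvPolynomial (Fin n) (MvPolynomial (Fin (N + 1)) K)}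
    {a b : ℕ} (p : Fin s × ℕ) (hp : p ∈ l) (i : Fin w) (h : Sm A D d f l x Ψ a b) :
    Sm A D d f l (x + p.2) (f p.1 i * Ψ) (D p.1 + a) (d p.1 + b) := by
  refine ⟨W_BH_mul (hf _ _) h.1, fun v => ?_⟩
  obtain ⟨C, hC, h1⟩ := h.2 v
  refine ⟨C, hC, fun P X hX θ hθ hl => ?_⟩
  obtain ⟨h2, h3⟩ := hl p hp
  have h4 := B2_small A (f p.1) v P X hX h2 h3 i
  have h5 := h1 P X hX θ hθ hl
  have h6 : sp A P (f p.1 i * Ψ) = sp A P (f p.1 i) * sp A P Ψ := by
    unfold sp
    exact map_mul _ _ _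
  have h7 : 0 < ⨆ l, v (X l) := B2_pos v hX
  have h8 : 0 < ⨆ i, v (A.x P i) := B2_pos v (B2_x_ne A P)
  rw [h6, map_mul, map_mul]
  refine (mul_le_mul h4 h5 (v.nonneg _) (by positivity)).trans (le_of_eq ?_)
  have h9 : Real.exp (-(((x + p.2 : ℕ) : ℝ) * θ)) =
      Real.exp (-(p.2 * θ)) * Real.exp (-(x * θ)) := by
    rw [← Real.exp_add]
    congr 1
    push_cast
    ring
  rw [h9, pow_add, pow_add]
  ring

theorem gen (D d : Fin s → ℕ)
    (f : Fin s → Fin w → MvPolynomial (Fin n) (MvPolynomial (Fin (N + 1)) K))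
    (hf : ∀ j i, BH (D j) (d j) (f j i)) (l : List (Fin s × ℕ)) (x : ℕ) {L : Type u} [Field L]
    [Algebra K L] (P : A.Pts L) :
    wI (l.map fun p => (fib A (f p.1) P, p.2)) x ≤
      Ideal.span {g | ∃ (Ψ : MvPolynomial (Fin n) (MvPolynomial (Fin (N + 1)) K)) (a b : ℕ),
        Sm A D d f l x Ψ a b ∧ g = sp A P Ψ} := by
  induction l generalizing x with
  | nil =>
    rw [List.map_nil]
    unfold wI
    split_ifs with hx
    · subst hx
      rw [top_le_iff, Ideal.eq_top_iff_one]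
      apply Ideal.subset_span
      refine ⟨1, 0, 0, ⟨W_BH_one, fun v => ⟨1, zero_le_one, fun P' X _ θ _ _ => ?_⟩⟩, ?_⟩
      · have h1 : sp A P' (1 : MvPolynomial (Fin n) (MvPolynomial (Fin (N + 1)) K)) = 1 := by
          unfold sp
          exact map_one _
        rw [h1, map_one, map_one]
        simp
      · unfold sp
        exact (map_one _).symm
    · exact bot_le
  | cons p l ih =>
    rw [List.map_cons]
    unfold wI
    refine iSup_le fun i => ?_
    -- the statement for the exponent `i`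
    have key : ∀ (y i : ℕ), fib A (f p.1) P ^ i * wI (l.map fun p => (fib A (f p.1) P, p.2)) y ≤
        Ideal.span {g | ∃ (Ψ : MvPolynomial (Fin n) (MvPolynomial (Fin (N + 1)) K)) (a b : ℕ),
          Sm A D d f (p :: l) (y + p.2 * i) Ψ a b ∧ g = sp A P Ψ} := by
      intro y i
      induction i with
      | zero =>
        rw [pow_zero, one_mul]
        refine (ih y).trans (Ideal.span_mono ?_)
        rintro g ⟨Ψ, a, b, h, rfl⟩
        exact ⟨Ψ, a, b, B2_cons A p h, rfl⟩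
      | succ i ihi =>
        rw [pow_succ', mul_assoc]
        refine (Ideal.mul_mono_right ihi).trans ?_
        unfold fib
        rw [Ideal.span_mul_span', Ideal.span_le]
        rintro _ ⟨_, ⟨j, rfl⟩, _, ⟨Ψ, a, b, h, rfl⟩, rfl⟩
        apply Ideal.subset_span
        refine ⟨f p.1 j * Ψ, D p.1 + a, d p.1 + b, ?_, ?_⟩
        · have h1 := B2_mul A hf p List.mem_cons_self j h
          rw [Nat.mul_succ, ← Nat.add_assoc]
          exact h1
        · unfold sp
          exact (map_mul _ _ _).symm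
    refine (key (x - p.2 * i) i).trans (Ideal.span_mono ?_)
    rintro g ⟨Ψ, a, b, h, rfl⟩
    exact ⟨Ψ, a, b, B2_mono A (by omega) h, rfl⟩

end

end Pool.Agent.Lib.MP_17a322_nt.VE
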