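import Pool.Agent.Lib.MP_17a322_nt.VE.B2
import Pool.Agent.Lib.MP_17a322_nt.EF.R4
import Pool.Agent.Lib.MP_17a322_nt.EF.W1

/-!
Block B3: from the membership in the saturation at the generic point to the local inequality.
-/

universe u

namespace Pool.Agent.Lib.MP_17a322_nt.VE

open MvPolynomial Height
open Pool.Agent.Lib.MP_17a322_nt.VA
open Pool.Agent.Lib.MP_17a322_nt.SL
open Pool.Agent.Lib.MP_17a322_nt.EF

/-- Cramer's rule with right hand sides of degree `D₀`. -/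
private theorem B3_cram {K : Type u} [Field K] {N : ℕ} (A : AV K N) {ι κ α : Type*} [Finite ι] [Finite κ]
    (w : ι → κ → MvPolynomial (Fin (N + 1)) K) (D : ι → ℕ)
    (hw : ∀ i l, (w i l).IsHomogeneous (D i)) (w₀ : α → κ → MvPolynomial (Fin (N + 1)) K) {D₀ : ℕ}
    (hw₀ : ∀ a l, (w₀ a l).IsHomogeneous D₀) {L : Type u} [Field L] [Algebra K L] (P₀ : A.Pts L)
    (hP₀ : Gen A P₀)
    (h : ∀ a, (fun l => aeval (A.x P₀) (w₀ a l)) ∈
      Submodule.span L (Set.range fun i l => aeval (A.x P₀) (w i l))) :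
    ∃ (p : ℕ) (b : Fin p → ι) (R : MvPolynomial (Fin (N + 1)) K) (ρ : ℕ)
      (r : α → Fin p → MvPolynomial (Fin (N + 1)) K) (δ : Fin p → ℕ),
      R.IsHomogeneous ρ ∧ R ∉ A.I ∧ (∀ a i, (r a i).IsHomogeneous (δ i)) ∧
      (∀ i, δ i + D (b i) = ρ + D₀) ∧
      ∀ a l, R * w₀ a l - ∑ i, r a i * w (b i) l ∈ A.I := by
  classical
  have := Fintype.ofFinite κ
  obtain ⟨p, f, hf1, hf2, hf3⟩ : ∃ (p : ℕ) (f : Fin p → κ → L),
      (∀ i, f i ∈ Set.range fun i l => aeval (A.x P₀) (w i l)) ∧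
      Submodule.span L (Set.range f) =
        Submodule.span L (Set.range fun i l => aeval (A.x P₀) (w i l)) ∧
      LinearIndependent L f :=
    ⟨_, Submodule.exists_fun_fin_finrank_span_eq L _⟩
  choose b hb using hf1
  obtain ⟨e, he⟩ := R0_minor f hf3
  obtain ⟨M, hM⟩ : ∃ M : Matrix (Fin p) (Fin p) (MvPolynomial (Fin (N + 1)) K),
      M = Matrix.of fun i j => w (b i) (e j) := ⟨_, rfl⟩
  obtain ⟨φ, hφ⟩ : ∃ φ : MvPolynomial (Fin (N + 1)) K →ₐ[K] L, φ = aeval (A.x P₀) := ⟨_, rfl⟩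
  have hMφ : M.map φ = Matrix.of fun i j : Fin p => f i (e j) := by
    ext i j
    rw [Matrix.map_apply, hM, hφ]
    exact congrFun (hb i) (e j)
  have hRφ : φ M.det ≠ 0 := by
    rw [AlgHom.map_det]
    show (M.map φ).det ≠ 0
    rw [hMφ]
    exact he
  have hMh : ∀ i j, (M i j).IsHomogeneous (D (b i)) := fun i j => by
    rw [hM]
    exact hw _ _
  obtain ⟨r, hr⟩ : ∃ r : α → Fin p → MvPolynomial (Fin (N + 1)) K,
      r = fun a i => (M.updateRow i fun j => w₀ a (e j)).det := ⟨_, rfl⟩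
  have hrh : ∀ a i, (r a i).IsHomogeneous (∑ k, if k = i then D₀ else D (b k)) := by
    intro a i
    rw [hr]
    refine R0_det _ _ fun k j => ?_
    by_cases hk : k = i
    · rw [if_pos hk, hk, Matrix.updateRow_self]
      exact hw₀ _ _
    · rw [if_neg hk, Matrix.updateRow_ne hk]
      exact hMh k j
  have hdeg : ∀ i, (∑ k, if k = i then D₀ else D (b k)) + D (b i) = (∑ k, D (b k)) + D₀ := by
    intro i
    have h1 : (∑ k, if k = i then D₀ else D (b k)) = (∑ k ∈ Finset.univ.erase i, D (b k)) + D₀ := by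
      rw [← Finset.sum_erase_add _ _ (Finset.mem_univ i), if_pos rfl]
      congr 1
      refine Finset.sum_congr rfl fun k hk => ?_
      rw [if_neg (Finset.ne_of_mem_erase hk)]
    rw [h1, ← Finset.sum_erase_add (Finset.univ : Finset (Fin p)) (fun k => D (b k))
        (Finset.mem_univ i)]
    ring
  have hRh := R0_det M _ hMh
  refine ⟨p, b, M.det, ∑ k, D (b k), r, fun i => ∑ k, if k = i then D₀ else D (b k), hRh,
    fun h0 => hRφ ?_, hrh, hdeg, fun a l => ?_⟩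
  · rw [hφ]
    exact R0_pt A P₀ _ h0
  -- the identity at the generic point
  have ha := h a
  rw [← hf2, Submodule.mem_span_range_iff_exists_fun] at ha
  obtain ⟨c, hc⟩ := ha
  refine hP₀ _ (∑ k, D (b k) + D₀) ?_ ?_
  · refine IsHomogeneous.sub ?_ (IsHomogeneous.sum _ _ _ fun i _ => ?_)
    · exact hRh.mul (hw₀ a l)
    · have h1 := (hrh a i).mul (hw (b i) l)
      rwa [hdeg i] at h1
  · rw [← hφ, map_sub, map_mul, map_sum]
    have hrφ : ∀ i, φ (r a i) = c i * φ M.det := by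
      intro i
      rw [hr, AlgHom.map_det, AlgHom.map_det]
      show ((M.updateRow i fun j => w₀ a (e j)).map φ).det = c i * (M.map φ).det
      have h1 : (M.updateRow i fun j => w₀ a (e j)).map φ =
          (M.map φ).updateRow i (∑ k, c k • (M.map φ) k) := by
        ext k j
        rw [Matrix.map_apply]
        by_cases hk : k = i
        · rw [hk, Matrix.updateRow_self, Matrix.updateRow_self, Finset.sum_apply]
          have h2 := congrFun hc (e j)
          rw [Finset.sum_apply] at h2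
          rw [hφ]
          refine h2.symm.trans (Finset.sum_congr rfl fun k _ => ?_)
          rw [← hφ, hMφ]
          rfl
        · rw [Matrix.updateRow_ne hk, Matrix.updateRow_ne hk]
          rfl
      rw [h1, Matrix.det_updateRow_sum, smul_eq_mul]
    have h2 := congrFun hc l
    rw [Finset.sum_apply] at h2
    have h3 : φ (w₀ a l) = ∑ i, c i * φ (w (b i) l) := by
      rw [hφ]
      refine h2.symm.trans (Finset.sum_congr rfl fun k _ => ?_)
      rw [← hb k]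
      rfl
    rw [h3, Finset.mul_sum, sub_eq_zero]
    refine Finset.sum_congr rfl fun i _ => ?_
    rw [map_mul, hrφ i]
    ring

section

variable {K : Type u} [Field K] {N : ℕ} (A : AV K N) {n m s w : ℕ}

private theorem B3_BH {D d e : ℕ} {Q : MvPolynomial (Fin n) (MvPolynomial (Fin (N + 1)) K)}
    (hQ : BH D d Q) (l : Fin n) : BH D (e + d) (X l ^ e * Q) := by
  classical
  constructor
  · exact (isHomogeneous_X_pow l e).mul hQ.1
  · intro μ
    rw [X_pow_eq_monomial, coeff_monomial_mul']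
    split_ifs
    · rw [one_mul]
      exact hQ.2 _
    · exact isHomogeneous_zero _ _ _

private theorem B3_sp {L : Type u} [Field L] [Algebra K L] (P : A.Pts L) (e : ℕ)
    (l : Fin n) (Q : MvPolynomial (Fin n) (MvPolynomial (Fin (N + 1)) K)) :
    sp A P (X l ^ e * Q) = X l ^ e * sp A P Q := by
  unfold sp
  rw [map_mul, map_pow, map_X]

/-- The identities over the base. -/
private theorem B3_id (H : Fin m → MvPolynomial (Fin n) (MvPolynomial (Fin (N + 1)) K))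
    (a b : Fin m → ℕ) (hH : ∀ i, BH (a i) (b i) (H i)) (D d : Fin s → ℕ)
    (f : Fin s → Fin w → MvPolynomial (Fin n) (MvPolynomial (Fin (N + 1)) K))
    (hf : ∀ j i, BH (D j) (d j) (f j i)) (ll : List (Fin s × ℕ)) (x : ℕ) {δ k : ℕ}
    (Φ : MvPolynomial (Fin n) (MvPolynomial (Fin (N + 1)) K)) (hΦ : BH δ k Φ) {L : Type u}
    [Field L] [Algebra K L] (P₀ : A.Pts L) (hP₀ : Gen A P₀)
    (h : sp A P₀ Φ ∈
      sat (fib A H P₀ ⊔ wI (ll.map fun p => (fib A (f p.1) P₀, p.2)) x)) :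
    ∃ (M p : ℕ) (R : MvPolynomial (Fin (N + 1)) K) (ρ : ℕ)
      (r : Fin n → Fin p → MvPolynomial (Fin (N + 1)) K) (δ' : Fin p → ℕ)
      (Ψ : Fin p → MvPolynomial (Fin n) (MvPolynomial (Fin (N + 1)) K)),
      R.IsHomogeneous ρ ∧ R ∉ A.I ∧ (∀ l i, (r l i).IsHomogeneous (δ' i)) ∧
      (∀ i, (∃ (Θ : MvPolynomial (Fin n) (MvPolynomial (Fin (N + 1)) K)) (a' b' : ℕ),
        Sm A D d f ll x Θ a' b' ∧ b' ≤ M + k ∧ δ' i + a' = ρ + δ ∧
          ∃ μ : Fin (Mo n (M + k - b')).card,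
          Ψ i = mn (MvPolynomial (Fin (N + 1)) K) n (M + k - b') μ * Θ) ∨
        ∃ (i' : Fin m) (Θ : MvPolynomial (Fin n) (MvPolynomial (Fin (N + 1)) K)),
          Ψ i = Θ * H i') ∧
      (∀ i, (Ψ i).IsHomogeneous (M + k)) ∧
      ∀ l c, R * cf (M + k) (X l ^ M * Φ) c - ∑ i, r l i * cf (M + k) (Ψ i) c ∈ A.I := by
  classical
  obtain ⟨M₀, hM₀⟩ := h
  obtain ⟨T, hT⟩ : ∃ T : Set (MvPolynomial (Fin n) L), T = {g | ∃ (Ψ : MvPolynomial (Fin n)
      (MvPolynomial (Fin (N + 1)) K)) (a b : ℕ), Sm A D d f ll x Ψ a b ∧ g = sp A P₀ Ψ} :=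
    ⟨_, rfl⟩
  have h1 : ∀ l : Fin n, ∃ g ∈ fib A H P₀, ∃ T' : Finset (MvPolynomial (Fin n) L),
      (T' : Set (MvPolynomial (Fin n) L)) ⊆ T ∧
      ∃ g' ∈ Ideal.span (T' : Set (MvPolynomial (Fin n) L)), g + g' = X l ^ M₀ * sp A P₀ Φ := by
    intro l
    obtain ⟨g, hg, g', hg', hgg⟩ := Submodule.mem_sup.1 (hM₀ l)
    have h2 := gen A D d f hf ll x P₀ hg'
    rw [← hT] at h2
    obtain ⟨T', hT', h3⟩ := Submodule.mem_span_finite_of_mem_span h2
    exact ⟨g, hg, T', hT', g', h3, hgg⟩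
  choose g hg T' hT' g' hg' hgg using h1
  obtain ⟨U, hU⟩ : ∃ U : Finset (MvPolynomial (Fin n) L), U = Finset.univ.biUnion T' := ⟨_, rfl⟩
  have hUT : ∀ t : U, ∃ (Ψ : MvPolynomial (Fin n) (MvPolynomial (Fin (N + 1)) K)) (a b : ℕ),
      Sm A D d f ll x Ψ a b ∧ t.1 = sp A P₀ Ψ := by
    rintro ⟨t, ht⟩
    rw [hU, Finset.mem_biUnion] at ht
    obtain ⟨l, -, hl⟩ := ht
    have h2 := hT' l hl
    rw [hT] at h2
    exact h2
  choose Ψ₀ a₀ b₀ hSm hΨ₀ using hUT
  obtain ⟨M, hM⟩ : ∃ M, M = M₀ + ∑ i, b i + ∑ t, b₀ t := ⟨_, rfl⟩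
  have hMb : ∀ i, b i ≤ M + k := fun i => by
    have := Finset.single_le_sum (f := b) (fun i _ => Nat.zero_le _) (Finset.mem_univ i)
    omega
  have hMb₀ : ∀ t, b₀ t ≤ M + k := fun t => by
    have := Finset.single_le_sum (f := b₀) (fun i _ => Nat.zero_le _) (Finset.mem_univ t)
    omega
  obtain ⟨Φ', hΦ'⟩ : ∃ Φ' : (Σ t : U, Fin (Mo n (M + k - b₀ t)).card) ⊕
      (Σ i : Fin m, Fin (Mo n (M + k - b i)).card) →
        MvPolynomial (Fin n) (MvPolynomial (Fin (N + 1)) K),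
      Φ' = Sum.elim (fun p => mn (MvPolynomial (Fin (N + 1)) K) n (M + k - b₀ p.1) p.2 *
        Ψ₀ p.1) fun p => mn (MvPolynomial (Fin (N + 1)) K) n (M + k - b p.1) p.2 *
          H p.1 := ⟨_, rfl⟩
  obtain ⟨D', hD'⟩ : ∃ D' : (Σ t : U, Fin (Mo n (M + k - b₀ t)).card) ⊕
      (Σ i : Fin m, Fin (Mo n (M + k - b i)).card) → ℕ,
      D' = Sum.elim (fun p => a₀ p.1) fun p => a p.1 := ⟨_, rfl⟩
  have hΦB : ∀ x, BH (D' x) (M + k) (Φ' x) := by
    rintro (x | x)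
    · have h1 := R3_BH (hSm x.1).1 (e := M + k - b₀ x.1) x.2
      rw [Nat.sub_add_cancel (hMb₀ _)] at h1
      rw [hΦ', hD']
      exact h1
    · have h1 := R3_BH (hH x.1) (e := M + k - b x.1) x.2
      rw [Nat.sub_add_cancel (hMb _)] at h1
      rw [hΦ', hD']
      exact h1
  obtain ⟨p, bb, R, ρ, r, δ', hR, hRI, hr, hδ, hid⟩ := B3_cram A (fun x => cf (M + k) (Φ' x)) D'
    (fun x l => (hΦB x).2 _)
    (fun l : Fin n => cf (M + k) (X l ^ M * Φ)) (D₀ := δ)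
    (fun l c => (B3_BH hΦ l).2 _) P₀ hP₀ (fun l => by
      have h1 : (fun c => aeval (A.x P₀) (cf (M + k) (X l ^ M * Φ) c)) =
          cf (M + k) (X l ^ M * sp A P₀ Φ) := by
        funext c
        rw [← R3_cf A P₀, B3_sp]
      rw [h1]
      have h2 : X l ^ M * sp A P₀ Φ = X l ^ (∑ i, b i + ∑ t, b₀ t) * g l +
          X l ^ (∑ i, b i + ∑ t, b₀ t) * g' l := by
        rw [← mul_add, hgg, ← mul_assoc, ← pow_add]
        congr 2
        rw [hM]
        ring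
      have hg1 : X l ^ (∑ i, b i + ∑ t, b₀ t) * g l ∈ Ideal.span (Set.range fun i => sp A P₀ (H i)) :=
        Ideal.mul_mem_left _ _ (hg l)
      have hg2 : X l ^ (∑ i, b i + ∑ t, b₀ t) * g' l ∈ Ideal.span (Set.range fun t : U => t.1) := by
        refine Ideal.mul_mem_left _ _ (Ideal.span_mono ?_ (hg' l))
        intro y hy
        refine ⟨⟨y, ?_⟩, rfl⟩
        rw [hU, Finset.mem_biUnion]
        exact ⟨l, Finset.mem_univ l, hy⟩
      rw [h2, ← cfl_apply, map_add]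
      rw [Ideal.mem_span_range_iff_exists_fun] at hg1 hg2
      obtain ⟨c₁, hc₁⟩ := hg1
      obtain ⟨c₂, hc₂⟩ := hg2
      rw [← hc₁, ← hc₂, map_sum, map_sum]
      refine Submodule.add_mem _ (Submodule.sum_mem _ fun i _ => ?_)
        (Submodule.sum_mem _ fun t _ => ?_)
      · have h3 := R1_cf_mul (L := L) (h := sp A P₀ (H i)) ((hH i).1.map _) (hMb i) (c₁ i)
        refine Submodule.span_mono ?_ h3
        rintro _ ⟨μ, rfl⟩
        refine ⟨Sum.inr ⟨i, μ⟩, ?_⟩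
        funext c
        show aeval (A.x P₀) (cf (M + k) (Φ' (Sum.inr ⟨i, μ⟩)) c) = _
        rw [← R3_cf A P₀, hΦ']
        show cf (M + k) (sp A P₀ (mn (MvPolynomial (Fin (N + 1)) K) n (M + k - b i) μ * H i)) c = _
        rw [R3_sp]
      · have h3 := R1_cf_mul (L := L) (h := t.1) (by
          rw [hΨ₀ t]
          exact (hSm t).1.1.map _) (hMb₀ t) (c₂ t)
        refine Submodule.span_mono ?_ h3
        rintro _ ⟨μ, rfl⟩
        refine ⟨Sum.inl ⟨t, μ⟩, ?_⟩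
        funext c
        show aeval (A.x P₀) (cf (M + k) (Φ' (Sum.inl ⟨t, μ⟩)) c) = _
        rw [← R3_cf A P₀, hΦ']
        show cf (M + k) (sp A P₀ (mn (MvPolynomial (Fin (N + 1)) K) n (M + k - b₀ t) μ *
          Ψ₀ t)) c = _
        rw [R3_sp, ← hΨ₀ t])
  refine ⟨M, p, R, ρ, r, δ', fun i => Φ' (bb i), hR, hRI, hr, fun i => ?_,
    fun i => (hΦB _).1, hid⟩
  rcases hb : bb i with ⟨t, μ⟩ | ⟨i', μ⟩
  · left
    refine ⟨Ψ₀ t, a₀ t, b₀ t, hSm t, hMb₀ t, ?_, μ, ?_⟩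
    · have h1 := hδ i
      rw [hb, hD'] at h1
      exact h1
    · show Φ' (bb i) = _
      rw [hb, hΦ']
      rfl
  · right
    refine ⟨i', mn (MvPolynomial (Fin (N + 1)) K) n (M + k - b i') μ, ?_⟩
    show Φ' (bb i) = _
    rw [hb, hΦ']
    rfl

theorem spread (H : Fin m → MvPolynomial (Fin n) (MvPolynomial (Fin (N + 1)) K))
    (hH : ∀ i, ∃ a b : ℕ, BH a b (H i)) (D d : Fin s → ℕ)
    (f : Fin s → Fin w → MvPolynomial (Fin n) (MvPolynomial (Fin (N + 1)) K))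
    (hf : ∀ j i, BH (D j) (d j) (f j i)) (l : List (Fin s × ℕ)) (x : ℕ) {δ k : ℕ}
    (Φ : MvPolynomial (Fin n) (MvPolynomial (Fin (N + 1)) K)) (hΦ : BH δ k Φ) {L : Type u}
    [Field L] [Algebra K L] (P₀ : A.Pts L) (hP₀ : Gen A P₀)
    (h : sp A P₀ Φ ∈
      sat (fib A H P₀ ⊔ wI (l.map fun p => (fib A (f p.1) P₀, p.2)) x)) :
    ∃ (R : MvPolynomial (Fin (N + 1)) K) (ρ : ℕ), R.IsHomogeneous ρ ∧ R ∉ A.I ∧
      ∀ v : AbsoluteValue K ℝ, ∃ C : ℝ, 0 ≤ C ∧ ∀ (P : A.Pts K) (X : Fin n → K), X ≠ 0 →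
        (∀ i, eval X (sp A P (H i)) = 0) → eval X (sp A P Φ) ≠ 0 → aeval (A.x P) R ≠ 0 →
        ∀ θ : ℝ, 0 ≤ θ →
        (∀ p ∈ l, (∃ i, eval X (sp A P (f p.1 i)) ≠ 0) ∧
          p.2 * θ ≤ lamY A v (D p.1) (d p.1) (f p.1) P X) →
        x * θ ≤ lamQ A v δ k Φ P X +
          (ρ * Real.log (⨆ i, v (A.x P i)) - Real.log (v (aeval (A.x P) R))) + C := by
  classical
  choose a b hab using hH
  obtain ⟨M, p, R, ρ, r, δ', Ψ, hR, hRI, hr, hΨ, hΨk, hid⟩ :=
    B3_id A H a b hab D d f hf l x Φ hΦ P₀ hP₀ h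
  refine ⟨R, ρ, hR, hRI, fun v => ?_⟩
  choose c hc0 hc using fun (l : Fin n) (i : Fin p) => R2_form v (hr l i)
  -- the constants of the small forms
  have hsm : ∀ i, ∃ E : ℝ, 0 ≤ E ∧ ∀ (P : A.Pts K) (X : Fin n → K), X ≠ 0 →
      (∀ i, eval X (sp A P (H i)) = 0) → ∀ θ : ℝ, 0 ≤ θ →
      (∀ p ∈ l, (∃ i, eval X (sp A P (f p.1 i)) ≠ 0) ∧
        p.2 * θ ≤ lamY A v (D p.1) (d p.1) (f p.1) P X) →
      (⨆ i, v (A.x P i)) ^ δ' i * v (eval X (sp A P (Ψ i))) ≤
        E * ((⨆ i, v (A.x P i)) ^ (ρ + δ) * (⨆ l, v (X l)) ^ (M + k) * Real.exp (-(x * θ))) := by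
    intro i
    rcases hΨ i with ⟨Θ, a', b', hSm, hb', hδ, μ, hμ⟩ | ⟨i', Θ, hΘ⟩
    · obtain ⟨E, hE0, hE⟩ := hSm.2 v
      refine ⟨E, hE0, fun P X hX hHX θ hθ hl => ?_⟩
      have h1 : eval X (sp A P (Ψ i)) = (∏ l, X l ^ mo n (M + k - b') μ l) *
          eval X (sp A P Θ) := by
        rw [hμ, R3_sp, map_mul]
        congr 1
        unfold mn
        rw [map_prod]
        exact Finset.prod_congr rfl fun l _ => by rw [map_pow, eval_X]
      have h2 : v (∏ l, X l ^ mo n (M + k - b') μ l) ≤ (⨆ l, v (X l)) ^ (M + k - b') := by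
        have h3 := R2_mono v X (mo n (M + k - b') μ)
        rwa [R1_mo] at h3
      have h3 := hE P X hX θ hθ hl
      have hS0 : 0 ≤ ⨆ l, v (X l) := Real.iSup_nonneg fun i => v.nonneg _
      have hx0 : 0 ≤ ⨆ i, v (A.x P i) := Real.iSup_nonneg fun i => v.nonneg _
      have h4 : v (eval X (sp A P (Ψ i))) ≤ (⨆ l, v (X l)) ^ (M + k - b') *
          (E * (⨆ i, v (A.x P i)) ^ a' * (⨆ l, v (X l)) ^ b' * Real.exp (-(x * θ))) := by
        rw [h1, map_mul]
        exact mul_le_mul h2 h3 (v.nonneg _) (pow_nonneg hS0 _)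
      have h5 : (⨆ l, v (X l)) ^ (M + k) = (⨆ l, v (X l)) ^ (M + k - b') * (⨆ l, v (X l)) ^ b' := by
        rw [← pow_add, Nat.sub_add_cancel hb']
      have h6 : (⨆ i, v (A.x P i)) ^ (ρ + δ) = (⨆ i, v (A.x P i)) ^ δ' i * (⨆ i, v (A.x P i)) ^ a' := by
        rw [← pow_add, hδ]
      rw [h5, h6]
      refine (mul_le_mul_of_nonneg_left h4 (pow_nonneg hx0 _)).trans (le_of_eq ?_)
      ring
    · refine ⟨0, le_rfl, fun P X hX hHX θ hθ hl => ?_⟩
      have h1 : eval X (sp A P (Ψ i)) = 0 := by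
        have h2 : sp A P (Ψ i) = sp A P Θ * sp A P (H i') := by
          rw [hΘ]
          exact map_mul _ _ _
        rw [h2, map_mul, hHX i', mul_zero]
      rw [h1, map_zero, mul_zero, zero_mul]
  choose E hE0 hE using hsm
  obtain ⟨C, hC⟩ : ∃ C : ℝ, C = 1 + ∑ l, ∑ i, c l i * E i := ⟨_, rfl⟩
  have hC0 : 0 ≤ ∑ l, ∑ i, c l i * E i := Finset.sum_nonneg fun l _ => Finset.sum_nonneg fun i _ =>
    mul_nonneg (hc0 l i) (hE0 i)
  have hC1 : 1 ≤ C := by
    rw [hC]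
    linarith
  refine ⟨Real.log C, Real.log_nonneg hC1, fun P X hX hHX hΦX hRP θ hθ hl => ?_⟩
  obtain ⟨l', hl'⟩ : ∃ l, X l ≠ 0 := by
    by_contra hcon
    push Not at hcon
    exact hX (funext hcon)
  have : Nonempty (Fin n) := ⟨l'⟩
  obtain ⟨l₀, hl₀⟩ := exists_eq_ciSup_of_finite (f := fun l => v (X l))
  obtain ⟨S, hS⟩ : ∃ S : ℝ, S = ⨆ l, v (X l) := ⟨_, rfl⟩
  have hl2 : v (X l₀) = S := by
    rw [hS]
    exact hl₀
  have hS0 : 0 < S := by
    rw [hS]
    exact (v.pos hl').trans_le (le_ciSup (Set.finite_range fun l => v (X l)).bddAbove l')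
  obtain ⟨y, hy⟩ : ∃ y : ℝ, y = ⨆ i, v (A.x P i) := ⟨_, rfl⟩
  have hy0 : 0 < y := by
    rw [hy]
    exact W_sup_pos v P.1.rep_nonzero
  -- the identity at the point
  have key : aeval (A.x P) R * (X l₀ ^ M * eval X (sp A P Φ)) =
      ∑ i, aeval (A.x P) (r l₀ i) * eval X (sp A P (Ψ i)) := by
    have h1 : X l₀ ^ M * eval X (sp A P Φ) = eval X (sp A P (MvPolynomial.X l₀ ^ M * Φ)) := by
      rw [B3_sp, map_mul, map_pow, eval_X]
    rw [h1, R4_val A P X (B3_BH hΦ l₀).1, Finset.mul_sum]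
    have h2 : ∀ i, aeval (A.x P) (r l₀ i) * eval X (sp A P (Ψ i)) =
        ∑ c, aeval (A.x P) (r l₀ i) * (aeval (A.x P) (cf (M + k) (Ψ i) c) * ver (M + k) X c) := fun i => by
      rw [R4_val A P X (hΨk i), Finset.mul_sum]
    rw [Finset.sum_congr rfl fun i _ => h2 i, Finset.sum_comm]
    refine Finset.sum_congr rfl fun c _ => ?_
    have h3 := R0_pt A P _ (hid l₀ c)
    rw [map_sub, map_mul, map_sum, sub_eq_zero] at h3
    rw [← mul_assoc, h3, Finset.sum_mul]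
    refine Finset.sum_congr rfl fun i _ => ?_
    rw [map_mul, mul_assoc]
  have hterm : ∀ i, v (aeval (A.x P) (r l₀ i) * eval X (sp A P (Ψ i))) ≤
      c l₀ i * E i * (y ^ (ρ + δ) * S ^ (M + k) * Real.exp (-(x * θ))) := by
    intro i
    have h1 := hE i P X hX hHX θ hθ hl
    have h2 : v (aeval (A.x P) (r l₀ i)) ≤ c l₀ i * y ^ δ' i := by
      rw [hy]
      exact hc l₀ i _
    rw [← hy, ← hS] at h1
    rw [map_mul]
    calc v (aeval (A.x P) (r l₀ i)) * v (eval X (sp A P (Ψ i))) ≤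
        c l₀ i * y ^ δ' i * v (eval X (sp A P (Ψ i))) := mul_le_mul_of_nonneg_right h2 (v.nonneg _)
      _ = c l₀ i * (y ^ δ' i * v (eval X (sp A P (Ψ i)))) := by ring
      _ ≤ c l₀ i * (E i * (y ^ (ρ + δ) * S ^ (M + k) * Real.exp (-(x * θ)))) :=
        mul_le_mul_of_nonneg_left h1 (hc0 l₀ i)
      _ = _ := by ring
  have hB0 : 0 ≤ y ^ (ρ + δ) * S ^ (M + k) * Real.exp (-(x * θ)) := by positivity
  have hsum : v (aeval (A.x P) R) * (S ^ M * v (eval X (sp A P Φ))) ≤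
      C * (y ^ (ρ + δ) * S ^ (M + k) * Real.exp (-(x * θ))) := by
    have h1 : v (aeval (A.x P) R) * (S ^ M * v (eval X (sp A P Φ))) =
        v (aeval (A.x P) R * (X l₀ ^ M * eval X (sp A P Φ))) := by
      rw [map_mul, map_mul, map_pow, hl2]
    rw [h1, key]
    have h2 := v.sum_le Finset.univ fun i => aeval (A.x P) (r l₀ i) * eval X (sp A P (Ψ i))
    refine h2.trans ((Finset.sum_le_sum fun i _ => hterm i).trans ?_)
    rw [← Finset.sum_mul]
    refine mul_le_mul_of_nonneg_right ?_ hB0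
    have h5 := Finset.single_le_sum (f := fun l => ∑ i, c l i * E i)
      (fun l _ => Finset.sum_nonneg fun i _ => mul_nonneg (hc0 l i) (hE0 i)) (Finset.mem_univ l₀)
    have h6 : ∑ i, c l₀ i * E i ≤ ∑ l, ∑ i, c l i * E i := h5
    rw [hC]
    linarith
  have hfin : v (aeval (A.x P) R) * v (eval X (sp A P Φ)) ≤
      C * (y ^ ρ * y ^ δ * S ^ k * Real.exp (-(x * θ))) := by
    have hpos : 0 < S ^ M := pow_pos hS0 _
    refine le_of_mul_le_mul_left ?_ hpos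
    refine le_trans (le_of_eq ?_) (hsum.trans (le_of_eq ?_))
    · ring
    · rw [pow_add, pow_add]
      ring
  have hR0 : 0 < v (aeval (A.x P) R) := v.pos hRP
  have hΦ0 : 0 < v (eval X (sp A P Φ)) := v.pos hΦX
  have hlog := Real.log_le_log (mul_pos hR0 hΦ0) hfin
  have hC' : 0 < C := by linarith
  rw [Real.log_mul hR0.ne' hΦ0.ne', Real.log_mul hC'.ne' (by positivity), Real.log_mul (by positivity) (by positivity),
    Real.log_mul (by positivity) (by positivity), Real.log_mul (by positivity) (by positivity), Real.log_exp, Real.log_pow,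
    Real.log_pow, Real.log_pow] at hlog
  unfold lamQ
  rw [← hS, ← hy]
  linarith

end

end Pool.Agent.Lib.MP_17a322_nt.VE
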