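import Pool.Agent.Lib.MP_17a322_nt.VE.Defs
import Pool.Agent.Lib.MP_17a322_nt.EF.W7

/-!
Mean vanishing orders: the inequality for finitely many lists of forms.
-/

universe u

namespace Pool.Agent.Lib.MP_17a322_nt.VE

open MvPolynomial Height
open Pool.Agent.Lib.MP_17a322_nt.VA
open Pool.Agent.Lib.MP_17a322_nt.SL
open Pool.Agent.Lib.MP_17a322_nt.EF

section

variable {K : Type u} [Field K] [NumberField K] {N : ℕ} (A : AV K N) {n m s w : ℕ}

omit [NumberField K] in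
/-- Multiplication by a power of a coordinate of `A` makes the local height larger. -/
private theorem B4_lam (v : AbsoluteValue K ℝ) {D k c : ℕ} (a : Fin (N + 1))
    (Q : MvPolynomial (Fin n) (MvPolynomial (Fin (N + 1)) K)) (P : A.Pts K) (X₁ : Fin n → K)
    (ha : A.x P a ≠ 0) (hQ : eval X₁ (sp A P Q) ≠ 0) :
    lamQ A v D k Q P X₁ ≤ lamQ A v (c + D) k (C (X a ^ c) * Q) P X₁ := by
  unfold lamQ
  have h1 : eval X₁ (sp A P (C (X a ^ c) * Q)) = A.x P a ^ c * eval X₁ (sp A P Q) := by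
    rw [sp_mul, sp_C, map_mul, eval_C, map_pow, aeval_X]
  rw [h1, map_mul, map_pow, Real.log_mul (pow_ne_zero _ (v.ne_zero ha)) (v.ne_zero hQ),
    Real.log_pow]
  have h2 : Real.log (v (A.x P a)) ≤ Real.log (⨆ i, v (A.x P i)) :=
    Real.log_le_log (v.pos ha) (le_ciSup (f := fun i => v (A.x P i))
      (Set.finite_range _).bddAbove a)
  push_cast
  have h3 : (c : ℝ) * Real.log (v (A.x P a)) ≤ c * Real.log (⨆ i, v (A.x P i)) :=
    mul_le_mul_of_nonneg_left h2 (Nat.cast_nonneg _)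
  linarith

/-- The inequality for one choice of the lists. -/
private theorem B4_one (Γ : AddSubgroup (A.Pts K)) (hΓ : Γ.FG)
    (H : Fin m → MvPolynomial (Fin n) (MvPolynomial (Fin (N + 1)) K))
    (hpr : ∀ (L : Type u) [Field L] [IsAlgClosed L] [Algebra K L] (P : A.Pts L), Gen A P →
      (fib A H P).IsPrime) {k : ℕ} {L : Type u} [Field L] [Algebra K L] (P₀ : A.Pts L)
    (hP₀ : Gen A P₀) {g' r : ℕ}
    (G' : Matrix (Fin g') (Fin (Mo n k).card) (MvPolynomial (Fin (N + 1)) K))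
    (hG' : IsRows A H k G') (hgr : g' + r = (Mo n k).card) (hr : 0 < r) {e : ℕ}
    (δ : Fin e → ℕ)
    (Φ : Fin e → Fin r → MvPolynomial (Fin n) (MvPolynomial (Fin (N + 1)) K))
    (hΦ : ∀ a i, BH (δ a) k (Φ a i))
    (hind : ∀ a, ∀ b : Fin r → L, ∑ i, C (b i) * sp A P₀ (Φ a i) ∈ fib A H P₀ → b = 0)
    (S : Finset (NumberField.FinitePlace K)) {ε : ℝ} (hε : 0 < ε)
    (ai : NumberField.InfinitePlace K → Fin e) (af : NumberField.FinitePlace K → Fin e) :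
    ∃ (C : ℝ) (F : MvPolynomial (Fin n) (MvPolynomial (Fin (N + 1)) K)), ExcF A H F ∧
      ∀ P ∈ Γ, ∀ X : Fin n → K, X ≠ 0 → (∀ i, eval X (sp A P (H i)) = 0) →
        eval X (sp A P F) ≠ 0 →
        ((∀ v i, eval X (sp A P (Φ (ai v) i)) ≠ 0) ∧
          ∀ v ∈ S, ∀ i, eval X (sp A P (Φ (af v) i)) ≠ 0) ∧
        SS S (fun v => ∑ i, lamQ A v.val (δ (ai v)) k (Φ (ai v) i) P X)
            (fun v => ∑ i, lamQ A v.val (δ (af v)) k (Φ (af v) i) P X) +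
          hE A G' P ≤
          r * (k * logHeight X) + ε * (k * logHeight X + logHeight (A.x P)) + C := by
  classical
  obtain ⟨a₀, ha₀⟩ := x_ne' A P₀
  obtain ⟨D', hD'⟩ := hG'.1
  -- equal degrees
  obtain ⟨Δ, hΔ⟩ : ∃ Δ : ℕ, Δ = ∑ a, δ a := ⟨_, rfl⟩
  have hδΔ : ∀ a, δ a ≤ Δ := fun a => by
    rw [hΔ]
    exact Finset.single_le_sum (f := δ) (fun _ _ => Nat.zero_le _) (Finset.mem_univ a)
  obtain ⟨Ψ, hΨ⟩ : ∃ Ψ : Fin e × Fin r → MvPolynomial (Fin n) (MvPolynomial (Fin (N + 1)) K),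
      Ψ = fun z => C (X a₀ ^ (Δ - δ z.1)) * Φ z.1 z.2 := ⟨_, rfl⟩
  have hΨB : ∀ z, BH Δ k (Ψ z) := by
    intro z
    rw [hΨ]
    have h1 : (X a₀ ^ (Δ - δ z.1) : MvPolynomial (Fin (N + 1)) K).IsHomogeneous (Δ - δ z.1) := by
      have h2 := (isHomogeneous_X K a₀).pow (Δ - δ z.1)
      rwa [one_mul] at h2
    have h3 := E1_bh_mul (E1_bh_C (n := n) h1) (hΦ z.1 z.2)
    rw [zero_add, Nat.sub_add_cancel (hδΔ z.1)] at h3
    exact h3
  have hΨsp : ∀ z, sp A P₀ (Ψ z) = C (A.x P₀ a₀ ^ (Δ - δ z.1)) * sp A P₀ (Φ z.1 z.2) := by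
    intro z
    rw [hΨ, sp_mul, sp_C, map_pow, aeval_X]
  obtain ⟨E⟩ : Nonempty (Fin e × Fin r ≃ Fin (Fintype.card (Fin e × Fin r))) :=
    ⟨Fintype.equivFin _⟩
  obtain ⟨J, hJ⟩ : ∃ J : Fin e → Finset (Fin (Fintype.card (Fin e × Fin r))),
      J = fun a => Finset.univ.map ⟨fun i : Fin r => E (a, i), fun i j hij => by
        have h1 := E.injective hij
        exact (Prod.mk.inj h1).2⟩ := ⟨_, rfl⟩
  have hsum : ∀ (a : Fin e) (F : Fin (Fintype.card (Fin e × Fin r)) → MvPolynomial (Fin n) L),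
      ∑ j ∈ J a, F j = ∑ i, F (E (a, i)) := by
    intro a F
    rw [hJ, Finset.sum_map]
    rfl
  have hsumR : ∀ (a : Fin e) (F : Fin (Fintype.card (Fin e × Fin r)) → ℝ),
      ∑ j ∈ J a, F j = ∑ i, F (E (a, i)) := by
    intro a F
    rw [hJ, Finset.sum_map]
    rfl
  have hmem : ∀ a i, E (a, i) ∈ J a := by
    intro a i
    rw [hJ]
    exact Finset.mem_map.2 ⟨i, Finset.mem_univ _, rfl⟩
  have hInd : ∀ a, ∀ T' ⊆ J a, Ind A G' (Matrix.of fun j => cf k (Ψ (E.symm j))) T' := by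
    intro a
    refine T_ind A H k G' hG' (fun j => Ψ (E.symm j)) (fun j => hΨB _) (J a) P₀ hP₀ ?_
    intro b hb j hj
    rw [hsum] at hb
    have h1 : ∑ i, C (b (E (a, i))) * sp A P₀ (Ψ (E.symm (E (a, i)))) =
        ∑ i, C (b (E (a, i)) * A.x P₀ a₀ ^ (Δ - δ a)) * sp A P₀ (Φ a i) := by
      refine Finset.sum_congr rfl fun i _ => ?_
      rw [Equiv.symm_apply_apply, hΨsp, ← mul_assoc, ← C_mul]
    rw [h1] at hb
    have h2 := hind a _ hb
    rw [hJ] at hj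
    obtain ⟨i, -, rfl⟩ := Finset.mem_map.1 hj
    have h3 := congrFun h2 i
    exact (mul_eq_zero.1 h3).resolve_right (pow_ne_zero _ ha₀)
  obtain ⟨v₀⟩ : Nonempty (NumberField.InfinitePlace K) := inferInstance
  obtain ⟨C₀, F, hF, hmain⟩ := SL_final A Γ hΓ hgr hr Δ D' G' hD'
    (Matrix.of fun j => cf k (Ψ (E.symm j))) (fun j l => (hΨB _).2 _) S
    (fun v => J (ai v)) (fun v => J (af v))
    (fun v T' hT' _ => hInd _ T' hT') (fun v hv T' hT' _ => hInd _ T' hT')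
    (hInd (ai v₀) ∅ (Finset.empty_subset _)) ε hε
  have hxe : ExcF A H (C (X a₀) : MvPolynomial (Fin n) (MvPolynomial (Fin (N + 1)) K)) :=
    ExcF_C A H hpr (isHomogeneous_X K a₀) fun h0 => by
      have h1 := R0_pt A P₀ _ h0
      rw [aeval_X] at h1
      exact ha₀ h1
  refine ⟨C₀, pull n k F * C (X a₀), ExcF_mul A H hpr (pull_exc A H k G' hG' hpr F hF) hxe,
    fun P hP X₁ hX hXH hXF => ?_⟩
  rw [sp_mul, map_mul, sp_C, eval_C, aeval_X] at hXF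
  have ha : A.x P a₀ ≠ 0 := right_ne_zero_of_mul hXF
  have hXF' := left_ne_zero_of_mul hXF
  rw [pull_eval] at hXF'
  obtain ⟨h1, h2⟩ := hmain P hP (ver k X₁) (ver_ne hX) (hG'.2.2 K P X₁ hXH) hXF'
  rw [ver_height hX] at h2
  -- the values
  have hval : ∀ z, ∑ l, aeval (A.x P) ((Matrix.of fun j => cf k (Ψ (E.symm j))) (E z) l) *
      ver k X₁ l = A.x P a₀ ^ (Δ - δ z.1) * eval X₁ (sp A P (Φ z.1 z.2)) := by
    intro z
    have h3 := R4_val A P X₁ (hΨB z).1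
    have h4 : eval X₁ (sp A P (Ψ z)) = A.x P a₀ ^ (Δ - δ z.1) * eval X₁ (sp A P (Φ z.1 z.2)) := by
      rw [hΨ, sp_mul, sp_C, map_mul, eval_C, map_pow, aeval_X]
    rw [← h4, h3]
    refine Finset.sum_congr rfl fun l _ => ?_
    simp only [Matrix.of_apply, Equiv.symm_apply_apply]
  have hne : ∀ a, (∀ i, (∑ l, aeval (A.x P)
      ((Matrix.of fun j => cf k (Ψ (E.symm j))) (E (a, i)) l) * ver k X₁ l) ≠ 0) →
      ∀ i, eval X₁ (sp A P (Φ a i)) ≠ 0 := by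
    intro a h3 i h4
    apply h3 i
    rw [hval, h4, mul_zero]
  have hi : ∀ v i, eval X₁ (sp A P (Φ (ai v) i)) ≠ 0 := fun v =>
    hne _ fun i => h1 _ (Or.inl ⟨v, hmem _ i⟩)
  have hf : ∀ v ∈ S, ∀ i, eval X₁ (sp A P (Φ (af v) i)) ≠ 0 := fun v hv =>
    hne _ fun i => h1 _ (Or.inr ⟨v, hv, hmem _ i⟩)
  have hlam : ∀ (v : AbsoluteValue K ℝ) (a : Fin e), (∀ i, eval X₁ (sp A P (Φ a i)) ≠ 0) →
      ∑ i, lamQ A v (δ a) k (Φ a i) P X₁ ≤
        ∑ j ∈ J a, lam A v Δ ((Matrix.of fun j => cf k (Ψ (E.symm j))) j) P (ver k X₁) := by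
    intro v a h3
    rw [hsumR]
    refine Finset.sum_le_sum fun i _ => ?_
    have h4 := B4_lam A v (D := δ a) (k := k) (c := Δ - δ a) a₀ (Φ a i) P X₁ ha (h3 i)
    refine h4.trans (le_of_eq ?_)
    unfold lamQ SL.lam
    have h5 : eval X₁ (sp A P (C (X a₀ ^ (Δ - δ a)) * Φ a i)) =
        A.x P a₀ ^ (Δ - δ a) * eval X₁ (sp A P (Φ a i)) := by
      rw [sp_mul, sp_C, map_mul, eval_C, map_pow, aeval_X]
    rw [h5, hval (a, i), Nat.sub_add_cancel (hδΔ a)]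
    have h6 : (⨆ l, v (ver k X₁ l)) = (⨆ l, v (X₁ l)) ^ k := ver_sup v hX
    rw [h6, Real.log_pow]
  refine ⟨⟨hi, hf⟩, le_trans ?_ h2⟩
  unfold SS
  refine add_le_add (add_le_add ?_ ?_) le_rfl
  · exact Finset.sum_le_sum fun v _ => mul_le_mul_of_nonneg_left (hlam v.val _ (hi v))
      (Nat.cast_nonneg _)
  · exact Finset.sum_le_sum fun v hv => hlam v.val _ (hf v hv)

/-- The inequality for finitely many lists of forms. -/
theorem core (Γ : AddSubgroup (A.Pts K)) (hΓ : Γ.FG)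
    (H : Fin m → MvPolynomial (Fin n) (MvPolynomial (Fin (N + 1)) K))
    (hpr : ∀ (L : Type u) [Field L] [IsAlgClosed L] [Algebra K L] (P : A.Pts L), Gen A P →
      (fib A H P).IsPrime) {k : ℕ} {L : Type u} [Field L] [Algebra K L] (P₀ : A.Pts L)
    (hP₀ : Gen A P₀) {g' r : ℕ}
    (G' : Matrix (Fin g') (Fin (Mo n k).card) (MvPolynomial (Fin (N + 1)) K))
    (hG' : IsRows A H k G') (hgr : g' + r = (Mo n k).card) (hr : 0 < r) {e : ℕ}
    (δ : Fin e → ℕ)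
    (Φ : Fin e → Fin r → MvPolynomial (Fin n) (MvPolynomial (Fin (N + 1)) K))
    (hΦ : ∀ a i, BH (δ a) k (Φ a i))
    (hind : ∀ a, ∀ b : Fin r → L, ∑ i, C (b i) * sp A P₀ (Φ a i) ∈ fib A H P₀ → b = 0)
    (S : Finset (NumberField.FinitePlace K)) {ε : ℝ} (hε : 0 < ε) :
    ∃ (C : ℝ) (F : MvPolynomial (Fin n) (MvPolynomial (Fin (N + 1)) K)), ExcF A H F ∧
      ∀ P ∈ Γ, ∀ X : Fin n → K, X ≠ 0 → (∀ i, eval X (sp A P (H i)) = 0) →
        eval X (sp A P F) ≠ 0 →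
        ∀ (ai : NumberField.InfinitePlace K → Fin e) (af : NumberField.FinitePlace K → Fin e),
        ((∀ v i, eval X (sp A P (Φ (ai v) i)) ≠ 0) ∧
          ∀ v ∈ S, ∀ i, eval X (sp A P (Φ (af v) i)) ≠ 0) ∧
        SS S (fun v => ∑ i, lamQ A v.val (δ (ai v)) k (Φ (ai v) i) P X)
            (fun v => ∑ i, lamQ A v.val (δ (af v)) k (Φ (af v) i) P X) +
          hE A G' P ≤
          r * (k * logHeight X) + ε * (k * logHeight X + logHeight (A.x P)) + C := by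
  classical
  rcases Nat.eq_zero_or_pos e with he | he
  · subst he
    exact ⟨0, 1, ExcF_one A H hpr, fun P _ X _ _ _ ai _ =>
      (ai (Classical.arbitrary _)).elim0⟩
  obtain ⟨a₀⟩ : Nonempty (Fin e) := ⟨⟨0, he⟩⟩
  have _ : Finite (S → Fin e) := inferInstance
  have _ : Finite (NumberField.InfinitePlace K → Fin e) := inferInstance
  let _ : Fintype ((NumberField.InfinitePlace K → Fin e) × (S → Fin e)) := Fintype.ofFinite _
  obtain ⟨ext, hext⟩ : ∃ ext : (S → Fin e) → NumberField.FinitePlace K → Fin e,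
      ∀ f v (hv : v ∈ S), ext f v = f ⟨v, hv⟩ :=
    ⟨fun f v => if hv : v ∈ S then f ⟨v, hv⟩ else a₀, fun f v hv => dif_pos hv⟩
  obtain ⟨C, F, hF, h1⟩ := exc_all A
    (Finset.univ : Finset ((NumberField.InfinitePlace K → Fin e) × (S → Fin e))) H hpr
    (fun τ C P X => P ∈ Γ → X ≠ 0 → (∀ i, eval X (sp A P (H i)) = 0) →
        ((∀ v i, eval X (sp A P (Φ (τ.1 v) i)) ≠ 0) ∧
          ∀ v ∈ S, ∀ i, eval X (sp A P (Φ (ext τ.2 v) i)) ≠ 0) ∧
        SS S (fun v => ∑ i, lamQ A v.val (δ (τ.1 v)) k (Φ (τ.1 v) i) P X)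
            (fun v => ∑ i, lamQ A v.val (δ (ext τ.2 v)) k (Φ (ext τ.2 v) i) P X) +
          hE A G' P ≤
          r * (k * logHeight X) + ε * (k * logHeight X + logHeight (A.x P)) + C)
    (fun τ C C' P X hC h2 hP hX hXH => ⟨(h2 hP hX hXH).1,
      (h2 hP hX hXH).2.trans (by linarith)⟩)
    (fun τ _ => by
      obtain ⟨C, F, hF, h2⟩ := B4_one A Γ hΓ H hpr P₀ hP₀ G' hG' hgr hr δ Φ hΦ hind S hε
        τ.1 (ext τ.2)
      exact ⟨C, F, hF, fun P X h3 hP hX hXH => h2 P hP X hX hXH h3⟩)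
  refine ⟨C, F, hF, fun P hP X hX hXH hXF ai af => ?_⟩
  have h3 : ∀ v ∈ S, ext (fun v => af v) v = af v := fun v hv => hext _ v hv
  obtain ⟨⟨h4, h5⟩, h6⟩ := h1 P X hXF (ai, fun v => af v) (Finset.mem_univ _) hP hX hXH
  simp only at h4 h5 h6
  refine ⟨⟨h4, fun v hv i => by rw [← h3 v hv]; exact h5 v hv i⟩, le_trans (le_of_eq ?_) h6⟩
  unfold SS
  refine congrArg₂ _ (congrArg₂ _ rfl (Finset.sum_congr rfl fun v hv => ?_)) rfl
  simp only [h3 v hv]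

end

end Pool.Agent.Lib.MP_17a322_nt.VE
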