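import Pool.Agent.Lib.MP_17a322_nt.VE.A5
import Pool.Agent.Lib.MP_17a322_nt.EF.T2
import Pool.Agent.Lib.MP_17a322_nt.EF.C4
import Pool.Agent.Lib.MP_17a322_nt.EF.R3

/-!
Mean vanishing orders: numbers, transfer between generic points, the lists.
-/

universe u

namespace Pool.Agent.Lib.MP_17a322_nt.VE

open MvPolynomial Height
open Pool.Agent.Lib.MP_17a322_nt.VA
open Pool.Agent.Lib.MP_17a322_nt.SL
open Pool.Agent.Lib.MP_17a322_nt.EF

/-- The weights. -/
theorem B5_num {s : ℕ} (U : Finset (Fin s)) (β lam : Fin s → ℝ) (S' w : Fin s → ℕ)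
    {θ Λ δ κ : ℝ} (hβ0 : ∀ j, 0 ≤ β j) (hS : ∀ j, (β j - δ) * κ ≤ S' j) (hκ : 0 ≤ κ)
    (hδ : 0 ≤ δ) (hθ : 0 ≤ θ) (hΛ0 : 0 ≤ Λ) (hΛ : ∀ j ∈ U, 0 < β j → lam j ≤ Λ)
    (hw : ∀ j ∈ U, 0 < β j → lam j ≤ θ * (w j + 1)) :
    κ * (∑ j ∈ U, β j * lam j - s * δ * Λ - (∑ j, β j) * θ) ≤
      θ * ∑ j ∈ U.filter (fun j => 0 < β j), (w j : ℝ) * S' j := by
  classical
  have h1 : ∑ j ∈ U, β j * lam j = ∑ j ∈ U.filter (fun j => 0 < β j), β j * lam j := by
    rw [Finset.sum_filter]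
    refine Finset.sum_congr rfl fun j _ => ?_
    split_ifs with h
    · rfl
    · have h2 : β j = 0 := le_antisymm (not_lt.1 h) (hβ0 j)
      rw [h2, zero_mul]
  have h2 : ∀ j ∈ U.filter (fun j => 0 < β j),
      κ * (β j * lam j - δ * Λ - β j * θ) ≤ θ * ((w j : ℝ) * S' j) := by
    intro j hj
    obtain ⟨hjU, hjβ⟩ := Finset.mem_filter.1 hj
    obtain ⟨σ, hσ⟩ : ∃ σ : ℝ, σ = max (β j - δ) 0 := ⟨_, rfl⟩
    have hσ0 : 0 ≤ σ := by rw [hσ]; exact le_max_right _ _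
    have hσ1 : β j - δ ≤ σ := by rw [hσ]; exact le_max_left _ _
    have hσ2 : σ ≤ β j := by
      rw [hσ]
      exact max_le (by linarith) (hβ0 j)
    have hσS : σ * κ ≤ S' j := by
      rw [hσ]
      rcases le_total (β j - δ) 0 with h | h
      · rw [max_eq_right h, zero_mul]
        exact Nat.cast_nonneg _
      · rw [max_eq_left h]
        exact hS j
    have h3 : lam j - θ ≤ θ * w j := by
      have := hw j hjU hjβ
      linarith
    have h4 : 0 ≤ θ * w j := mul_nonneg hθ (Nat.cast_nonneg _)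
    have h5 : θ * w j * (σ * κ) ≤ θ * w j * S' j := mul_le_mul_of_nonneg_left hσS h4
    have h6 : (lam j - θ) * (σ * κ) ≤ θ * w j * (σ * κ) :=
      mul_le_mul_of_nonneg_right h3 (mul_nonneg hσ0 hκ)
    have h7 : β j * lam j - δ * Λ - β j * θ ≤ (lam j - θ) * σ := by
      have h8 : (β j - σ) * lam j ≤ δ * Λ := by
        have h9 : (β j - σ) * lam j ≤ (β j - σ) * Λ :=
          mul_le_mul_of_nonneg_left (hΛ j hjU hjβ) (by linarith)
        have h10 : (β j - σ) * Λ ≤ δ * Λ := mul_le_mul_of_nonneg_right (by linarith) hΛ0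
        linarith
      have h11 : σ * θ ≤ β j * θ := mul_le_mul_of_nonneg_right hσ2 hθ
      linarith
    have h8 := mul_le_mul_of_nonneg_left h7 hκ
    calc κ * (β j * lam j - δ * Λ - β j * θ) ≤ κ * ((lam j - θ) * σ) := h8
      _ = (lam j - θ) * (σ * κ) := by ring
      _ ≤ θ * w j * S' j := h6.trans h5
      _ = θ * ((w j : ℝ) * S' j) := by ring
  have h3 := Finset.sum_le_sum h2
  rw [← Finset.mul_sum, ← Finset.mul_sum, Finset.sum_sub_distrib, Finset.sum_sub_distrib,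
    Finset.sum_const, nsmul_eq_mul, ← Finset.sum_mul (f := β)] at h3
  refine le_trans (mul_le_mul_of_nonneg_left ?_ hκ) h3
  rw [h1]
  have h4 : ((U.filter (fun j => 0 < β j)).card : ℝ) ≤ s := by
    have h5 := Finset.card_le_univ (U.filter (fun j => 0 < β j))
    rw [Fintype.card_fin] at h5
    exact_mod_cast h5
  have h5 : ((U.filter (fun j => 0 < β j)).card : ℝ) * (δ * Λ) ≤ s * (δ * Λ) :=
    mul_le_mul_of_nonneg_right h4 (mul_nonneg hδ hΛ0)
  have h6 : (∑ j ∈ U.filter (fun j => 0 < β j), β j) * θ ≤ (∑ j, β j) * θ :=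
    mul_le_mul_of_nonneg_right (Finset.sum_le_sum_of_subset_of_nonneg (Finset.subset_univ _)
      fun j _ _ => hβ0 j) hθ
  linarith

/-- Ideals without mean vanishing order. -/
theorem B5_pos {L : Type*} [Field L] {n : ℕ} {I J : Ideal (MvPolynomial (Fin n) L)}
    (hI : I.IsPrime) (hX : ∃ l, (X l : MvPolynomial (Fin n) L) ∉ I) {b : ℝ}
    (hb : MeanGe I J b) (hb0 : 0 < b) : ¬ J ≤ I := by
  intro hJ
  obtain ⟨k₀, hk₀⟩ := hb (b / 2) (half_pos hb0)
  obtain ⟨M, hM⟩ := hk₀ (k₀ + 1) (Nat.le_succ _)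
  have h1 : ∀ m, dm I (sat (I ⊔ J ^ (m + 1))) (k₀ + 1) = 0 := by
    intro m
    have h2 : I ⊔ J ^ (m + 1) = I := sup_eq_left.2 ((Ideal.pow_le_self (Nat.succ_ne_zero m)).trans hJ)
    rw [h2, sat_eq_prime hI hX]
    unfold dm
    have h3 : (homogeneousSubmodule (Fin n) L (k₀ + 1) ⊓ I.restrictScalars L).map
        (Ideal.Quotient.mkₐ L I).toLinearMap = ⊥ := by
      rw [Submodule.eq_bot_iff]
      rintro _ ⟨f, ⟨-, hf⟩, rfl⟩
      exact Ideal.Quotient.eq_zero_iff_mem.2 hf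
    rw [h3]
    exact finrank_bot L _
  simp only [h1, Nat.cast_zero, Finset.sum_const_zero] at hM
  have h2 : (0 : ℝ) < (b - b / 2) * (((k₀ + 1 : ℕ) : ℝ) * rk I (k₀ + 1)) := by
    have h3 := C4_pos I hX (k := k₀ + 1) (by omega)
    have h4 : (0 : ℝ) < rk I (k₀ + 1) := by exact_mod_cast h3
    have h5 : 0 < b - b / 2 := by linarith
    positivity
  linarith

section

variable {K : Type u} [Field K] {N : ℕ} (A : AV K N) {n m s w : ℕ}

/-- Membership in the ideal of the fibre at one generic point implies it at all. -/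
theorem B5_mem (H : Fin m → MvPolynomial (Fin n) (MvPolynomial (Fin (N + 1)) K))
    (hH : ∀ i, ∃ a b : ℕ, BH a b (H i)) {D d : ℕ}
    {Q : MvPolynomial (Fin n) (MvPolynomial (Fin (N + 1)) K)} (hQ : BH D d Q)
    {L L' : Type u} [Field L] [Algebra K L] [Field L'] [Algebra K L'] {P : A.Pts L}
    {P' : A.Pts L'} (hP : Gen A P) (hP' : Gen A P') (h : sp A P Q ∈ fib A H P) :
    sp A P' Q ∈ fib A H P' := by
  obtain ⟨g', G', ⟨D', hD'⟩, hG, -⟩ := T_rows A H hH d
  obtain ⟨-, h1⟩ := hG L P hP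
  obtain ⟨-, h2⟩ := hG L' P' hP'
  rw [h1 _ (show (EF.sp A P Q).IsHomogeneous d from hQ.1.map _)] at h
  rw [h2 _ (show (EF.sp A P' Q).IsHomogeneous d from hQ.1.map _)]
  have h3 : ∀ {L : Type u} [Field L] [Algebra K L] (P : A.Pts L),
      cf d (sp A P Q) = fun l => aeval (A.x P) (cf d Q l) := fun P => by
    funext l
    exact R3_cf A P Q l
  rw [h3] at h ⊢
  exact T_span A G' (fun _ => D') hD' (fun l => cf d Q l) D (fun l => hQ.2 _) P P' hP hP' h

end

section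

variable {s : ℕ}

/-- The list of the indices in `U` with the weights `w j > 0`, for `β j > 0`. -/
noncomputable def lst (β : Fin s → ℝ) (U : Finset (Fin s)) (w : Fin s → ℕ) : List (Fin s × ℕ) :=
  open Classical in (U.filter fun j => 0 < β j ∧ 0 < w j).toList.map fun j => (j, w j)

theorem lst_mem {β : Fin s → ℝ} {U : Finset (Fin s)} {w : Fin s → ℕ} {p : Fin s × ℕ} :
    p ∈ lst β U w ↔ p.1 ∈ U ∧ 0 < β p.1 ∧ 0 < w p.1 ∧ p.2 = w p.1 := by
  classical
  unfold lst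
  rw [List.mem_map]
  constructor
  · rintro ⟨j, hj, rfl⟩
    obtain ⟨h1, h2, h3⟩ := Finset.mem_filter.1 (Finset.mem_toList.1 hj)
    exact ⟨h1, h2, h3, rfl⟩
  · rintro ⟨h1, h2, h3, h4⟩
    exact ⟨p.1, Finset.mem_toList.2 (Finset.mem_filter.2 ⟨h1, h2, h3⟩), Prod.ext rfl h4.symm⟩

theorem lst_nodup (β : Fin s → ℝ) (U : Finset (Fin s)) (w : Fin s → ℕ) :
    ((lst β U w).map Prod.fst).Nodup := by
  classical
  unfold lst
  rw [List.map_map]
  have h1 : (Prod.fst ∘ fun j : Fin s => (j, w j)) = id := rfl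
  rw [h1, List.map_id]
  exact Finset.nodup_toList _

theorem lst_sum (β : Fin s → ℝ) (U : Finset (Fin s)) (w S' : Fin s → ℕ) :
    (((lst β U w).map fun p => p.2 * S' p.1).sum : ℕ) =
      open Classical in ∑ j ∈ U.filter (fun j => 0 < β j), w j * S' j := by
  classical
  unfold lst
  rw [List.map_map, Finset.sum_map_toList (U.filter fun j => 0 < β j ∧ 0 < w j)
    ((fun p : Fin s × ℕ => p.2 * S' p.1) ∘ fun j => (j, w j))]
  have h1 : U.filter (fun j => 0 < β j ∧ 0 < w j) ⊆ U.filter (fun j => 0 < β j) := by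
    intro j hj
    obtain ⟨h2, h3, -⟩ := Finset.mem_filter.1 hj
    exact Finset.mem_filter.2 ⟨h2, h3⟩
  refine Finset.sum_subset h1 fun j hj hj' => ?_
  obtain ⟨h2, h3⟩ := Finset.mem_filter.1 hj
  have h4 : w j = 0 := by
    by_contra h5
    exact hj' (Finset.mem_filter.2 ⟨h2, h3, Nat.pos_of_ne_zero h5⟩)
  show w j * S' j = 0
  rw [h4, zero_mul]

end

end Pool.Agent.Lib.MP_17a322_nt.VE
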