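import Pool.Agent.Lib.MP_17a322_nt.VE.Defs
import Pool.Agent.Lib.MP_17a322_nt.VJ.A4
import Pool.Agent.Lib.MP_17a322_nt.EF.W1

/-!
Mean vanishing orders: the upper bound of the local heights.
-/

universe u

namespace Pool.Agent.Lib.MP_17a322_nt.VE

open MvPolynomial Height
open Pool.Agent.Lib.MP_17a322_nt.VA
open Pool.Agent.Lib.MP_17a322_nt.SL
open Pool.Agent.Lib.MP_17a322_nt.EF
open Pool.Agent.Lib.MP_17a322_nt.VJ (cst gs FS Pl FS_add FS_sub FS_const_mul FS_log_cst FS_log_abv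
  FS_log_iSup gs_add gs_sub gs_const_mul gs_nonneg gs_log_abv gs_log_iSup)

section

private theorem B6_cst_one {L : Type*} [Field L] (v : AbsoluteValue L ℝ) {n : ℕ} (hn : 1 ≤ n) :
    1 ≤ cst v n := by
  unfold cst
  split_ifs
  · exact le_rfl
  · exact_mod_cast hn

private theorem B6_cst_mono {L : Type*} [Field L] (v : AbsoluteValue L ℝ) {n m : ℕ} (h : n ≤ m) :
    cst v n ≤ cst v m := by
  unfold cst
  split_ifs
  · exact le_rfl
  · exact_mod_cast h

private theorem B6_sum {L : Type*} [Field L] (v : AbsoluteValue L ℝ) {ι : Type*} (s : Finset ι)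
    (a : ι → L) {B : ℝ} (hB : 0 ≤ B) (h : ∀ j ∈ s, v (a j) ≤ B) :
    v (∑ j ∈ s, a j) ≤ cst v s.card * B := by
  classical
  unfold cst
  split_ifs with hv
  · rw [one_mul]
    induction s using Finset.induction_on with
    | empty => simpa using hB
    | insert i s hi ih =>
      rw [Finset.sum_insert hi]
      exact (hv _ _).trans (max_le (h i (Finset.mem_insert_self i s))
        (ih fun j hj => h j (Finset.mem_insert_of_mem hj)))
  · refine (v.sum_le _ _).trans ((Finset.sum_le_sum h).trans (le_of_eq ?_))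
    rw [Finset.sum_const, nsmul_eq_mul]

private theorem B6_single {K : Type*} [Field K] [AdmissibleAbsValues K] {f : AbsoluteValue K ℝ → ℝ}
    (hf : FS f) (h0 : ∀ v, Pl v → 0 ≤ f v) {v₀ : AbsoluteValue K ℝ} (hv : Pl v₀) :
    f v₀ ≤ gs f := by
  classical
  obtain ⟨S, hS⟩ : ∃ S : ℝ, S = ∑ᶠ v : AdmissibleAbsValues.nonarchAbsVal (K := K), f v.val :=
    ⟨_, rfl⟩
  have hS0 : 0 ≤ S := by
    rw [hS]
    exact finsum_nonneg fun v => h0 v.val (Or.inr v.2)
  have hA0 : 0 ≤ (AdmissibleAbsValues.archAbsVal (K := K) |>.map f).sum := by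
    refine Multiset.sum_nonneg fun x hx => ?_
    obtain ⟨v, hv, rfl⟩ := Multiset.mem_map.1 hx
    exact h0 v (Or.inl hv)
  rcases hv with hv | hv
  · have h1 : f v₀ ≤ (AdmissibleAbsValues.archAbsVal (K := K) |>.map f).sum := by
      refine Multiset.single_le_sum (fun x hx => ?_) _ (Multiset.mem_map_of_mem f hv)
      obtain ⟨v, hv, rfl⟩ := Multiset.mem_map.1 hx
      exact h0 v (Or.inl hv)
    unfold gs
    rw [← hS]
    linarith
  · have h1 : f v₀ ≤ S := by
      rw [hS]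
      exact single_le_finsum (⟨v₀, hv⟩ : AdmissibleAbsValues.nonarchAbsVal (K := K)) hf
        fun v => h0 v.val (Or.inr v.2)
    unfold gs
    rw [← hS]
    linarith

end

section

variable {K : Type u} [Field K] {N : ℕ} (A : AV K N) {n m s w : ℕ}

private theorem B6_bound {D d M : ℕ} {Q : MvPolynomial (Fin n) (MvPolynomial (Fin (N + 1)) K)}
    (hQ : BH D d Q) (hM : ∑ μ ∈ Q.support, (coeff μ Q).support.card ≤ M)
    (v : AbsoluteValue K ℝ) {B : ℝ} (hB : 0 ≤ B)
    (h : ∀ μ ∈ Q.support, ∀ e ∈ (coeff μ Q).support, v (coeff e (coeff μ Q)) ≤ B)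
    (P : A.Pts K) (X : Fin n → K) :
    v (eval X (sp A P Q)) ≤
      cst v M * B * ((⨆ i, v (A.x P i)) ^ D * (⨆ l, v (X l)) ^ d) := by
  classical
  have h0 : 0 ≤ ⨆ i, v (A.x P i) := Real.iSup_nonneg fun i => v.nonneg _
  have h1 : 0 ≤ ⨆ l, v (X l) := Real.iSup_nonneg fun i => v.nonneg _
  have h2 : eval X (sp A P Q) = ∑ p ∈ Q.support.sigma fun μ => (coeff μ Q).support,
      coeff p.2 (coeff p.1 Q) * (∏ i, A.x P i ^ p.2 i) * ∏ l, X l ^ p.1 l := by
    rw [sp, eval_map, eval₂_eq', Finset.sum_sigma]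
    refine Finset.sum_congr rfl fun μ _ => ?_
    have h3 : (aeval (A.x P)).toRingHom (coeff μ Q) = ∑ e ∈ (coeff μ Q).support,
        coeff e (coeff μ Q) * ∏ i, A.x P i ^ e i := by
      change aeval (A.x P) (coeff μ Q) = _
      rw [aeval_def, eval₂_eq']
      rfl
    rw [h3, Finset.sum_mul]
  rw [h2, mul_assoc]
  have h3 : (Q.support.sigma fun μ => (coeff μ Q).support).card ≤ M := by
    rw [Finset.card_sigma]
    exact hM
  refine (B6_sum v _ _ (B := B * ((⨆ i, v (A.x P i)) ^ D * (⨆ l, v (X l)) ^ d)) (by positivity)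
    ?_).trans ?_
  · intro p hp
    rw [Finset.mem_sigma] at hp
    rw [map_mul, map_mul, mul_assoc]
    refine mul_le_mul (h _ hp.1 _ hp.2) ?_ (by positivity) hB
    exact mul_le_mul (W_mon_le v _ _ (W_supp (hQ.2 _) hp.2)) (W_mon_le v X _ (W_supp hQ.1 hp.1))
      (v.nonneg _) (by positivity)
  · exact mul_le_mul_of_nonneg_right (B6_cst_mono v h3) (by positivity)

end

section

variable {K : Type u} [Field K] [NumberField K] {N : ℕ} (A : AV K N) {n m s w : ℕ}

/-! ### B6: the upper bound -/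

theorem lamY_up {D d : ℕ} (f : Fin w → MvPolynomial (Fin n) (MvPolynomial (Fin (N + 1)) K))
    (hf : ∀ i, BH D d (f i)) :
    ∃ C : ℝ, 0 ≤ C ∧ ∀ (P : A.Pts K) (X : Fin n → K), X ≠ 0 →
      (∃ i, eval X (sp A P (f i)) ≠ 0) →
      (∀ v : NumberField.InfinitePlace K, lamY A v.val D d f P X ≤
        d * logHeight X + D * logHeight (A.x P) + C) ∧
      ∀ v : NumberField.FinitePlace K, lamY A v.val D d f P X ≤
        d * logHeight X + D * logHeight (A.x P) + C := by
  classical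
  obtain ⟨S, hS⟩ : ∃ S : Finset K, ∀ i, ∀ μ ∈ (f i).support, ∀ e ∈ (coeff μ (f i)).support,
      coeff e (coeff μ (f i)) ∈ S := by
    refine ⟨Finset.univ.biUnion fun i => (f i).support.biUnion fun μ =>
      (coeff μ (f i)).support.image fun e => coeff e (coeff μ (f i)), fun i μ hμ e he => ?_⟩
    rw [Finset.mem_biUnion]
    refine ⟨i, Finset.mem_univ i, ?_⟩
    rw [Finset.mem_biUnion]
    exact ⟨μ, hμ, Finset.mem_image_of_mem _ he⟩
  obtain ⟨M, hM⟩ : ∃ M : ℕ, ∀ i, ∑ μ ∈ (f i).support, (coeff μ (f i)).support.card ≤ M :=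
    ⟨∑ i, ∑ μ ∈ (f i).support, (coeff μ (f i)).support.card, fun i =>
      Finset.single_le_sum (f := fun i => ∑ μ ∈ (f i).support, (coeff μ (f i)).support.card)
        (fun _ _ => Nat.zero_le _) (Finset.mem_univ i)⟩
  obtain ⟨y, hy⟩ : ∃ y : Option S → K, y = fun o => o.elim 1 fun c => (c : K) := ⟨_, rfl⟩
  have hy0 : y ≠ 0 := by
    intro h
    have := congrFun h none
    rw [hy] at this
    exact one_ne_zero this
  have hy1 : ∀ v : AbsoluteValue K ℝ, 1 ≤ ⨆ o, v (y o) := by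
    intro v
    have h1 : v (y none) ≤ ⨆ o, v (y o) := Finite.le_ciSup_of_le none le_rfl
    rw [hy] at h1 ⊢
    simpa using h1
  have hyc : ∀ (v : AbsoluteValue K ℝ) (c : K), c ∈ S → v c ≤ ⨆ o, v (y o) := by
    intro v c hc
    have h1 : v (y (some ⟨c, hc⟩)) ≤ ⨆ o, v (y o) := Finite.le_ciSup_of_le _ le_rfl
    rw [hy] at h1 ⊢
    simpa using h1
  obtain ⟨G, hG⟩ : ∃ G : AbsoluteValue K ℝ → ℝ,
    G = fun v => Real.log (cst v (M + 1)) + Real.log (⨆ o, v (y o)) := ⟨_, rfl⟩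
  have hG0 : ∀ v, 0 ≤ G v := by
    intro v
    rw [hG]
    exact add_nonneg (Real.log_nonneg (B6_cst_one v (by omega))) (Real.log_nonneg (hy1 v))
  have hGF : FS G := by
    rw [hG]
    exact FS_add (FS_log_cst _) (FS_log_iSup hy0)
  refine ⟨gs G, gs_nonneg fun v _ => hG0 v, fun P X hX hne => ?_⟩
  obtain ⟨i, hi⟩ := hne
  have hx0 : A.x P ≠ 0 := P.1.rep_nonzero
  obtain ⟨a, ha⟩ : ∃ a : K, a = eval X (sp A P (f i)) := ⟨_, rfl⟩
  have ha0 : a ≠ 0 := by
    rw [ha]
    exact hi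
  obtain ⟨F, hF⟩ : ∃ F : AbsoluteValue K ℝ → ℝ, F = fun v =>
    (((d : ℝ) * Real.log (⨆ l, v (X l)) + (D : ℝ) * Real.log (⨆ i, v (A.x P i))) -
      Real.log (v a)) + G v := ⟨_, rfl⟩
  have hF0 : ∀ v, 0 ≤ F v := by
    intro v
    have hx : 0 < ⨆ i, v (A.x P i) := W_sup_pos v hx0
    have hX' : 0 < ⨆ l, v (X l) := W_sup_pos v hX
    have h1 := B6_bound A (hf i) ((hM i).trans (Nat.le_succ M)) v
      (zero_le_one.trans (hy1 v)) (fun μ hμ e he => hyc v _ (hS i μ hμ e he)) P X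
    rw [← ha] at h1
    have hc : 0 < cst v (M + 1) := lt_of_lt_of_le one_pos (B6_cst_one v (by omega))
    have hs : 0 < ⨆ o, v (y o) := lt_of_lt_of_le one_pos (hy1 v)
    have h3 := Real.log_le_log (v.pos ha0) h1
    rw [Real.log_mul (mul_pos hc hs).ne' (mul_pos (pow_pos hx D) (pow_pos hX' d)).ne',
      Real.log_mul hc.ne' hs.ne',
      Real.log_mul (pow_pos hx D).ne' (pow_pos hX' d).ne', Real.log_pow, Real.log_pow] at h3
    rw [hF, hG]
    dsimp only
    linarith
  have hF1 : FS fun v : AbsoluteValue K ℝ =>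
      ((d : ℝ) * Real.log (⨆ l, v (X l)) + (D : ℝ) * Real.log (⨆ i, v (A.x P i))) :=
    FS_add (FS_const_mul _ (FS_log_iSup hX)) (FS_const_mul _ (FS_log_iSup hx0))
  have hF2 : FS fun v : AbsoluteValue K ℝ =>
      ((d : ℝ) * Real.log (⨆ l, v (X l)) + (D : ℝ) * Real.log (⨆ i, v (A.x P i))) -
        Real.log (v a) := FS_sub hF1 (FS_log_abv ha0)
  have hFF : FS F := by
    rw [hF]
    exact FS_add hF2 hGF
  have hgs : gs F = d * logHeight X + D * logHeight (A.x P) + gs G := by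
    rw [hF, gs_add hF2 hGF, gs_sub hF1 (FS_log_abv ha0),
      gs_add (FS_const_mul _ (FS_log_iSup hX)) (FS_const_mul _ (FS_log_iSup hx0)),
      gs_const_mul, gs_const_mul, gs_log_iSup hX, gs_log_iSup hx0, gs_log_abv ha0, sub_zero]
  have key : ∀ v : AbsoluteValue K ℝ, Pl v → lamY A v D d f P X ≤
      d * logHeight X + D * logHeight (A.x P) + gs G := by
    intro v hv
    have h1 := B6_single hFF (fun v _ => hF0 v) hv
    rw [hgs] at h1
    refine le_trans ?_ h1
    have h2 : v (eval X (sp A P (f i))) ≤ ⨆ l, v (eval X (sp A P (f l))) :=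
      le_ciSup (f := fun l => v (eval X (sp A P (f l)))) (Set.finite_range _).bddAbove i
    have h3 := Real.log_le_log (v.pos hi) h2
    have h4 := hG0 v
    rw [← ha] at h3
    rw [hF]
    unfold lamY
    dsimp only
    linarith
  refine ⟨fun v => key v.val (Or.inl ?_), fun v => key v.val (Or.inr ?_)⟩
  · exact NumberField.mem_multisetInfinitePlace.mpr v.2
  · exact v.2

end

end Pool.Agent.Lib.MP_17a322_nt.VE
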