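import Pool.Agent.Lib.MP_17a322_nt.VE.Defs

/-!
Mean vanishing orders along closed subschemes of a family over an abelian variety: definitions for
families.
-/

universe u

namespace Pool.Agent.Lib.MP_17a322_nt.VE

open MvPolynomial
open Pool.Agent.Lib.MP_17a322_nt.VA
open Pool.Agent.Lib.MP_17a322_nt.SL
open Pool.Agent.Lib.MP_17a322_nt.EF (fib rk part hSub)

section

variable {K : Type u} [Field K] {N n m s w : ℕ} (A : AV K N)

/-- The generic fibre of the closed subset with the equations `H i` is integral and not empty. -/
def IntG (H : Fin m → MvPolynomial (Fin n) (MvPolynomial (Fin (N + 1)) K)) : Prop :=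
  ∀ (L : Type u) [Field L] [IsAlgClosed L] [Algebra K L] (P : A.Pts L), Gen A P →
    (fib A H P).IsPrime ∧ ∃ l, (X l : MvPolynomial (Fin n) L) ∉ fib A H P

/-- On the generic fibre of the closed subset with the equations `H i` the closed subschemes with the
equations `f j l`, `l < w`, for `j ∈ U`, are locally generated by parts of regular sequences. -/
def RegG (H : Fin m → MvPolynomial (Fin n) (MvPolynomial (Fin (N + 1)) K))
    (f : Fin s → Fin w → MvPolynomial (Fin n) (MvPolynomial (Fin (N + 1)) K))
    (U : Finset (Fin s)) : Prop :=
  ∀ (L : Type u) [Field L] [IsAlgClosed L] [Algebra K L] (P : A.Pts L), Gen A P →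
    Reg (fib A H P) (fun j => fib A (f j) P) U

/-- On the generic fibre of the closed subset with the equations `H i` the mean vanishing order along
the closed subscheme with the equations `f l`, `l < w`, is at least `b`. -/
def MeanG (H : Fin m → MvPolynomial (Fin n) (MvPolynomial (Fin (N + 1)) K))
    (f : Fin w → MvPolynomial (Fin n) (MvPolynomial (Fin (N + 1)) K)) (b : ℝ) : Prop :=
  ∀ (L : Type u) [Field L] [IsAlgClosed L] [Algebra K L] (P : A.Pts L), Gen A P →
    MeanGe (fib A H P) (fib A f P) b

end

section

variable {K : Type u} [Field K] [NumberField K] {n : ℕ}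

/-- The height of the space of the forms of degree `k` in the ideal `I` (the height of its Pluecker
coordinates) divided by `k` times the dimension of the space of the forms of degree `k` modulo the
ideal `I`. -/
noncomputable def mu (I : Ideal (MvPolynomial (Fin n) K)) (k : ℕ) : ℝ :=
  hSub (part I k) / (k * rk I k)

end

end Pool.Agent.Lib.MP_17a322_nt.VE
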