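import Pool.Agent.Lib.MP_17a322_nt.VE.B5
import Pool.Agent.Lib.MP_17a322_nt.VE.DefsF
import Pool.Agent.Lib.MP_17a322_nt.EF.W6

/-!
Mean vanishing orders: the local inequality and the numbers.
-/

universe u

namespace Pool.Agent.Lib.MP_17a322_nt.VE

open MvPolynomial Height
open Pool.Agent.Lib.MP_17a322_nt.VA
open Pool.Agent.Lib.MP_17a322_nt.SL
open Pool.Agent.Lib.MP_17a322_nt.EF

/-- The choice of the weights. -/
theorem B7_w {s Ng : ℕ} (U : Finset (Fin s)) (β lam : Fin s → ℝ) {Λ θ : ℝ}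
    (hθ : 0 < θ) (hΛθ : Λ = Ng * θ) (hΛ : ∀ j ∈ U, 0 < β j → lam j ≤ Λ) :
    ∃ w : Fin s → Fin (Ng + 1), (∀ j ∈ U, 0 < β j → lam j ≤ θ * ((w j : ℕ) + 1)) ∧
      ∀ j ∈ U, 0 < β j → 0 < (w j : ℕ) → ((w j : ℕ) : ℝ) * θ ≤ lam j := by
  classical
  refine ⟨fun j => if h : ⌊lam j / θ⌋₊ < Ng + 1 then ⟨⌊lam j / θ⌋₊, h⟩ else 0, ?_, ?_⟩
  · intro j hj hβ
    have h1 : lam j / θ ≤ Ng := by
      rw [div_le_iff₀ hθ, ← hΛθ]
      exact hΛ j hj hβ
    have h2 : ⌊lam j / θ⌋₊ < Ng + 1 := Nat.lt_succ_of_le (Nat.floor_le_of_le h1)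
    simp only [h2, dif_pos]
    have h3 := (Nat.lt_floor_add_one (lam j / θ)).le
    rw [div_le_iff₀ hθ] at h3
    rw [mul_comm]
    exact h3
  · intro j hj hβ hw
    have h1 : lam j / θ ≤ Ng := by
      rw [div_le_iff₀ hθ, ← hΛθ]
      exact hΛ j hj hβ
    have h2 : ⌊lam j / θ⌋₊ < Ng + 1 := Nat.lt_succ_of_le (Nat.floor_le_of_le h1)
    simp only [h2, dif_pos] at hw ⊢
    have h3 : 0 ≤ lam j / θ := by
      by_contra h4
      rw [Nat.floor_of_nonpos (not_le.1 h4).le] at hw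
      exact lt_irrefl _ hw
    have h4 := Nat.floor_le h3
    rw [le_div_iff₀ hθ] at h4
    exact h4

section

variable {K : Type u} [Field K] {N : ℕ} (A : AV K N) {n m s w : ℕ}

/-- Lower bound for the local height of a divisor of `A`. -/
theorem B7_R {R : MvPolynomial (Fin (N + 1)) K} {ρ : ℕ} (hR : R.IsHomogeneous ρ)
    (v : AbsoluteValue K ℝ) : ∃ C : ℝ, 0 ≤ C ∧ ∀ P : A.Pts K, aeval (A.x P) R ≠ 0 →
      - C ≤ ρ * Real.log (⨆ i, v (A.x P i)) - Real.log (v (aeval (A.x P) R)) := by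
  obtain ⟨C, hC, h⟩ := lamQ_ge A (BH_C (n := 1) hR) v
  refine ⟨C, hC, fun P h0 => ?_⟩
  have h2 := h P (fun _ => 1) (fun h3 => one_ne_zero (congrFun h3 0)) (by
    rw [sp_C, eval_C]
    exact h0)
  unfold lamQ at h2
  rw [sp_C, eval_C, Nat.cast_zero, zero_mul, zero_add] at h2
  exact h2

/-- The local inequality for the lists. -/
theorem B7_loc (D d : Fin s → ℕ)
    (f : Fin s → Fin w → MvPolynomial (Fin n) (MvPolynomial (Fin (N + 1)) K))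
    (H : Fin m → MvPolynomial (Fin n) (MvPolynomial (Fin (N + 1)) K)) {ι : Type} [Fintype ι]
    {r k : ℕ} (l : ι → List (Fin s × ℕ)) (δ : ι → ℕ)
    (Φ : ι → Fin r → MvPolynomial (Fin n) (MvPolynomial (Fin (N + 1)) K)) (x : ι → Fin r → ℕ)
    (R : ι → Fin r → MvPolynomial (Fin (N + 1)) K) (ρ : ι → Fin r → ℕ)
    (hR : ∀ z i, (R z i).IsHomogeneous (ρ z i)) (v : AbsoluteValue K ℝ)
    (hsp : ∀ z i, ∃ C : ℝ, 0 ≤ C ∧ ∀ (P : A.Pts K) (X : Fin n → K), X ≠ 0 →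
        (∀ i, eval X (sp A P (H i)) = 0) → eval X (sp A P (Φ z i)) ≠ 0 →
        aeval (A.x P) (R z i) ≠ 0 → ∀ θ : ℝ, 0 ≤ θ →
        (∀ p ∈ l z, (∃ i, eval X (sp A P (f p.1 i)) ≠ 0) ∧
          p.2 * θ ≤ lamY A v (D p.1) (d p.1) (f p.1) P X) →
        x z i * θ ≤ lamQ A v (δ z) k (Φ z i) P X +
          (ρ z i * Real.log (⨆ i, v (A.x P i)) - Real.log (v (aeval (A.x P) (R z i)))) + C) :
    ∃ C : ℝ, 0 ≤ C ∧ ∀ (P : A.Pts K) (X : Fin n → K), X ≠ 0 →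
        (∀ i, eval X (sp A P (H i)) = 0) → (∀ z i, aeval (A.x P) (R z i) ≠ 0) →
        ∀ z, (∀ i, eval X (sp A P (Φ z i)) ≠ 0) → ∀ θ : ℝ, 0 ≤ θ →
        (∀ p ∈ l z, (∃ i, eval X (sp A P (f p.1 i)) ≠ 0) ∧
          p.2 * θ ≤ lamY A v (D p.1) (d p.1) (f p.1) P X) →
        θ * ((∑ i, x z i : ℕ) : ℝ) ≤ ∑ i, lamQ A v (δ z) k (Φ z i) P X +
          ∑ y : ι × Fin r, (ρ y.1 y.2 * Real.log (⨆ i, v (A.x P i)) -
            Real.log (v (aeval (A.x P) (R y.1 y.2)))) + C := by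
  classical
  choose C hC0 hC using hsp
  choose c hc0 hc using fun y : ι × Fin r => B7_R A (hR y.1 y.2) v
  refine ⟨∑ y : ι × Fin r, (C y.1 y.2 + c y), Finset.sum_nonneg fun y _ =>
    add_nonneg (hC0 _ _) (hc0 _), fun P X hX hXH hRP z hΦ θ hθ hl => ?_⟩
  have h1 : ∀ i, (x z i : ℝ) * θ - lamQ A v (δ z) k (Φ z i) P X ≤
      (ρ z i * Real.log (⨆ i, v (A.x P i)) - Real.log (v (aeval (A.x P) (R z i)))) +
        (C z i + c (z, i)) := by
    intro i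
    have h2 := hC z i P X hX hXH (hΦ i) (hRP z i) θ hθ hl
    have h3 := hc0 (z, i)
    linarith
  have h2 := Finset.sum_le_sum fun i (_ : i ∈ Finset.univ) => h1 i
  have h3 : ∑ i, ((ρ z i * Real.log (⨆ i, v (A.x P i)) -
        Real.log (v (aeval (A.x P) (R z i)))) + (C z i + c (z, i))) ≤
      ∑ y : ι × Fin r, ((ρ y.1 y.2 * Real.log (⨆ i, v (A.x P i)) -
        Real.log (v (aeval (A.x P) (R y.1 y.2)))) + (C y.1 y.2 + c y)) := by
    rw [Fintype.sum_prod_type]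
    refine Finset.single_le_sum (f := fun z => ∑ i, ((ρ z i * Real.log (⨆ i, v (A.x P i)) -
        Real.log (v (aeval (A.x P) (R z i)))) + (C z i + c (z, i)))) ?_ (Finset.mem_univ z)
    intro z' _
    refine Finset.sum_nonneg fun i _ => ?_
    have h4 := hc (z', i) P (hRP z' i)
    have h5 := hC0 z' i
    have h6 : - c (z', i) ≤ ρ z' i * Real.log (⨆ i, v (A.x P i)) -
      Real.log (v (aeval (A.x P) (R z' i))) := h4
    linarith
  rw [Finset.sum_sub_distrib, ← Finset.sum_mul] at h2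
  have h4 := h2.trans h3
  rw [Finset.sum_add_distrib] at h4
  push_cast
  linarith

end

/-- The numbers. -/
theorem B7_fin {κ kr k r hX hP Λ θ Dm Cu B Wt s b δ ε σ Q Y C₁ C₂ C₃ E nz ε₂ : ℝ}
    (hκ : κ = k * r) (hk : 1 ≤ k) (hr : 1 ≤ r) (hX0 : 0 ≤ hX) (hP0 : 0 ≤ hP) (hε : 0 < ε)
    (hCu : 0 ≤ Cu) (hWt : 0 ≤ Wt) (hb : 0 ≤ b)
    (hnz : 0 ≤ nz)
    (hΛ : Λ = Dm * (hX + hP) + Cu) (hθ : Λ = kr * θ) (hkr : 1 ≤ kr)
    (hδ1 : Wt * s * δ * Dm ≤ ε / 8) (hN : Wt * b * Dm ≤ ε / 8 * kr)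
    (hnzε : nz * ε₂ ≤ ε / 8)
    (h1 : κ * (B - Wt * (s * δ * Λ + b * θ)) ≤ Q + Y + C₃)
    (h2 : Y ≤ nz * (ε₂ * hP + C₂))
    (h3 : Q + E ≤ r * (k * hX) + ε / 8 * (k * hX + hP) + C₁)
    (h4 : k * r * σ ≤ 1 * E) (hC₃ : 0 ≤ C₃) :
    B + σ ≤ hX + ε / 2 * (hX + hP) +
      (|C₁| + nz * |C₂| + C₃ + Wt * (s * δ * Cu + b * Cu)) := by
  have hκ1 : 1 ≤ κ := by
    rw [hκ]
    nlinarith
  have hκ0 : 0 < κ := by linarith
  have hh : 0 ≤ hX + hP := by linarith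
  -- the error terms
  have e1 : κ * (B + σ) ≤ κ * (Wt * (s * δ * Λ + b * θ)) + κ * hX + ε / 8 * (k * hX + hP) +
      nz * ε₂ * hP + (|C₁| + nz * |C₂| + C₃) := by
    have g1 : C₁ ≤ |C₁| := le_abs_self _
    have g2 : nz * C₂ ≤ nz * |C₂| := mul_le_mul_of_nonneg_left (le_abs_self _) hnz
    have g3 : r * (k * hX) = κ * hX := by rw [hκ]; ring
    have g4 : k * r * σ = κ * σ := by rw [hκ]
    rw [g3] at h3
    rw [g4] at h4
    nlinarith
  have e2 : ε / 8 * (k * hX + hP) ≤ κ * (ε / 8 * (hX + hP)) := by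
    have g1 : k * hX ≤ κ * hX := by
      refine mul_le_mul_of_nonneg_right ?_ hX0
      rw [hκ]
      nlinarith
    have g2 : hP ≤ κ * hP := le_mul_of_one_le_left hP0 hκ1
    have g3 : k * hX + hP ≤ κ * (hX + hP) := by linarith
    have g4 := mul_le_mul_of_nonneg_left g3 (by positivity : 0 ≤ ε / 8)
    linarith
  have e3 : nz * ε₂ * hP ≤ κ * (ε / 8 * (hX + hP)) := by
    have g1 : nz * ε₂ * hP ≤ ε / 8 * hP := mul_le_mul_of_nonneg_right hnzε hP0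
    have g2 : ε / 8 * hP ≤ ε / 8 * (hX + hP) :=
      mul_le_mul_of_nonneg_left (by linarith) (by positivity)
    have g3 : ε / 8 * (hX + hP) ≤ κ * (ε / 8 * (hX + hP)) :=
      le_mul_of_one_le_left (by positivity) hκ1
    linarith
  have e4 : Wt * (s * δ * Λ + b * θ) ≤ ε / 8 * (hX + hP) + ε / 8 * (hX + hP) +
      Wt * (s * δ * Cu + b * Cu) := by
    have g1 : Wt * (s * δ * Λ) ≤ ε / 8 * (hX + hP) + Wt * (s * δ * Cu) := by
      rw [hΛ]
      have g2 := mul_le_mul_of_nonneg_right hδ1 hh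
      nlinarith
    have hkr0 : 0 < kr := by linarith
    have g3 : Wt * (b * θ) ≤ ε / 8 * (hX + hP) + Wt * (b * Cu) := by
      have g4 : θ = Λ / kr := by
        rw [hθ]
        field_simp
      have g5 : Wt * (b * θ) * kr = Wt * b * Dm * (hX + hP) + Wt * b * Cu := by
        rw [g4, hΛ]
        field_simp
      have g6 : Wt * b * Dm * (hX + hP) ≤ ε / 8 * kr * (hX + hP) :=
        mul_le_mul_of_nonneg_right hN hh
      have g7 : Wt * b * Cu ≤ Wt * b * Cu * kr :=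
        le_mul_of_one_le_right (by positivity) hkr
      have g8 : Wt * (b * θ) * kr ≤ (ε / 8 * (hX + hP) + Wt * (b * Cu)) * kr := by
        rw [g5]
        nlinarith
      exact le_of_mul_le_mul_right g8 hkr0
    linarith
  have e5 : 0 ≤ |C₁| + nz * |C₂| + C₃ := by positivity
  have e6 : |C₁| + nz * |C₂| + C₃ ≤ κ * (|C₁| + nz * |C₂| + C₃) :=
    le_mul_of_one_le_left e5 hκ1
  have e7 := mul_le_mul_of_nonneg_left e4 hκ0.le
  have e8 : κ * (B + σ) ≤ κ * (hX + ε / 2 * (hX + hP) +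
      (|C₁| + nz * |C₂| + C₃ + Wt * (s * δ * Cu + b * Cu))) := by
    nlinarith
  exact le_of_mul_le_mul_left e8 hκ0

end Pool.Agent.Lib.MP_17a322_nt.VE
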