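import Pool.Agent.Lib.MP_17a322_nt.VE.DefsF
import Pool.Agent.Lib.MP_17a322_nt.EF.U2

/-!
Mean vanishing orders: the heights of the fibres.
-/

universe u

namespace Pool.Agent.Lib.MP_17a322_nt.VE

open MvPolynomial Height
open Pool.Agent.Lib.MP_17a322_nt.VA
open Pool.Agent.Lib.MP_17a322_nt.SL
open Pool.Agent.Lib.MP_17a322_nt.EF

section

variable {K : Type u} [Field K] [NumberField K] {N n m : ℕ} (A : AV K N)

/-- The height of the rows is the height of the space of the forms of degree `k` in the ideal of the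
fibre. -/
theorem B8_rows (H : Fin m → MvPolynomial (Fin n) (MvPolynomial (Fin (N + 1)) K))
    (hH : ∀ i, ∃ a b : ℕ, BH a b (H i)) {k g' r : ℕ} (hk : 0 < k) (hr : 0 < r)
    (G' : Matrix (Fin g') (Fin (Mo n k).card) (MvPolynomial (Fin (N + 1)) K))
    (hG' : IsRows A H k G') (hgr : g' + r = (Mo n k).card) :
    ∃ (R : MvPolynomial (Fin (N + 1)) K) (ρ : ℕ), R.IsHomogeneous ρ ∧ R ∉ A.I ∧
      ∀ P : A.Pts K, aeval (A.x P) R ≠ 0 → (k : ℝ) * r * mu (fib A H P) k = hE A G' P := by
  classical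
  obtain ⟨R, ρ, hR, hR0, h⟩ := U2_rows A H hH k G' hG'
  refine ⟨R, ρ, hR, hR0, fun P hP => ?_⟩
  obtain ⟨h1, h2⟩ := h K P hP
  have h3 := U2_rk A H k P _ h1 h2
  have h4 : rk (fib A H P) k = r := by omega
  have h6 : part (fib A H P) k =
      Submodule.span K (Set.range fun i l => aeval (A.x P) (G' i l)) := by
    unfold part
    apply le_antisymm
    · rw [Submodule.span_le]
      rintro _ ⟨f, hf, hfh, rfl⟩
      exact (h2 f hfh).1 hf
    · rw [Submodule.span_le]
      rintro _ ⟨i, rfl⟩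
      refine Submodule.subset_span ⟨uncf k fun l => aeval (A.x P) (G' i l), ?_,
        uncf_hom _, (cf_uncf _).symm⟩
      rw [h2 _ (uncf_hom _), cf_uncf]
      exact Submodule.subset_span ⟨i, rfl⟩
  have h7 : hSub (part (fib A H P) k) = hE A G' P :=
    U2_hSub _ (fun i l => aeval (A.x P) (G' i l)) h1 h6.symm
  have hk' : (0 : ℝ) < k := by exact_mod_cast hk
  have hr' : (0 : ℝ) < r := by exact_mod_cast hr
  unfold mu
  rw [h4, h7]
  field_simp

end

end Pool.Agent.Lib.MP_17a322_nt.VE
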