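import Mathlib.RingTheory.Regular.RegularSequence
import Pool.Agent.Lib.MP_17a322_nt.EF.Defs3

/-!
Mean vanishing orders along closed subschemes of a family over an abelian variety: definitions.
-/

universe u

namespace Pool.Agent.Lib.MP_17a322_nt.VE

open MvPolynomial
open Pool.Agent.Lib.MP_17a322_nt.EF (rk)

section

variable {L : Type*} [Field L] {n s : ℕ}

/-- The ideal of the polynomials `f` such that the products of `f` and large powers of all variables
are in `I`. -/
def sat (I : Ideal (MvPolynomial (Fin n) L)) : Ideal (MvPolynomial (Fin n) L) where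
  carrier := {f | ∃ M : ℕ, ∀ l, X l ^ M * f ∈ I}
  zero_mem' := ⟨0, fun l => by rw [mul_zero]; exact I.zero_mem⟩
  add_mem' := by
    rintro f g ⟨M, hM⟩ ⟨M', hM'⟩
    refine ⟨M + M', fun l => ?_⟩
    have h1 : X l ^ (M + M') * (f + g) = X l ^ M' * (X l ^ M * f) + X l ^ M * (X l ^ M' * g) := by
      ring
    rw [h1]
    exact I.add_mem (I.mul_mem_left _ (hM l)) (I.mul_mem_left _ (hM' l))
  smul_mem' := by
    rintro c f ⟨M, hM⟩
    refine ⟨M, fun l => ?_⟩
    have h1 : X l ^ M * (c • f) = c * (X l ^ M * f) := by
      rw [smul_eq_mul]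
      ring
    rw [h1]
    exact I.mul_mem_left _ (hM l)

/-- The dimension of the space of the forms of degree `k` in the ideal `J` modulo the ideal `I`. -/
noncomputable def dm (I J : Ideal (MvPolynomial (Fin n) L)) (k : ℕ) : ℕ :=
  Module.finrank L ((homogeneousSubmodule (Fin n) L k ⊓ J.restrictScalars L).map
    (Ideal.Quotient.mkₐ L I).toLinearMap)

/-- The number `b` is at most the mean vanishing order of the forms along the closed subscheme with the
ideal `J` of the projective variety with the ideal `I`, which is the lower limit for `k → ∞` of the sum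
over `m ≥ 1` of the dimensions of the spaces of the forms of degree `k` (modulo `I`) that vanish along
the subscheme to the order `m`, divided by `k` times the dimension of the space of all forms of degree
`k` (modulo `I`). -/
def MeanGe (I J : Ideal (MvPolynomial (Fin n) L)) (b : ℝ) : Prop :=
  ∀ δ : ℝ, 0 < δ → ∃ k₀ : ℕ, ∀ k ≥ k₀, ∃ M : ℕ,
    (b - δ) * (k * rk I k) ≤ ∑ m ∈ Finset.range M, (dm I (sat (I ⊔ J ^ (m + 1))) k : ℝ)

/-- At every closed point of the projective variety with the ideal `I` (a maximal ideal of the ring of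
polynomials modulo `I` that does not contain all variables) at most one of the ideals `J j`, `j ∈ U`, is
contained in the ideal of the point, or the ideals `J j`, `j ∈ U`, which are contained in the ideal of
the point are generated in the local ring by lists `φ j` which together form a regular sequence. -/
def Reg (I : Ideal (MvPolynomial (Fin n) L)) (J : Fin s → Ideal (MvPolynomial (Fin n) L))
    (U : Finset (Fin s)) : Prop :=
  ∀ (𝔪 : Ideal (MvPolynomial (Fin n) L ⧸ I)) [𝔪.IsMaximal],
    (∃ l, Ideal.Quotient.mk I (X l) ∉ 𝔪) →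
    (∀ i ∈ U, ∀ j ∈ U, (J i).map (Ideal.Quotient.mk I) ≤ 𝔪 →
      (J j).map (Ideal.Quotient.mk I) ≤ 𝔪 → i = j) ∨
    ∃ φ : Fin s → List (Localization.AtPrime 𝔪),
      (∀ j ∈ U, (J j).map (Ideal.Quotient.mk I) ≤ 𝔪 →
        ((J j).map (Ideal.Quotient.mk I)).map (algebraMap _ (Localization.AtPrime 𝔪)) =
          Ideal.ofList (φ j)) ∧
      ∀ l : List (Fin s), l.Nodup →
        (∀ j ∈ l, j ∈ U ∧ (J j).map (Ideal.Quotient.mk I) ≤ 𝔪) →
        RingTheory.Sequence.IsRegular (Localization.AtPrime 𝔪) (l.flatMap φ)

end

/-! ### Definitions used in the proof -/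

/-- The sum of the products of powers of the ideals in the list with total weight at least `x`. -/
def wI {R : Type*} [CommRing R] : List (Ideal R × ℕ) → ℕ → Ideal R
  | [], x => if x = 0 then ⊤ else ⊥
  | p :: l, x => ⨆ i : ℕ, p.1 ^ i * wI l (x - p.2 * i)

/-- Every element is not a zero divisor modulo the ideal generated by other elements. -/
def SR {R : Type*} [CommRing R] {ι : Type*} (φ : ι → R) : Prop :=
  ∀ (W : Finset ι) (i : ι), i ∉ W → ∀ x, φ i * x ∈ Ideal.span (φ '' W) →
    x ∈ Ideal.span (φ '' W)

/-- The ideal is generated by polynomials with coefficients in `E`. -/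
def Rat {L : Type*} [Field L] {n : ℕ} (E : Type*) [Field E] [Algebra E L]
    (𝔞 : Ideal (MvPolynomial (Fin n) L)) : Prop :=
  ∃ S : Set (MvPolynomial (Fin n) E), 𝔞 = Ideal.span (MvPolynomial.map (algebraMap E L) '' S)

end Pool.Agent.Lib.MP_17a322_nt.VE
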