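import Pool.Agent.Lib.MP_17a322_nt.VE.Defs
import Pool.Agent.Lib.MP_17a322_nt.SL.F2

/-!
Mean vanishing orders: definitions used in the proof.
-/

universe u

namespace Pool.Agent.Lib.MP_17a322_nt.VE

open MvPolynomial
open Pool.Agent.Lib.MP_17a322_nt.VA
open Pool.Agent.Lib.MP_17a322_nt.SL
open Pool.Agent.Lib.MP_17a322_nt.EF

section

variable {K : Type u} [Field K] {N : ℕ} (A : AV K N) {n m s w : ℕ}

/-- The field of the ratios of the coordinates of the point. -/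
noncomputable abbrev KP {L : Type u} [Field L] [Algebra K L] (P : A.Pts L) :
    IntermediateField K L :=
  IntermediateField.adjoin K (Set.range (rt (A.x P)))

/-- The value of the form `Ψ` is small if the local heights of the `Y_j` in the list are large. -/
def Sm (D d : Fin s → ℕ)
    (f : Fin s → Fin w → MvPolynomial (Fin n) (MvPolynomial (Fin (N + 1)) K))
    (l : List (Fin s × ℕ)) (x : ℕ)
    (Ψ : MvPolynomial (Fin n) (MvPolynomial (Fin (N + 1)) K)) (a b : ℕ) : Prop :=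
  BH a b Ψ ∧ ∀ v : AbsoluteValue K ℝ, ∃ C : ℝ, 0 ≤ C ∧ ∀ (P : A.Pts K) (X : Fin n → K), X ≠ 0 →
    ∀ θ : ℝ, 0 ≤ θ →
    (∀ p ∈ l, (∃ i, eval X (sp A P (f p.1 i)) ≠ 0) ∧
      p.2 * θ ≤ lamY A v (D p.1) (d p.1) (f p.1) P X) →
    v (eval X (sp A P Ψ)) ≤
      C * (⨆ i, v (A.x P i)) ^ a * (⨆ l, v (X l)) ^ b * Real.exp (-(x * θ))

end

end Pool.Agent.Lib.MP_17a322_nt.VE
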