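import Pool.Agent.Lib.MP_17a322_nt.VE.B7
import Pool.Agent.Lib.MP_17a322_nt.EF.S1
import Pool.Agent.Lib.MP_17a322_nt.EF.W6
import Pool.Agent.Lib.MP_17a322_nt.VE.B6

/-!
Mean vanishing orders: the main theorem.
-/

universe u

namespace Pool.Agent.Lib.MP_17a322_nt.VE

open MvPolynomial Height
open Pool.Agent.Lib.MP_17a322_nt.VA
open Pool.Agent.Lib.MP_17a322_nt.SL
open Pool.Agent.Lib.MP_17a322_nt.EF

section

variable {K : Type u} [Field K] [NumberField K] {N n m s w : ℕ} (A : AV K N)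

/-- The divisors on `A` together. -/
theorem M_low (Γ : AddSubgroup (A.Pts K)) (hΓ : Γ.FG)
    (H : Fin m → MvPolynomial (Fin n) (MvPolynomial (Fin (N + 1)) K))
    (hpr : ∀ (L : Type u) [Field L] [IsAlgClosed L] [Algebra K L] (P : A.Pts L), Gen A P →
      (fib A H P).IsPrime) {ι : Type} [Fintype ι]
    (R : ι → MvPolynomial (Fin (N + 1)) K) (ρ : ι → ℕ) (hR : ∀ y, (R y).IsHomogeneous (ρ y))
    (hR0 : ∀ y, R y ∉ A.I) (S : Finset (NumberField.FinitePlace K)) {ε : ℝ} (hε : 0 < ε) :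
    ∃ (C : ℝ) (F : MvPolynomial (Fin n) (MvPolynomial (Fin (N + 1)) K)), ExcF A H F ∧
      ∀ P ∈ Γ, ∀ X : Fin n → K, eval X (sp A P F) ≠ 0 → (∀ y, aeval (A.x P) (R y) ≠ 0) ∧
        SS S (fun v => ∑ y, (ρ y * Real.log (⨆ i, v.val (A.x P i)) -
            Real.log (v.val (aeval (A.x P) (R y)))))
          (fun v => ∑ y, (ρ y * Real.log (⨆ i, v.val (A.x P i)) -
            Real.log (v.val (aeval (A.x P) (R y))))) ≤
          Fintype.card ι * (ε * logHeight (A.x P) + C) := by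
  classical
  obtain ⟨C, F, hF, h⟩ := exc_all A (Finset.univ : Finset ι) H hpr
    (fun y C P _ => P ∈ Γ → aeval (A.x P) (R y) ≠ 0 ∧
      SS S (fun v => ρ y * Real.log (⨆ i, v.val (A.x P i)) -
          Real.log (v.val (aeval (A.x P) (R y))))
        (fun v => ρ y * Real.log (⨆ i, v.val (A.x P i)) -
          Real.log (v.val (aeval (A.x P) (R y)))) ≤ ε * logHeight (A.x P) + C)
    (fun y C C' P _ hC h hP => ⟨(h hP).1, (h hP).2.trans (by linarith)⟩) (by
      intro y _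
      obtain ⟨C, F, a, hFa, hF, h⟩ := S_low A Γ hΓ (hR y) (hR0 y) S hε
      refine ⟨C, MvPolynomial.C F, ExcF_C A H hpr hFa hF, fun P X hX hP => ?_⟩
      rw [sp_C, eval_C] at hX
      exact h P hP hX)
  refine ⟨C, F, hF, fun P hP X hX => ⟨fun y => (h P X hX y (Finset.mem_univ y) hP).1, ?_⟩⟩
  rw [SS_sum]
  refine (Finset.sum_le_sum fun y _ => (h P X hX y (Finset.mem_univ y) hP).2).trans ?_
  rw [Finset.sum_const, Finset.card_univ, nsmul_eq_mul]

omit [NumberField K] in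
/-- The closed subschemes with a positive mean vanishing order do not contain the generic fibre. -/
theorem M_pos (H : Fin m → MvPolynomial (Fin n) (MvPolynomial (Fin (N + 1)) K))
    (hH : ∀ i, ∃ a b : ℕ, BH a b (H i)) (hg : IntG A H) (D d : Fin s → ℕ)
    (f : Fin s → Fin w → MvPolynomial (Fin n) (MvPolynomial (Fin (N + 1)) K))
    (hf : ∀ j l, BH (D j) (d j) (f j l)) (β : Fin s → ℝ) (hβ : ∀ j, MeanG A H (f j) (β j)) :
    ∃ F : MvPolynomial (Fin n) (MvPolynomial (Fin (N + 1)) K), ExcF A H F ∧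
      ∀ (P : A.Pts K) (X : Fin n → K), eval X (sp A P F) ≠ 0 →
        ∀ j, 0 < β j → ∃ l, eval X (sp A P (f j l)) ≠ 0 := by
  classical
  obtain ⟨L, _, _, _, P₀, hP₀⟩ := T_gen A
  obtain ⟨hI, hX⟩ := hg L P₀ hP₀
  obtain ⟨C, F, hF, h⟩ := exc_all A (Finset.univ.filter fun j => 0 < β j) H
    (fun L _ _ _ P hP => (hg L P hP).1)
    (fun j _ P X => ∃ l, eval X (sp A P (f j l)) ≠ 0) (fun j C C' P X _ h => h) (by
      intro j hj
      have hj' := (Finset.mem_filter.1 hj).2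
      have h1 := B5_pos hI hX (hβ j L P₀ hP₀) hj'
      obtain ⟨l, hl⟩ : ∃ l, sp A P₀ (f j l) ∉ fib A H P₀ := by
        by_contra hcon
        push Not at hcon
        refine h1 ?_
        unfold fib
        rw [Ideal.span_le]
        rintro _ ⟨l, rfl⟩
        exact hcon l
      refine ⟨0, f j l, ⟨⟨_, _, hf j l⟩, fun L' _ _ _ P' hP' h2 => hl ?_⟩,
        fun P X hX => ⟨l, hX⟩⟩
      exact B5_mem A H hH (hf j l) hP' hP₀ h2)
  exact ⟨F, hF, fun P X hX j hj =>
    h P X hX j (Finset.mem_filter.2 ⟨Finset.mem_univ j, hj⟩)⟩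

/-- The upper bound for all closed subschemes. -/
theorem M_up (D d : Fin s → ℕ) {Dm : ℕ} (hD : ∀ j, D j ≤ Dm) (hd : ∀ j, d j ≤ Dm)
    (f : Fin s → Fin w → MvPolynomial (Fin n) (MvPolynomial (Fin (N + 1)) K))
    (hf : ∀ j l, BH (D j) (d j) (f j l)) :
    ∃ C : ℝ, 0 < C ∧ ∀ (P : A.Pts K) (X : Fin n → K), X ≠ 0 → ∀ j,
      (∃ i, eval X (sp A P (f j i)) ≠ 0) →
      (∀ v : NumberField.InfinitePlace K, lamY A v.val (D j) (d j) (f j) P X ≤
        Dm * (logHeight X + logHeight (A.x P)) + C) ∧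
      ∀ v : NumberField.FinitePlace K, lamY A v.val (D j) (d j) (f j) P X ≤
        Dm * (logHeight X + logHeight (A.x P)) + C := by
  classical
  choose C hC0 hC using fun j => lamY_up A (f j) (hf j)
  refine ⟨∑ j, C j + 1, by
    have h1 := Finset.sum_nonneg fun j (_ : j ∈ Finset.univ) => hC0 j
    linarith, fun P X hX j hj => ?_⟩
  have h1 : C j ≤ ∑ j, C j := Finset.single_le_sum (f := C) (fun i _ => hC0 i)
    (Finset.mem_univ j)
  have h2 : (d j : ℝ) * logHeight X ≤ Dm * logHeight X :=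
    mul_le_mul_of_nonneg_right (by exact_mod_cast hd j) (logHeight_nonneg _)
  have h3 : (D j : ℝ) * logHeight (A.x P) ≤ Dm * logHeight (A.x P) :=
    mul_le_mul_of_nonneg_right (by exact_mod_cast hD j) (logHeight_nonneg _)
  obtain ⟨h4, h5⟩ := hC j P X hX hj
  exact ⟨fun v => (h4 v).trans (by linarith), fun v => (h5 v).trans (by linarith)⟩

end

end Pool.Agent.Lib.MP_17a322_nt.VE
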