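import Pool.Agent.Lib.MP_17a322_nt.VE.M
import Pool.Agent.Lib.MP_17a322_nt.VE.A12
import Pool.Agent.Lib.MP_17a322_nt.VE.B1
import Pool.Agent.Lib.MP_17a322_nt.VE.B3
import Pool.Agent.Lib.MP_17a322_nt.VE.B4
import Pool.Agent.Lib.MP_17a322_nt.VE.B8

/-!
Mean vanishing orders: the main theorem.
-/

universe u

namespace Pool.Agent.Lib.MP_17a322_nt.VE

open MvPolynomial Height
open Pool.Agent.Lib.MP_17a322_nt.VA
open Pool.Agent.Lib.MP_17a322_nt.SL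
open Pool.Agent.Lib.MP_17a322_nt.EF

section

variable {K : Type u} [Field K] {N n m s w : ℕ} (A : AV K N)

/-- The local inequality at one place. -/
theorem M_loc (H : Fin m → MvPolynomial (Fin n) (MvPolynomial (Fin (N + 1)) K)) (D d : Fin s → ℕ)
    (f : Fin s → Fin w → MvPolynomial (Fin n) (MvPolynomial (Fin (N + 1)) K))
    (β : Fin s → ℝ) (hβ0 : ∀ j, 0 ≤ β j) {k r Ng : ℕ} {η : ℝ} (hη : 0 ≤ η)
    (S' : Fin s → ℕ) (hS : ∀ j, (β j - η) * (k * r) ≤ S' j) {Z : Type} [Fintype Z]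
    (U : Z → Finset (Fin s)) (wt : Z → Fin s → Fin (Ng + 1)) (δ : Z → ℕ)
    (Φ : Z → Fin r → MvPolynomial (Fin n) (MvPolynomial (Fin (N + 1)) K)) (x : Z → Fin r → ℕ)
    (hsum : ∀ z, ((lst β (U z) (fun j => (wt z j : ℕ))).map fun p => p.2 * S' p.1).sum ≤
      ∑ i, x z i)
    (R : Z → Fin r → MvPolynomial (Fin (N + 1)) K) (ρ : Z → Fin r → ℕ)
    (hR : ∀ z i, (R z i).IsHomogeneous (ρ z i)) (v : AbsoluteValue K ℝ)
    (hsp : ∀ z i, ∃ C : ℝ, 0 ≤ C ∧ ∀ (P : A.Pts K) (X : Fin n → K), X ≠ 0 →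
        (∀ i, eval X (sp A P (H i)) = 0) → eval X (sp A P (Φ z i)) ≠ 0 →
        aeval (A.x P) (R z i) ≠ 0 → ∀ θ : ℝ, 0 ≤ θ →
        (∀ p ∈ lst β (U z) (fun j => (wt z j : ℕ)), (∃ i, eval X (sp A P (f p.1 i)) ≠ 0) ∧
          p.2 * θ ≤ lamY A v (D p.1) (d p.1) (f p.1) P X) →
        x z i * θ ≤ lamQ A v (δ z) k (Φ z i) P X +
          (ρ z i * Real.log (⨆ i, v (A.x P i)) - Real.log (v (aeval (A.x P) (R z i)))) + C) :
    ∃ C : ℝ, 0 ≤ C ∧ ∀ (P : A.Pts K) (X : Fin n → K), X ≠ 0 →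
        (∀ i, eval X (sp A P (H i)) = 0) → (∀ z i, aeval (A.x P) (R z i) ≠ 0) →
        (∀ j, 0 < β j → ∃ l, eval X (sp A P (f j l)) ≠ 0) → ∀ Λ θ : ℝ, 0 < θ → Λ = Ng * θ →
        (∀ j, 0 < β j → lamY A v (D j) (d j) (f j) P X ≤ Λ) → ∀ V : Finset (Fin s),
        (∀ y : Fin s → Fin (Ng + 1), ∃ z, U z = V ∧ wt z = y) →
        ∃ z, (∀ i, eval X (sp A P (Φ z i)) ≠ 0) →
          (k * r : ℝ) * (∑ j ∈ V, β j * lamY A v (D j) (d j) (f j) P X -
            (s * η * Λ + (∑ j, β j) * θ)) ≤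
          ∑ i, lamQ A v (δ z) k (Φ z i) P X +
            ∑ y : Z × Fin r, (ρ y.1 y.2 * Real.log (⨆ i, v (A.x P i)) -
              Real.log (v (aeval (A.x P) (R y.1 y.2)))) + C := by
  classical
  obtain ⟨C, hC0, hC⟩ := B7_loc A D d f H (fun z => lst β (U z) (fun j => (wt z j : ℕ))) δ Φ x R ρ
    hR v hsp
  refine ⟨C, hC0, fun P X hX hXH hRP hfj Λ θ hθ hΛθ hup V hV => ?_⟩
  obtain ⟨y, hy1, hy2⟩ := B7_w (Ng := Ng) V β (fun j => lamY A v (D j) (d j) (f j) P X) hθ hΛθ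
    (fun j _ hj => hup j hj)
  obtain ⟨z, hzV, hzy⟩ := hV y
  refine ⟨z, fun hΦ => ?_⟩
  have hΛ0 : 0 ≤ Λ := by
    rw [hΛθ]
    positivity
  have h1 := B5_num V β (fun j => lamY A v (D j) (d j) (f j) P X) S' (fun j => (y j : ℕ))
    (θ := θ) (Λ := Λ) (δ := η) (κ := (k * r : ℝ)) hβ0 hS (by positivity) hη hθ.le hΛ0
    (fun j _ hj => hup j hj) hy1
  have h2 := hC P X hX hXH hRP z hΦ θ hθ.le (by
    intro p hp
    obtain ⟨g1, g2, g3, g4⟩ := lst_mem.1 hp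
    rw [hzV] at g1
    rw [hzy] at g3 g4
    refine ⟨hfj _ g2, ?_⟩
    rw [g4]
    exact hy2 _ g1 g2 g3)
  refine le_trans ?_ h2
  have h3 : (k * r : ℝ) * (∑ j ∈ V, β j * lamY A v (D j) (d j) (f j) P X -
      (s * η * Λ + (∑ j, β j) * θ)) ≤
      θ * ∑ j ∈ V.filter (fun j => 0 < β j), ((y j : ℕ) : ℝ) * S' j := by
    refine le_trans (le_of_eq ?_) h1
    ring
  refine h3.trans (mul_le_mul_of_nonneg_left ?_ hθ.le)
  have h4 := hsum z
  rw [lst_sum, hzV, hzy] at h4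
  have h5 : ((∑ j ∈ V.filter (fun j => 0 < β j), (y j : ℕ) * S' j : ℕ) : ℝ) ≤
      ((∑ i, x z i : ℕ) : ℝ) := by
    refine Nat.cast_le.2 (le_trans (le_of_eq ?_) h4)
    exact Finset.sum_congr (by congr) fun _ _ => rfl
  refine le_trans (le_of_eq ?_) h5
  push_cast
  rfl

end

section

variable {K : Type u} [Field K] [NumberField K] {N n m s w : ℕ} (A : AV K N)

theorem M_sub (S : Finset (NumberField.FinitePlace K))
    (f f' : NumberField.InfinitePlace K → ℝ) (g g' : NumberField.FinitePlace K → ℝ) :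
    SS S (fun v => f v - f' v) (fun v => g v - g' v) = SS S f g - SS S f' g' := by
  have h1 := SS_add S (fun v => f v - f' v) f' (fun v => g v - g' v) g'
  simp only [sub_add_cancel] at h1
  rw [h1]
  ring

/-- The main theorem without the divisor of `A`. -/
theorem main₀ (Γ : AddSubgroup (A.Pts K)) (hΓ : Γ.FG)
    (H : Fin m → MvPolynomial (Fin n) (MvPolynomial (Fin (N + 1)) K))
    (hH : ∀ i, ∃ a b : ℕ, BH a b (H i)) (hg : IntG A H) (D d : Fin s → ℕ)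
    (f : Fin s → Fin w → MvPolynomial (Fin n) (MvPolynomial (Fin (N + 1)) K))
    (hf : ∀ j l, BH (D j) (d j) (f j l)) (S : Finset (NumberField.FinitePlace K))
    (Ui : NumberField.InfinitePlace K → Finset (Fin s))
    (Uf : NumberField.FinitePlace K → Finset (Fin s))
    (hUi : ∀ v, RegG A H f (Ui v)) (hUf : ∀ v ∈ S, RegG A H f (Uf v)) (β : Fin s → ℝ)
    (hβ0 : ∀ j, 0 ≤ β j) (hβ : ∀ j, MeanG A H (f j) (β j)) {ε : ℝ} (hε : 0 < ε) :
    ∃ k₀ : ℕ, ∀ k ≥ k₀,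
    ∃ (C : ℝ) (F : MvPolynomial (Fin n) (MvPolynomial (Fin (N + 1)) K)), ExcF A H F ∧
      ∀ P ∈ Γ, ∀ X : Fin n → K, X ≠ 0 → (∀ i, eval X (sp A P (H i)) = 0) →
        eval X (sp A P F) ≠ 0 →
        (∀ j, 0 < β j → ∃ l, eval X (sp A P (f j l)) ≠ 0) ∧
        SS S (fun v => ∑ j ∈ Ui v, β j * lamY A v.val (D j) (d j) (f j) P X)
            (fun v => ∑ j ∈ Uf v, β j * lamY A v.val (D j) (d j) (f j) P X) +
          mu (fib A H P) k ≤
          logHeight X + ε / 2 * (logHeight X + logHeight (A.x P)) + C := by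
  classical
  obtain ⟨L, _, _, _, P₀, hP₀⟩ := T_gen A
  obtain ⟨hI, hX⟩ := hg L P₀ hP₀
  have hpr : ∀ (L : Type u) [Field L] [IsAlgClosed L] [Algebra K L] (P : A.Pts L), Gen A P →
      (fib A H P).IsPrime := fun L _ _ _ P hP => (hg L P hP).1
  -- the constants
  obtain ⟨Wt, hWt⟩ : ∃ Wt : ℝ, Wt = SS S (fun _ => 1) (fun _ => 1) := ⟨_, rfl⟩
  have hWt0 : 0 ≤ Wt := by
    rw [hWt]
    exact SS_nonneg (fun _ => zero_le_one) fun _ _ => zero_le_one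
  obtain ⟨Dm, hDm, hdm⟩ : ∃ Dm : ℕ, (∀ j, D j ≤ Dm) ∧ ∀ j, d j ≤ Dm :=
    ⟨∑ j, (D j + d j), fun j => (Nat.le_add_right _ _).trans
      (Finset.single_le_sum (f := fun j => D j + d j) (fun _ _ => Nat.zero_le _)
        (Finset.mem_univ j)), fun j => (Nat.le_add_left _ _).trans
      (Finset.single_le_sum (f := fun j => D j + d j) (fun _ _ => Nat.zero_le _)
        (Finset.mem_univ j))⟩
  obtain ⟨b, hb⟩ : ∃ b : ℝ, b = ∑ j, β j := ⟨_, rfl⟩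
  have hb0 : 0 ≤ b := by
    rw [hb]
    exact Finset.sum_nonneg fun j _ => hβ0 j
  obtain ⟨η, hη⟩ : ∃ η : ℝ, η = ε / 8 / (Wt * s * Dm + 1) := ⟨_, rfl⟩
  have hη0 : 0 < η := by
    rw [hη]
    positivity
  have hη1 : Wt * s * η * Dm ≤ ε / 8 := by
    have h1 : Wt * s * η * Dm = ε / 8 * ((Wt * s * Dm) / (Wt * s * Dm + 1)) := by
      rw [hη]
      field_simp
    rw [h1]
    refine mul_le_of_le_one_right (by positivity) ?_
    rw [div_le_one (by positivity)]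
    linarith
  obtain ⟨k₀, hk₀⟩ := choose_k hI hX (fun j => fib A (f j) P₀) β
    (fun j => hβ j L P₀ hP₀) hη0
  refine ⟨k₀, fun k hkk => ?_⟩
  obtain ⟨M, hk, hr, hS⟩ := hk₀ k hkk
  obtain ⟨g', G', hG'⟩ := T_rows A H hH k
  obtain ⟨r, hrr⟩ : ∃ r, r = rk (fib A H P₀) k := ⟨_, rfl⟩
  have hgr := T_rk A H k G' hG' P₀ hP₀
  rw [← hrr] at hgr hr hS
  obtain ⟨Rσ, ρσ, hRσ, hRσ0, hσ⟩ := B8_rows A H hH hk hr G' hG' hgr
  obtain ⟨Ng, hNg⟩ := exists_nat_ge (Wt * b * Dm / (ε / 8))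
  have hNg1 : Wt * b * Dm ≤ ε / 8 * ((Ng + 1 : ℕ) : ℝ) := by
    rw [div_le_iff₀ (by positivity)] at hNg
    push_cast
    linarith
  -- the lists
  let Z : Type := {z : Finset (Fin s) × (Fin s → Fin (Ng + 1 + 1)) //
    Reg (fib A H P₀) (fun j => fib A (f j) P₀) z.1}
  let _ : Fintype Z := Fintype.ofFinite Z
  obtain ⟨l, hl⟩ : ∃ l : Z → List (Fin s × ℕ),
      l = fun z => lst β z.1.1 (fun j => (z.1.2 j : ℕ)) := ⟨_, rfl⟩
  have hdata := fun z : Z => data A H hH f (fun j l => ⟨_, _, hf j l⟩) P₀ hI hX z.2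
    (lst β z.1.1 (fun j => (z.1.2 j : ℕ))) (lst_nodup _ _ _)
    (fun p hp => by
      obtain ⟨h1, h2, h3, h4⟩ := lst_mem.1 hp
      rw [h4]
      exact h3) (fun p hp => (lst_mem.1 hp).1) k M hrr
  choose δz Φz xz hBH hind hsat hsum using hdata
  have hsp := fun (z : Z) (i : Fin r) => spread A H hH D d f hf
    (lst β z.1.1 (fun j => (z.1.2 j : ℕ))) (xz z i) (Φz z i) (hBH z i) P₀ hP₀ (hsat z i)
  choose R ρ hRh hR0 hspv using hsp
  choose Cl hCl0 hCl using fun v : AbsoluteValue K ℝ => M_loc A H D d f β hβ0 hη0.le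
    (fun j => ∑ m ∈ Finset.range M,
      dm (fib A H P₀) (sat (fib A H P₀ ⊔ fib A (f j) P₀ ^ (m + 1))) k)
    (fun j => by
      push_cast
      exact hS j)
    (fun z : Z => z.1.1) (fun z => z.1.2) δz Φz xz hsum R ρ hRh v (fun z i => hspv z i v)
  -- the core inequality
  obtain ⟨E⟩ : Nonempty (Z ≃ Fin (Fintype.card Z)) := ⟨Fintype.equivFin Z⟩
  obtain ⟨C₁, F₁, hF₁, hc⟩ := core A Γ hΓ H hpr P₀ hP₀ G' hG' hgr hr
    (fun a => δz (E.symm a)) (fun a => Φz (E.symm a)) (fun a i => hBH _ i)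
    (fun a => hind _) S (ε := ε / 8) (by positivity)
  -- the divisors on `A`
  obtain ⟨nz, hnz⟩ : ∃ nz : ℕ, nz = Fintype.card (Z × Fin r) := ⟨_, rfl⟩
  obtain ⟨ε₂, hε₂⟩ : ∃ ε₂ : ℝ, ε₂ = ε / 8 / (nz + 1) := ⟨_, rfl⟩
  have hε₂0 : 0 < ε₂ := by
    rw [hε₂]
    positivity
  have hε₂1 : nz * ε₂ ≤ ε / 8 := by
    have h1 : nz * ε₂ = ε / 8 * (nz / (nz + 1)) := by
      rw [hε₂]
      field_simp
    rw [h1]
    refine mul_le_of_le_one_right (by positivity) ?_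
    rw [div_le_one (by positivity)]
    linarith
  obtain ⟨C₂, F₂, hF₂, hlow⟩ := M_low A Γ hΓ H hpr (fun y : Z × Fin r => R y.1 y.2)
    (fun y => ρ y.1 y.2) (fun y => hRh _ _) (fun y => hR0 _ _) S hε₂0
  obtain ⟨F₃, hF₃, hpos⟩ := M_pos A H hH hg D d f hf β hβ
  obtain ⟨Cu, hCu0, hup⟩ := M_up A D d hDm hdm f hf
  obtain ⟨C₃, hC₃⟩ : ∃ C₃ : ℝ, C₃ = SS S (fun v => Cl v.val) (fun v => Cl v.val) := ⟨_, rfl⟩
  have hC₃0 : 0 ≤ C₃ := by
    rw [hC₃]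
    exact SS_nonneg (fun v => hCl0 _) fun v _ => hCl0 _
  refine ⟨|C₁| + nz * |C₂| + C₃ + Wt * (s * η * Cu + b * Cu), F₁ * (F₂ * (F₃ * C Rσ)),
    ExcF_mul A H hpr hF₁ (ExcF_mul A H hpr hF₂ (ExcF_mul A H hpr hF₃
      (ExcF_C A H hpr hRσ hRσ0))), fun P hP X hX0 hXH hXF => ?_⟩
  rw [sp_mul, sp_mul, sp_mul, map_mul, map_mul, map_mul, sp_C, eval_C] at hXF
  have hx1 := left_ne_zero_of_mul hXF
  have hx2 := left_ne_zero_of_mul (right_ne_zero_of_mul hXF)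
  have hx3 := left_ne_zero_of_mul (right_ne_zero_of_mul (right_ne_zero_of_mul hXF))
  have hx4 := right_ne_zero_of_mul (right_ne_zero_of_mul (right_ne_zero_of_mul hXF))
  have hfj := hpos P X hx3
  refine ⟨hfj, ?_⟩
  obtain ⟨hRP, hY⟩ := hlow P hP X hx2
  obtain ⟨Λ, hΛ⟩ : ∃ Λ : ℝ, Λ = Dm * (logHeight X + logHeight (A.x P)) + Cu := ⟨_, rfl⟩
  obtain ⟨θ, hθ⟩ : ∃ θ : ℝ, θ = Λ / ((Ng + 1 : ℕ) : ℝ) := ⟨_, rfl⟩
  have hhX : 0 ≤ logHeight X := logHeight_nonneg _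
  have hhP : 0 ≤ logHeight (A.x P) := logHeight_nonneg _
  have hΛ0 : 0 < Λ := by
    rw [hΛ]
    positivity
  have hkr0 : (0 : ℝ) < ((Ng + 1 : ℕ) : ℝ) := by positivity
  have hθ0 : 0 < θ := by
    rw [hθ]
    positivity
  have hΛθ : Λ = ((Ng + 1 : ℕ) : ℝ) * θ := by
    rw [hθ]
    field_simp
  have hi := fun v : NumberField.InfinitePlace K => hCl v.val P X hX0 hXH
    (fun z i => hRP (z, i)) hfj Λ θ hθ0 hΛθ
    (fun j hj => by
      rw [hΛ]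
      exact (hup P X hX0 j (hfj j hj)).1 v) (Ui v)
    (fun y => ⟨⟨(Ui v, y), hUi v L P₀ hP₀⟩, rfl, rfl⟩)
  have hfi : ∀ v : NumberField.FinitePlace K, ∃ z : Z, v ∈ S →
      (∀ i, eval X (sp A P (Φz z i)) ≠ 0) →
          (k * r : ℝ) * (∑ j ∈ Uf v, β j * lamY A v.val (D j) (d j) (f j) P X -
            (s * η * Λ + (∑ j, β j) * θ)) ≤
          ∑ i, lamQ A v.val (δz z) k (Φz z i) P X +
            ∑ y : Z × Fin r, (ρ y.1 y.2 * Real.log (⨆ i, v.val (A.x P i)) -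
              Real.log (v.val (aeval (A.x P) (R y.1 y.2)))) + Cl v.val := by
    intro v
    by_cases hv : v ∈ S
    · obtain ⟨z, hz⟩ := hCl v.val P X hX0 hXH
        (fun z i => hRP (z, i)) hfj Λ θ hθ0 hΛθ
        (fun j hj => by
          rw [hΛ]
          exact (hup P X hX0 j (hfj j hj)).2 v) (Uf v)
        (fun y => ⟨⟨(Uf v, y), hUf v hv L P₀ hP₀⟩, rfl, rfl⟩)
      exact ⟨z, fun _ => hz⟩
    · obtain ⟨v₀⟩ : Nonempty (NumberField.InfinitePlace K) := inferInstance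
      exact ⟨(hi v₀).choose, fun h => absurd h hv⟩
  choose zi hzi using hi
  choose zf hzf using hfi
  obtain ⟨⟨hc1, hc2⟩, hc3⟩ := hc P hP X hX0 hXH hx1 (fun v => E (zi v)) (fun v => E (zf v))
  simp only [Equiv.symm_apply_apply] at hc1 hc2 hc3
  have h1 : SS S (fun v => (k * r : ℝ) * (∑ j ∈ Ui v, β j * lamY A v.val (D j) (d j) (f j) P X -
        (s * η * Λ + (∑ j, β j) * θ) * 1))
      (fun v => (k * r : ℝ) * (∑ j ∈ Uf v, β j * lamY A v.val (D j) (d j) (f j) P X -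
        (s * η * Λ + (∑ j, β j) * θ) * 1)) ≤
      SS S (fun v => ∑ i, lamQ A v.val (δz (zi v)) k (Φz (zi v) i) P X +
            ∑ y : Z × Fin r, (ρ y.1 y.2 * Real.log (⨆ i, v.val (A.x P i)) -
              Real.log (v.val (aeval (A.x P) (R y.1 y.2)))) + Cl v.val)
        (fun v => ∑ i, lamQ A v.val (δz (zf v)) k (Φz (zf v) i) P X +
            ∑ y : Z × Fin r, (ρ y.1 y.2 * Real.log (⨆ i, v.val (A.x P i)) -
              Real.log (v.val (aeval (A.x P) (R y.1 y.2)))) + Cl v.val) := by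
    refine SS_mono (fun v => ?_) fun v hv => ?_
    · rw [mul_one]
      exact hzi v (hc1 v)
    · rw [mul_one]
      exact hzf v hv (hc2 v hv)
  rw [SS_mul, M_sub, SS_mul, SS_add, SS_add, ← hWt, ← hC₃, ← hb] at h1
  have hcE := (hσ P hx4).trans (one_mul _).symm
  rw [← hnz] at hY
  have h2 : (k * r : ℝ) * (SS S (fun v => ∑ j ∈ Ui v, β j * lamY A v.val (D j) (d j) (f j) P X)
      (fun v => ∑ j ∈ Uf v, β j * lamY A v.val (D j) (d j) (f j) P X) -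
      Wt * (s * η * Λ + b * θ)) ≤ _ := le_trans (le_of_eq (by ring)) h1
  exact B7_fin (κ := (k * r : ℝ)) rfl (by exact_mod_cast hk) (by exact_mod_cast hr) hhX hhP hε
    hCu0.le hWt0 hb0 (Nat.cast_nonneg _) hΛ hΛθ (by
      push_cast
      have := Nat.cast_nonneg (α := ℝ) Ng
      linarith) hη1 hNg1 hε₂1 h2 hY hc3 hcE.le hC₃0

/-- The main theorem. -/
theorem main (Γ : AddSubgroup (A.Pts K)) (hΓ : Γ.FG)
    (H : Fin m → MvPolynomial (Fin n) (MvPolynomial (Fin (N + 1)) K))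
    (hH : ∀ i, ∃ a b : ℕ, BH a b (H i)) (hg : IntG A H) (D d : Fin s → ℕ)
    (f : Fin s → Fin w → MvPolynomial (Fin n) (MvPolynomial (Fin (N + 1)) K))
    (hf : ∀ j l, BH (D j) (d j) (f j l)) (S : Finset (NumberField.FinitePlace K))
    (Ui : NumberField.InfinitePlace K → Finset (Fin s))
    (Uf : NumberField.FinitePlace K → Finset (Fin s))
    (hUi : ∀ v, RegG A H f (Ui v)) (hUf : ∀ v ∈ S, RegG A H f (Uf v)) (β : Fin s → ℝ)
    (hβ0 : ∀ j, 0 ≤ β j) (hβ : ∀ j, MeanG A H (f j) (β j)) {e : ℕ}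
    (f₀ : MvPolynomial (Fin (N + 1)) K) (hf₀ : f₀.IsHomogeneous e) (hf₀A : f₀ ∉ A.I)
    {ε : ℝ} (hε : 0 < ε) :
    ∃ k₀ : ℕ, ∀ k ≥ k₀,
    ∃ (C : ℝ) (F : MvPolynomial (Fin n) (MvPolynomial (Fin (N + 1)) K)), ExcF A H F ∧
      ∀ P ∈ Γ, ∀ X : Fin n → K, X ≠ 0 → (∀ i, eval X (sp A P (H i)) = 0) →
        eval X (sp A P F) ≠ 0 →
        ((∀ j, 0 < β j → ∃ l, eval X (sp A P (f j l)) ≠ 0) ∧ aeval (A.x P) f₀ ≠ 0) ∧
        (∑ v : NumberField.InfinitePlace K, (v.mult : ℝ) *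
            (∑ j ∈ Ui v, β j * lamY A v.val (D j) (d j) (f j) P X +
              (e * Real.log (⨆ i, v.val (A.x P i)) - Real.log (v.val (aeval (A.x P) f₀))))) +
          (∑ v ∈ S, (∑ j ∈ Uf v, β j * lamY A v.val (D j) (d j) (f j) P X +
              (e * Real.log (⨆ i, v.val (A.x P i)) - Real.log (v.val (aeval (A.x P) f₀))))) +
          mu (fib A H P) k ≤
          logHeight X + ε * (logHeight X + logHeight (A.x P)) + C := by
  classical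
  have hpr : ∀ (L : Type u) [Field L] [IsAlgClosed L] [Algebra K L] (P : A.Pts L), Gen A P →
      (fib A H P).IsPrime := fun L _ _ _ P hP => (hg L P hP).1
  obtain ⟨k₀, hk₀⟩ := main₀ A Γ hΓ H hH hg D d f hf S Ui Uf hUi hUf β hβ0 hβ hε
  refine ⟨k₀, fun k hk => ?_⟩
  obtain ⟨C, F, hF, h⟩ := hk₀ k hk
  obtain ⟨C', F', hF', h'⟩ := M_low A Γ hΓ H hpr (fun _ : Unit => f₀) (fun _ => e)
    (fun _ => hf₀) (fun _ => hf₀A) S (half_pos hε)
  refine ⟨C + C', F * F', ExcF_mul A H hpr hF hF', fun P hP X hX0 hXH hXF => ?_⟩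
  rw [sp_mul, map_mul] at hXF
  obtain ⟨g1, g2⟩ := h P hP X hX0 hXH (left_ne_zero_of_mul hXF)
  obtain ⟨g3, g4⟩ := h' P hP X (right_ne_zero_of_mul hXF)
  refine ⟨⟨g1, g3 ()⟩, ?_⟩
  simp only [Finset.univ_unique, Finset.sum_singleton, Fintype.card_unit, Nat.cast_one,
    one_mul] at g4
  have g5 : (∑ v : NumberField.InfinitePlace K, (v.mult : ℝ) *
            (∑ j ∈ Ui v, β j * lamY A v.val (D j) (d j) (f j) P X +
              (e * Real.log (⨆ i, v.val (A.x P i)) - Real.log (v.val (aeval (A.x P) f₀))))) +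
          (∑ v ∈ S, (∑ j ∈ Uf v, β j * lamY A v.val (D j) (d j) (f j) P X +
              (e * Real.log (⨆ i, v.val (A.x P i)) - Real.log (v.val (aeval (A.x P) f₀))))) =
      SS S (fun v => ∑ j ∈ Ui v, β j * lamY A v.val (D j) (d j) (f j) P X)
          (fun v => ∑ j ∈ Uf v, β j * lamY A v.val (D j) (d j) (f j) P X) +
        SS S (fun v => e * Real.log (⨆ i, v.val (A.x P i)) -
            Real.log (v.val (aeval (A.x P) f₀)))
          (fun v => e * Real.log (⨆ i, v.val (A.x P i)) -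
            Real.log (v.val (aeval (A.x P) f₀))) := by
    rw [← SS_add]
    rfl
  rw [g5]
  have hhX : 0 ≤ logHeight X := logHeight_nonneg _
  have g6 : ε / 2 * logHeight (A.x P) ≤ ε / 2 * (logHeight X + logHeight (A.x P)) :=
    mul_le_mul_of_nonneg_left (by linarith) (by positivity)
  linarith

end

end Pool.Agent.Lib.MP_17a322_nt.VE
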